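import Pool.Agent.Lib.MP_1a91b9_ntT.S1.Defs

/-!
# OneDim: one dimensionality of `J / Q J`

PROOF. `a ∈ J`, `a ∉ Q J` (so `J ≠ ⊥`). Let `I = span{a} ⊔ Q J ≤ J`; `J ∣ I`
(`Ideal.dvd_iff_le`), `I = J K`; `Q J ≤ I = J K` gives `Q ≤ K` (cancel `J ≠ 0`,
`Ideal.mul_right_mono`/`dvd`: `K ∣ Q`), so `K = Q` or `K = ⊤` (`Q` maximal). `K = Q` would give
`a ∈ I = J Q`. So `I = J` and `x ∈ J = span{a} ⊔ Q J` has the form `c a + y`
(`Ideal.mem_span_singleton_sup`, `Submodule.mem_sup`).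
-/

set_option autoImplicit false

namespace Pool.Agent.Lib.MP_1a91b9_ntT.S1

open NumberField Module IsDedekindDomain

noncomputable section

/-- One dimensionality of `J / Q J`. -/
theorem one_dim {F : Type*} [Field F] [NumberField F] (Q : HeightOneSpectrum (𝓞 F))
    (J : Ideal (𝓞 F)) (a : 𝓞 F) (ha : a ∈ J) (ha2 : a ∉ Q.asIdeal * J) (x : 𝓞 F) (hx : x ∈ J) :
    ∃ c : 𝓞 F, x - c * a ∈ Q.asIdeal * J := by
  classical
  have hJ : J ≠ ⊥ := by
    rintro rfl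
    rw [Ideal.mem_bot] at ha
    apply ha2
    rw [ha]
    exact Ideal.zero_mem _
  have hle : Ideal.span {a} ⊔ Q.asIdeal * J ≤ J := by
    refine sup_le ?_ Ideal.mul_le_right
    rw [Ideal.span_singleton_le_iff_mem]
    exact ha
  obtain ⟨K, hK⟩ := Ideal.dvd_iff_le.mpr hle
  have hQK : K ∣ Q.asIdeal := by
    have h1 : J * K ∣ J * Q.asIdeal := by
      rw [Ideal.dvd_iff_le, ← hK, mul_comm J Q.asIdeal]
      exact le_sup_right
    exact (mul_dvd_mul_iff_left hJ).mp h1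
  have hQle : Q.asIdeal ≤ K := Ideal.dvd_iff_le.mp hQK
  rcases (Q.isMaximal.out.le_iff.mp hQle).symm with h | h
  · exfalso
    apply ha2
    rw [← h, mul_comm, ← hK]
    exact Ideal.mem_sup_left (Ideal.mem_span_singleton_self a)
  · rw [h, Ideal.mul_top] at hK
    rw [← hK, Ideal.mem_span_singleton_sup] at hx
    obtain ⟨c, y, hy, hxy⟩ := hx
    refine ⟨c, ?_⟩
    rw [← hxy]
    simpa using hy

end

end Pool.Agent.Lib.MP_1a91b9_ntT.S1
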