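import Pool.Agent.Lib.MP_1a91b9_ntT.S1.Defs
import Pool.Agent.Lib.MP_1a91b9_ntT.S1.OneDim

/-!
# SqCompare: comparison of squares modulo powers of `Q`

Write `v` for the order at `Q`. `v(w) = j`, `v(β) = 2k`, `v(c) = 0`, `w'² = c β w² mod
Q^(2j+2k+1)`; hence `v(w'²) = 2j+2k`, `v(w') = j+k`. FACTS (for `x ∈ Q^a`, `x ∉ Q^(a+1)`,
`y ∈ Q^b`, `y ∉ Q^(b+1)`): `x y ∉ Q^(a+b+1)` (`Ideal.IsPrime.mul_mem_pow`, `IsPrime.mem_pow_mul` or
with `HeightOneSpectrum.intValuation` / `emultiplicity`), and for `w` of order `j` and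
`z ∈ Q^(j+i)` there is `x` with `x w - z ∈ Q^(j+i+1)`... more precisely: (*) if `v(w) = j` and
`z ∈ Q^(j+k)` then there is `x : 𝓞 F` with `x w - z ∈ Q^(j+k+1)`: the ideal
`span{w} ⊔ Q^(j+k+1)` equals `Q^j` (it divides `Q^(j+k+1)`, so it is a power `Q^i`
(`Ideal.dvd_prime_pow`), and `w ∈ Q^j`, `w ∉ Q^(j+1)` force `i = j`), and `z ∈ Q^(j+k) ≤ Q^j`.
(⇐) `r² - c ∈ Q`. Put `W = r w`, `v(W) = j` (`r ∉ Q` since `c ∉ Q`), and
`w'² - β W² = (w'² - cβw²) - (r²-c) β w² ∈ Q^(2j+2k+1)`. By (*) choose `x` with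
`x W - w' ∈ Q^(j+k+1)`. Then `(xW)² - w'² = (xW - w')(xW + w') ∈ Q^(2j+2k+1)`
(`xW + w' ∈ Q^(j+k)`), so `W² (x² - β) ∈ Q^(2j+2k+1)` and `x² - β ∈ Q^(2k+1)` as `v(W²) = 2j`.
So `IsSqAt Q β` with `x`, `k`.
(⇒) `IsSqAt Q β` gives `x`, `k'` with `v(β) = 2k'`, so `k' = k`, `x² - β ∈ Q^(2k+1)`, `v(x) = k`.
`w'² - c x² w² ∈ Q^(2j+2k+1)`. By (*) for `x w` (order `j+k`) and `z = w'`: choose `r` with
`r x w - w' ∈ Q^(j+k+1)`; then `r² (xw)² - w'² ∈ Q^(2j+2k+1)`, so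
`(r² - c)(xw)² ∈ Q^(2j+2k+1)` and `r² - c ∈ Q`.
(If it is more convenient prove everything with `HeightOneSpectrum.intValuation`:
`intValuation_le_pow_iff_mem`.)
-/

set_option autoImplicit false

namespace Pool.Agent.Lib.MP_1a91b9_ntT.S1

open NumberField Module IsDedekindDomain

noncomputable section

private theorem sqCompare_mem {F : Type*} [Field F] [NumberField F] (Q : HeightOneSpectrum (𝓞 F))
    (x : 𝓞 F) (n : ℕ) : x ∈ Q.asIdeal ^ n ↔ Q.intValuation x ≤ WithZero.exp (-(n : ℤ)) :=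
  (Q.intValuation_le_pow_iff_mem x n).symm

private theorem sqCompare_eq {F : Type*} [Field F] [NumberField F] (Q : HeightOneSpectrum (𝓞 F))
    {x : 𝓞 F} {n : ℕ} (h1 : x ∈ Q.asIdeal ^ n) (h2 : x ∉ Q.asIdeal ^ (n + 1)) :
    Q.intValuation x = WithZero.exp (-(n : ℤ)) := by
  rw [sqCompare_mem] at h1 h2
  have h0 : Q.intValuation x ≠ 0 := fun h => h2 (by rw [h]; exact zero_le)
  rw [← WithZero.exp_log h0, WithZero.exp_le_exp] at h1 h2
  rw [← WithZero.exp_log h0, WithZero.exp_inj]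
  push_cast at h2
  omega

private theorem sqCompare_not {F : Type*} [Field F] [NumberField F] (Q : HeightOneSpectrum (𝓞 F))
    {x : 𝓞 F} {n m : ℕ} (h : Q.intValuation x = WithZero.exp (-(n : ℤ))) (hnm : n < m) :
    x ∉ Q.asIdeal ^ m := by
  rw [sqCompare_mem, h, WithZero.exp_le_exp]
  omega

private theorem sqCompare_star {F : Type*} [Field F] [NumberField F] (Q : HeightOneSpectrum (𝓞 F))
    {w z : 𝓞 F} {j n : ℕ} (hw : w ∈ Q.asIdeal ^ j) (hw2 : w ∉ Q.asIdeal ^ (j + 1))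
    (hz : z ∈ Q.asIdeal ^ j) : ∃ x : 𝓞 F, x * w - z ∈ Q.asIdeal ^ n := by
  have hI : Ideal.span {w} ⊔ Q.asIdeal ^ n ∣ Q.asIdeal ^ n := Ideal.dvd_iff_le.2 le_sup_right
  obtain ⟨i, hi, hI2⟩ := (dvd_prime_pow Q.prime n).1 hI
  have hIe := associated_iff_eq.1 hI2
  have hij : i ≤ j := by
    by_contra hc
    have h1 : w ∈ Ideal.span {w} ⊔ Q.asIdeal ^ n :=
      Ideal.mem_sup_left (Ideal.mem_span_singleton_self w)
    rw [hIe] at h1
    exact hw2 (Ideal.pow_le_pow_right (by omega) h1)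
  have h2 : z ∈ Ideal.span {w} ⊔ Q.asIdeal ^ n := by
    rw [hIe]
    exact Ideal.pow_le_pow_right hij hz
  obtain ⟨a, b, hb, hab⟩ := Ideal.mem_span_singleton_sup.1 h2
  refine ⟨a, ?_⟩
  have h3 : a * w - z = -b := by rw [← hab]; ring
  rw [h3]
  exact neg_mem hb

private theorem sqCompare_cancel {F : Type*} [Field F] [NumberField F]
    (Q : HeightOneSpectrum (𝓞 F)) {a b : 𝓞 F} {m n : ℕ}
    (h : Q.intValuation a = WithZero.exp (-(m : ℤ))) (hab : a * b ∈ Q.asIdeal ^ (m + n)) :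
    b ∈ Q.asIdeal ^ n := by
  rw [sqCompare_mem] at hab ⊢
  by_cases h0 : Q.intValuation b = 0
  · rw [h0]; exact zero_le
  · rw [map_mul, h, ← WithZero.exp_log h0, ← WithZero.exp_add, WithZero.exp_le_exp] at hab
    rw [← WithZero.exp_log h0, WithZero.exp_le_exp]
    push_cast at hab
    omega

private theorem sqCompare_sq {F : Type*} [Field F] [NumberField F]
    (Q : HeightOneSpectrum (𝓞 F)) {a : 𝓞 F} {n : ℕ}
    (h : Q.intValuation (a ^ 2) = WithZero.exp (-((2 * n : ℕ) : ℤ))) :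
    Q.intValuation a = WithZero.exp (-(n : ℤ)) := by
  have h0 : Q.intValuation a ≠ 0 := fun h1 => by
    rw [map_pow, h1] at h
    exact WithZero.exp_ne_zero (h.symm.trans (by simp))
  rw [sq, map_mul, ← WithZero.exp_log h0, ← WithZero.exp_add, WithZero.exp_inj] at h
  rw [← WithZero.exp_log h0, WithZero.exp_inj]
  push_cast at h
  omega

/-- if `a - b` is smaller than `b` then `a` and `b` have the same order -/
private theorem sqCompare_close {F : Type*} [Field F] [NumberField F]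
    (Q : HeightOneSpectrum (𝓞 F)) {a b : 𝓞 F} {n : ℕ}
    (h : Q.intValuation b = WithZero.exp (-(n : ℤ))) (hab : a - b ∈ Q.asIdeal ^ (n + 1)) :
    Q.intValuation a = WithZero.exp (-(n : ℤ)) := by
  have hb : b ∈ Q.asIdeal ^ n := by rw [sqCompare_mem, h]
  have hb2 : b ∉ Q.asIdeal ^ (n + 1) := sqCompare_not Q h (by omega)
  refine sqCompare_eq Q ?_ fun ha => hb2 ?_
  · have h1 := add_mem (Ideal.pow_le_pow_right (Nat.le_succ n) hab) hb
    rwa [sub_add_cancel] at h1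
  · have h1 := sub_mem ha hab
    rwa [sub_sub_cancel] at h1

private theorem sqCompare_mul {F : Type*} [Field F] [NumberField F]
    (Q : HeightOneSpectrum (𝓞 F)) {a b : 𝓞 F} {m n : ℕ}
    (h : Q.intValuation a = WithZero.exp (-(m : ℤ))) (h2 : Q.intValuation b = WithZero.exp (-(n : ℤ))) :
    Q.intValuation (a * b) = WithZero.exp (-((m + n : ℕ) : ℤ)) := by
  rw [map_mul, h, h2, ← WithZero.exp_add, WithZero.exp_inj]
  push_cast
  ring

private theorem sqCompare_mulMem {F : Type*} [Field F] [NumberField F]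
    (Q : HeightOneSpectrum (𝓞 F)) {a b : 𝓞 F} {m n l : ℕ} (ha : a ∈ Q.asIdeal ^ m)
    (hb : b ∈ Q.asIdeal ^ n) (hl : l ≤ m + n) : a * b ∈ Q.asIdeal ^ l := by
  have h1 := Ideal.mul_mem_mul ha hb
  rw [← pow_add] at h1
  exact Ideal.pow_le_pow_right hl h1

/-- Comparison of squares modulo powers of `Q`. -/
theorem sq_compare {F : Type*} [Field F] [NumberField F] (Q : HeightOneSpectrum (𝓞 F))
    (w w' β c : 𝓞 F) (j k : ℕ)
    (hw : w ∈ Q.asIdeal ^ j) (hw2 : w ∉ Q.asIdeal ^ (j + 1))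
    (hβ : β ∈ Q.asIdeal ^ (2 * k)) (hβ2 : β ∉ Q.asIdeal ^ (2 * k + 1)) (hc : c ∉ Q.asIdeal)
    (hcong : w' ^ 2 - c * β * w ^ 2 ∈ Q.asIdeal ^ (2 * j + 2 * k + 1)) :
    IsSqAt Q β ↔ ∃ r : 𝓞 F, r ^ 2 - c ∈ Q.asIdeal := by
  have vw := sqCompare_eq Q hw hw2
  have vβ := sqCompare_eq Q hβ hβ2
  have vc : Q.intValuation c = WithZero.exp (-((0 : ℕ) : ℤ)) :=
    sqCompare_eq Q (by rw [pow_zero, Ideal.one_eq_top]; exact Submodule.mem_top)
      (by rwa [zero_add, pow_one])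
  have vww : Q.intValuation (w ^ 2) = WithZero.exp (-((j + j : ℕ) : ℤ)) := by
    rw [sq]; exact sqCompare_mul Q vw vw
  have vw2 : Q.intValuation (w' ^ 2) = WithZero.exp (-((2 * (j + k) : ℕ) : ℤ)) := by
    have h1 := sqCompare_mul Q (sqCompare_mul Q vc vβ) vww
    have h2 : 0 + 2 * k + (j + j) = 2 * (j + k) := by ring
    rw [h2] at h1
    refine sqCompare_close Q h1 ?_
    have h3 : 2 * (j + k) + 1 = 2 * j + 2 * k + 1 := by ring
    rw [h3]
    exact hcong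
  have vw' := sqCompare_sq Q vw2
  have mw' : w' ∈ Q.asIdeal ^ (j + k) := by rw [sqCompare_mem, vw']
  have mww : w ^ 2 ∈ Q.asIdeal ^ (2 * j) := by
    rw [sqCompare_mem, vww, WithZero.exp_le_exp]
    push_cast
    omega
  constructor
  · rintro ⟨x, k', h1, h2, h3⟩
    have vβ' := sqCompare_eq Q h1 h2
    have hk : k' = k := by
      rw [vβ, WithZero.exp_inj] at vβ'
      omega
    subst hk
    have vx := sqCompare_sq Q (sqCompare_close Q vβ h3)
    have vxw := sqCompare_mul Q vx vw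
    have mxw : x * w ∈ Q.asIdeal ^ (k' + j) := by rw [sqCompare_mem, vxw]
    have mw'' : w' ∈ Q.asIdeal ^ (k' + j) := by rwa [add_comm]
    obtain ⟨r, hr⟩ := sqCompare_star (n := k' + j + 1) Q mxw (sqCompare_not Q vxw (by omega)) mw''
    refine ⟨r, ?_⟩
    have h4 : (r * (x * w) + w') ∈ Q.asIdeal ^ (k' + j) :=
      add_mem (Ideal.mul_mem_left _ _ mxw) mw''
    have h5 : (r * (x * w) - w') * (r * (x * w) + w') ∈ Q.asIdeal ^ (2 * j + 2 * k' + 1) :=
      sqCompare_mulMem Q hr h4 (by omega)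
    have h6 : (x ^ 2 - β) * w ^ 2 ∈ Q.asIdeal ^ (2 * j + 2 * k' + 1) :=
      sqCompare_mulMem Q h3 mww (by omega)
    have h7 := sub_mem (add_mem h5 hcong) (Ideal.mul_mem_left _ c h6)
    have h8 : (r * (x * w) - w') * (r * (x * w) + w') + (w' ^ 2 - c * β * w ^ 2)
        - c * ((x ^ 2 - β) * w ^ 2) = ((x * w) * (x * w)) * (r ^ 2 - c) := by ring
    rw [h8] at h7
    have h9 : 2 * j + 2 * k' + 1 = (k' + j + (k' + j)) + 1 := by ring
    rw [h9] at h7
    have h10 := sqCompare_cancel Q (sqCompare_mul Q vxw vxw) h7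
    rwa [pow_one] at h10
  · rintro ⟨r, hr⟩
    have hr' : r ^ 2 - c ∈ Q.asIdeal ^ (0 + 1) := by rwa [zero_add, pow_one]
    have vr : Q.intValuation r = WithZero.exp (-((0 : ℕ) : ℤ)) :=
      sqCompare_sq Q (by rw [Nat.mul_zero]; exact sqCompare_close Q vc hr')
    have vW := sqCompare_mul Q vr vw
    rw [zero_add] at vW
    have mW : r * w ∈ Q.asIdeal ^ j := by rw [sqCompare_mem, vW]
    have mwj : w' ∈ Q.asIdeal ^ j := Ideal.pow_le_pow_right (Nat.le_add_right j k) mw'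
    obtain ⟨x, hx⟩ := sqCompare_star (n := j + k + 1) Q mW (sqCompare_not Q vW (by omega)) mwj
    refine ⟨x, k, hβ, hβ2, ?_⟩
    have h4 : x * (r * w) + w' ∈ Q.asIdeal ^ (j + k) := by
      have h5 := add_mem (Ideal.pow_le_pow_right (Nat.le_succ (j + k)) hx) (add_mem mw' mw')
      have h6 : x * (r * w) - w' + (w' + w') = x * (r * w) + w' := by ring
      rwa [h6] at h5
    have h5 : (x * (r * w) - w') * (x * (r * w) + w') ∈ Q.asIdeal ^ (2 * j + 2 * k + 1) :=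
      sqCompare_mulMem Q hx h4 (by omega)
    have h6 : ((r ^ 2 - c) * β) * w ^ 2 ∈ Q.asIdeal ^ (2 * j + 2 * k + 1) :=
      sqCompare_mulMem Q (sqCompare_mulMem (l := 2 * k + 1) Q hr' hβ (by omega)) mww (by omega)
    have h7 := sub_mem (add_mem h5 hcong) h6
    have h8 : (x * (r * w) - w') * (x * (r * w) + w') + (w' ^ 2 - c * β * w ^ 2)
        - ((r ^ 2 - c) * β) * w ^ 2 = ((r * w) * (r * w)) * (x ^ 2 - β) := by ring
    rw [h8] at h7
    have h9 : 2 * j + 2 * k + 1 = (j + j) + (2 * k + 1) := by ring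
    rw [h9] at h7
    exact sqCompare_cancel Q (sqCompare_mul Q vW vW) h7

end

end Pool.Agent.Lib.MP_1a91b9_ntT.S1
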