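import Pool.Agent.Lib.MP_1a91b9_ntT.S1.Defs
import Pool.Agent.Lib.MP_1a91b9_ntT.S1.SqCompare

/-!
# Bridge: normalisation of an element of even order

PROOF. `d ≠ 0` has a well defined order `n` at `Q` (`d ∈ Q^n`, `d ∉ Q^(n+1)`); it is even,
`n = 2k`, because `¬ OddAt Q d`. If `k = 0` take `α = 1`, `d' = d`. In general choose
`π ∈ Q^k`, `π ∉ Q^(k+1)` (`Ideal.pow_lt_pow...`, `SetLike.exists_of_lt`), `π ≠ 0`,
`span{π} = Q^k G` with `Q ∤ G` (`Ideal.dvd_span_singleton`), and `t ∈ G`, `t ∉ Q`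
(`Ideal.IsPrime`, `G ⊄ Q`). Put `α = t/π`. Then `π² ∣ t² d` in `𝓞 F`: `span{t² d} ≤ G² Q^(2k) =
span{π}²`, so `t² d = π² d'` with `d' : 𝓞 F`, i.e. `d' = d α²`, and `d' ∉ Q`: otherwise
`t² d = π² d' ∈ Q^(2k+1)`, `t ∉ Q` gives `d ∈ Q^(2k+1)`.
`IsSqAt Q d ↔ IsSquare (mk d')`: (⇒) `x² - d ∈ Q^(2k'+1)` with `d ∈ Q^(2k')`, `d ∉ Q^(2k'+1)`, so
`k' = k` and `x ∈ Q^k` (as `x² ∈ Q^(2k)`). `span{x t} ≤ Q^k G = span{π}`, `x t = π y`. Then
`π² (y² - d') = t² (x² - d) ∈ Q^(2k+1)` so `y² - d' ∈ Q` (order of `π²` is `2k`);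
`mk d' = (mk y)²`. (⇐) `mk d' = (mk y)²` (`IsSquare` is `r * r`), `y² - d' ∈ Q`. Choose `t'` with
`t t' - 1 ∈ Q^(2k+1)` (`t ∉ Q`: `span{t} ⊔ Q^(2k+1) = ⊤`). `x := y π t'`:
`x² - d = π² t'² (y² - d') + (π² t'² d' - d)`, the first term is in `Q^(2k+1)`, the second is
`t'² t² d - d = ((t t')² - 1) d ∈ Q^(2k+1)`. So `IsSqAt Q d` with `x`, `k`.
(The facts on orders are as in SqCompare; `IsPrime.mul_mem_pow`-type lemmas.)
-/

set_option autoImplicit false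

namespace Pool.Agent.Lib.MP_1a91b9_ntT.S1

open NumberField Module IsDedekindDomain

noncomputable section

/-- Normalisation of an element of even order. -/
theorem bridge {F : Type*} [Field F] [NumberField F] (Q : HeightOneSpectrum (𝓞 F)) (d : 𝓞 F)
    (hd : d ≠ 0) (hev : ¬ OddAt Q d) :
    ∃ (α : F) (d' : 𝓞 F), α ≠ 0 ∧ (d' : F) = d * α ^ 2 ∧ d' ∉ Q.asIdeal ∧
      (IsSqAt Q d ↔ IsSquare (Ideal.Quotient.mk Q.asIdeal d')) := by
  have hP0 : Q.asIdeal ≠ ⊥ := Q.ne_bot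
  have hPP : Q.asIdeal.IsPrime := Q.isPrime
  have hPt : Q.asIdeal ≠ ⊤ := hPP.ne_top
  -- the order of `d`
  have hfin : ∃ n : ℕ, d ∉ Q.asIdeal ^ n := by
    have h1 : FiniteMultiplicity Q.asIdeal (Ideal.span {d}) := by
      refine FiniteMultiplicity.of_not_isUnit ?_ ?_
      · rw [Ideal.isUnit_iff]
        exact hPt
      · simpa using hd
    obtain ⟨n, hn⟩ := h1
    refine ⟨n + 1, fun h => hn ?_⟩
    exact Ideal.dvd_span_singleton.2 h
  classical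
  obtain ⟨k, hk1, hk2⟩ : ∃ k : ℕ, d ∈ Q.asIdeal ^ (2 * k) ∧ d ∉ Q.asIdeal ^ (2 * k + 1) := by
    set n := Nat.find hfin with hn
    have h1 : d ∉ Q.asIdeal ^ n := Nat.find_spec hfin
    have h2 : n ≠ 0 := by
      intro h
      rw [h, pow_zero, Ideal.one_eq_top] at h1
      exact h1 Submodule.mem_top
    obtain ⟨m, hm⟩ := Nat.exists_eq_succ_of_ne_zero h2
    have h3 : d ∈ Q.asIdeal ^ m := by
      by_contra h
      have h4 := Nat.find_min' hfin h
      omega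
    rcases Nat.even_or_odd m with ⟨k, hk⟩ | ⟨k, hk⟩
    · refine ⟨k, ?_, ?_⟩
      · rw [show 2 * k = m by omega]; exact h3
      · rw [show 2 * k + 1 = n by omega]; exact h1
    · exfalso
      apply hev
      refine ⟨k, ?_, ?_⟩
      · rw [show 2 * k + 1 = m by omega]; exact h3
      · rw [show 2 * k + 2 = n by omega]; exact h1
  -- the element `p` of order `k`
  obtain ⟨p, hp1, hp2⟩ : ∃ p : 𝓞 F, p ∈ Q.asIdeal ^ k ∧ p ∉ Q.asIdeal ^ (k + 1) := by
    have h1 : Q.asIdeal ^ (k + 1) < Q.asIdeal ^ k :=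
      Ideal.pow_right_strictAnti _ hP0 hPt (Nat.lt_succ_self k)
    obtain ⟨p, hp, hp'⟩ := SetLike.exists_of_lt h1
    exact ⟨p, hp, hp'⟩
  have hp0 : p ≠ 0 := by
    rintro rfl
    exact hp2 (Ideal.zero_mem _)
  obtain ⟨G, hG⟩ := Ideal.dvd_span_singleton.2 hp1
  have hGP : ¬ G ≤ Q.asIdeal := by
    intro h
    obtain ⟨H, hH⟩ := Ideal.dvd_iff_le.2 h
    apply hp2
    apply Ideal.dvd_span_singleton.1
    rw [hG, hH, ← mul_assoc, ← pow_succ]
    exact dvd_mul_right _ _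
  obtain ⟨t, htG, htP⟩ := SetLike.not_le_iff_exists.1 hGP
  have ht0 : t ≠ 0 := by
    rintro rfl
    exact htP (Ideal.zero_mem _)
  have hdvd : p ^ 2 ∣ t ^ 2 * d := by
    rw [← Ideal.mem_span_singleton, ← Ideal.span_singleton_pow, hG, mul_pow, ← pow_mul,
      mul_comm (Q.asIdeal ^ (k * 2))]
    refine Ideal.mul_mem_mul (Ideal.pow_mem_pow htG 2) ?_
    rw [mul_comm k 2]
    exact hk1
  obtain ⟨d', hd'⟩ := hdvd
  have hcancel : ∀ n : ℕ, ∀ x : 𝓞 F, t * x ∈ Q.asIdeal ^ n → x ∈ Q.asIdeal ^ n := fun n x h =>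
    (Ideal.IsPrime.mul_mem_pow _ h).resolve_left htP
  have hd'P : d' ∉ Q.asIdeal := by
    intro h
    apply hk2
    apply hcancel
    apply hcancel
    have e : t * (t * d) = p ^ 2 * d' := by rw [← hd']; ring
    rw [e, pow_succ]
    refine Ideal.mul_mem_mul ?_ h
    rw [mul_comm 2 k, pow_mul]
    exact Ideal.pow_mem_pow hp1 2
  have hpF : (p : F) ≠ 0 := by
    intro h
    exact hp0 (RingOfIntegers.coe_eq_zero_iff.1 h)
  have htF : (t : F) ≠ 0 := by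
    intro h
    exact ht0 (RingOfIntegers.coe_eq_zero_iff.1 h)
  refine ⟨(t : F) / (p : F), d', div_ne_zero htF hpF, ?_, hd'P, ?_⟩
  · have h1 : (t : F) ^ 2 * (d : F) = (p : F) ^ 2 * (d' : F) := by
      have h2 := congrArg (algebraMap (𝓞 F) F) hd'
      simpa only [map_mul, map_pow] using h2
    field_simp
    linear_combination -h1
  · have h1 := sq_compare Q t (d' * p) d d' 0 k (by simp) (by simpa using htP) hk1 hk2 hd'P (by
      have e : (d' * p) ^ 2 - d' * d * t ^ 2 = 0 := by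
        linear_combination (-d') * hd'
      rw [e]
      exact Ideal.zero_mem _)
    rw [h1]
    constructor
    · rintro ⟨r, hr⟩
      refine ⟨Ideal.Quotient.mk Q.asIdeal r, ?_⟩
      rw [← map_mul, Ideal.Quotient.eq]
      have e : d' - r * r = -(r ^ 2 - d') := by ring
      rw [e]
      exact Ideal.neg_mem_iff _ |>.2 hr
    · rintro ⟨y, hy⟩
      obtain ⟨r, rfl⟩ := Ideal.Quotient.mk_surjective y
      refine ⟨r, ?_⟩
      rw [← map_mul, Ideal.Quotient.eq] at hy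
      have e : r ^ 2 - d' = -(d' - r * r) := by ring
      rw [e]
      exact Ideal.neg_mem_iff _ |>.2 hy

end

end Pool.Agent.Lib.MP_1a91b9_ntT.S1
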