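import Pool.Agent.Lib.MP_1a91b9_ntT.S1.Defs

/-!
# ExistsCod: an element `m` of the different with `m O = different * e`, `e` odd

PROOF. `D = differentIdeal ℤ (𝓞 F) ≠ ⊥` (`differentIdeal_ne_bot`). In a Dedekind domain, for
nonzero ideals `D` and `J` there is `m ∈ D` with `m O = D e` and `e + J = O`: choose
`m ∈ D` with `span{m} ⊔ D J = D` (e.g. `Ideal.exists_... ` / `IsDedekindDomain.exists_sup_span_eq`
: for `I ≤ D`, `I ≠ 0` there is `a` with `I ⊔ span {a} = D`; take `I = D * span{2}`). Then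
`D ∣ span{m}`, `span{m} = D e`, and `D (span{2} ⊔ e) = D` gives `span{2} ⊔ e = ⊤`. If `m = 0`
then `e = ⊥`, `span{2} = ⊤`, i.e. `2` is a unit of `𝓞 F`, impossible (its norm is `2^n`, `n ≥ 1`;
or `2` would be a unit of `ℤ` by integrality of `1/2`); alternatively choose `m ≠ 0`.
-/

set_option autoImplicit false

namespace Pool.Agent.Lib.MP_1a91b9_ntT.S1

open NumberField Module IsDedekindDomain

noncomputable section

variable {F : Type*} [Field F] [NumberField F]


/-- There is `m` in the different with `m O = different * e`, `e` odd. -/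
theorem exists_cod (F : Type*) [Field F] [NumberField F] :
    ∃ (m : 𝓞 F) (e : Ideal (𝓞 F)), Cod F m e := by
  have hD : differentIdeal ℤ (𝓞 F) ≠ ⊥ := differentIdeal_ne_bot
  set D := differentIdeal ℤ (𝓞 F) with hDdef
  have h2 : (2 : 𝓞 F) ≠ 0 := two_ne_zero
  have hI : D * Ideal.span {(2 : 𝓞 F)} ≠ 0 := by
    refine mul_ne_zero hD ?_
    simp
  obtain ⟨a, ha⟩ := IsDedekindDomain.exists_sup_span_eq (I := D * Ideal.span {(2 : 𝓞 F)})
    (J := D) Ideal.mul_le_left hI
  have haD : Ideal.span {a} ≤ D := by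
    conv_rhs => rw [← ha]
    exact le_sup_right
  obtain ⟨e, he⟩ := Ideal.dvd_iff_le.2 haD
  have hmul : D * (Ideal.span {(2 : 𝓞 F)} ⊔ e) = D * ⊤ := by
    rw [Ideal.mul_sup, ← he, ha, Ideal.mul_top]
  have htop : Ideal.span {(2 : 𝓞 F)} ⊔ e = ⊤ := mul_left_cancel₀ hD hmul
  have ha0 : a ≠ 0 := by
    rintro rfl
    have he0 : e = ⊥ := by
      have h3 : D * e = ⊥ := by rw [← he]; simp
      rcases mul_eq_zero.1 (show D * e = 0 from h3) with h4 | h4
      · exact absurd h4 hD
      · exact h4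
    rw [he0, sup_bot_eq, Ideal.span_singleton_eq_top] at htop
    have h5 := htop.map (Algebra.norm ℤ (S := 𝓞 F))
    have h6 : (2 : 𝓞 F) = algebraMap ℤ (𝓞 F) 2 := by simp
    rw [h6, Algebra.norm_algebraMap] at h5
    have h7 : finrank ℤ (𝓞 F) ≠ 0 := by
      rw [RingOfIntegers.rank]
      exact finrank_pos.ne'
    have h8 := (isUnit_pow_iff h7).1 h5
    rw [Int.isUnit_iff] at h8
    omega
  refine ⟨a, e, ha0, he, ?_⟩
  rw [Ideal.isCoprime_iff_sup_eq, sup_comm]
  exact htop

end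

end Pool.Agent.Lib.MP_1a91b9_ntT.S1
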