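import Pool.Agent.Lib.MP_1a91b9_ntT.S1.Defs

/-!
# GqLift: elementary facts about `gq`

PROOF. `gq_lift`: unfold `gq`, `finsum_congr`, `(mk c.out) = c` (`Quotient.out_eq'` or
`QuotientAddGroup.out_eq'`). `gq_ideal`: the quotient `R / Q.toAddSubgroup` and the ring quotient
`R / Q` are the same type up to unfolding (both are `Quotient` of the left relation of
`Q.toAddSubgroup`; alternatively build the bijection `c ↦ Ideal.Quotient.mk Q c.out` with
`Quotient.inductionOn`, injective/surjective by `Ideal.Quotient.eq` and `QuotientAddGroup.eq`),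
then `finsum_eq_sum_of_fintype` after reindexing with `finsum_eq_of_bijective`. In both cases the
value at the class `c` is `g (mk c.out) = g c`.
`gq_bij`: `h : A →+ B` with `h a ∈ T ↔ a ∈ S` and `∀ b, ∃ a, b - h a ∈ T`, `f` is `T`-periodic:
the map `A/S → B/T` induced by `h` is bijective; `finsum_eq_of_bijective` and periodicity
(`(mk (h a)).out - h a ∈ T`).
-/

set_option autoImplicit false

namespace Pool.Agent.Lib.MP_1a91b9_ntT.S1

open NumberField Module IsDedekindDomain

noncomputable section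

/-- A function of the class is summed over the classes. -/
theorem gq_lift {A : Type*} [AddCommGroup A] (S : AddSubgroup A) (g : A ⧸ S → ℂ) :
    gq S (fun a => g (QuotientAddGroup.mk a)) = ∑ᶠ c : A ⧸ S, g c := by
  unfold gq
  refine finsum_congr fun c => ?_
  show g (QuotientAddGroup.mk c.out) = g c
  rw [QuotientAddGroup.out_eq']

/-- Change of parametrisation for quotients. -/
theorem gq_bij {A B : Type*} [AddCommGroup A] [AddCommGroup B] (S : AddSubgroup A)
    (T : AddSubgroup B) (h : A →+ B) (f : B → ℂ) (hS : ∀ a, h a ∈ T ↔ a ∈ S)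
    (hsurj : ∀ b, ∃ a, b - h a ∈ T) (hf : ∀ x, ∀ t ∈ T, f (x + t) = f x) :
    gq T f = gq S (fun a => f (h a)) := by
  unfold gq
  have key : ∀ a : A, ∀ b : B, (QuotientAddGroup.mk b : B ⧸ T) = QuotientAddGroup.mk (h a) → f b = f (h a) := by
    intro a b hab
    rw [QuotientAddGroup.eq] at hab
    have h1 := hf b _ hab
    rw [← h1]
    congr 1
    abel
  symm
  refine finsum_eq_of_bijective (fun c : A ⧸ S => (QuotientAddGroup.mk (h c.out) : B ⧸ T)) ⟨?_, ?_⟩ ?_
  · intro c c' hcc
    have h1 : (QuotientAddGroup.mk (h c.out) : B ⧸ T) = QuotientAddGroup.mk (h c'.out) := hcc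
    rw [QuotientAddGroup.eq, ← map_neg, ← map_add, hS, ← QuotientAddGroup.eq,
      QuotientAddGroup.out_eq', QuotientAddGroup.out_eq'] at h1
    exact h1
  · intro d
    obtain ⟨a, ha⟩ := hsurj d.out
    refine ⟨QuotientAddGroup.mk a, ?_⟩
    show (QuotientAddGroup.mk (h (QuotientAddGroup.mk a : A ⧸ S).out) : B ⧸ T) = d
    have h2 : (QuotientAddGroup.mk (h (QuotientAddGroup.mk a : A ⧸ S).out) : B ⧸ T) =
        QuotientAddGroup.mk (h a) := by
      rw [QuotientAddGroup.eq, ← map_neg, ← map_add, hS, ← QuotientAddGroup.eq,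
        QuotientAddGroup.out_eq']
    rw [h2]
    have h3 : (QuotientAddGroup.mk (h a) : B ⧸ T) = QuotientAddGroup.mk d.out := by
      rw [QuotientAddGroup.eq, neg_add_eq_sub]
      exact ha
    rw [h3, QuotientAddGroup.out_eq']
  · intro c
    refine (key _ _ ?_).symm
    rw [QuotientAddGroup.out_eq']

/-- The sum over the residue ring of an ideal. -/
theorem gq_ideal {R : Type*} [CommRing R] (Q : Ideal R) [Fintype (R ⧸ Q)] (f : R → ℂ)
    (g : R ⧸ Q → ℂ) (hg : ∀ r, f r = g (Ideal.Quotient.mk Q r)) :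
    gq Q.toAddSubgroup f = ∑ c : R ⧸ Q, g c := by
  rw [← finsum_eq_sum_of_fintype]
  unfold gq
  refine finsum_eq_of_bijective
    (fun c : R ⧸ Q.toAddSubgroup => (Ideal.Quotient.mk Q c.out : R ⧸ Q)) ⟨?_, ?_⟩ ?_
  · intro c c' hcc
    have h1 : Ideal.Quotient.mk Q c.out = Ideal.Quotient.mk Q c'.out := hcc
    rw [Ideal.Quotient.eq] at h1
    have h2 : (QuotientAddGroup.mk c'.out : R ⧸ Q.toAddSubgroup) = QuotientAddGroup.mk c.out := by
      rw [QuotientAddGroup.eq, neg_add_eq_sub]
      exact h1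
    rw [QuotientAddGroup.out_eq', QuotientAddGroup.out_eq'] at h2
    exact h2.symm
  · intro d
    obtain ⟨r, rfl⟩ := Ideal.Quotient.mk_surjective d
    refine ⟨QuotientAddGroup.mk r, ?_⟩
    show Ideal.Quotient.mk Q (QuotientAddGroup.mk r : R ⧸ Q.toAddSubgroup).out = Ideal.Quotient.mk Q r
    rw [Ideal.Quotient.eq]
    have h2 : (QuotientAddGroup.mk r : R ⧸ Q.toAddSubgroup) =
        QuotientAddGroup.mk (QuotientAddGroup.mk r : R ⧸ Q.toAddSubgroup).out := by
      rw [QuotientAddGroup.out_eq']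
    rw [QuotientAddGroup.eq, neg_add_eq_sub] at h2
    exact h2
  · intro c
    exact hg _

end

end Pool.Agent.Lib.MP_1a91b9_ntT.S1
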