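import Pool.Agent.Lib.MP_1a91b9_ntT.S1.Defs

/-!
# TraceInt: the codifferent in terms of `m` and `e`

PROOF. `(differentIdeal ℤ (𝓞 F) : FractionalIdeal (𝓞 F)⁰ F) = (FractionalIdeal.dual ℤ ℚ 1)⁻¹`
(`coeIdeal_differentIdeal ℤ ℚ F (𝓞 F)`), so `dual 1 = D⁻¹` and from `span{m} = D e`
(`h.eq`, `h.ne`): `D⁻¹ = e / m`. `(∀ t : 𝓞 F, IsZ (trace (x t))) ↔ x ∈ dual 1`:
`FractionalIdeal.mem_dual (one_ne_zero)`: `∀ a ∈ 1, traceForm ℚ F x a ∈ (algebraMap ℤ ℚ).range`,
and `a ∈ 1 ↔ a` is in the image of `𝓞 F` (`FractionalIdeal.mem_one_iff`),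
`Algebra.traceForm_apply`. And `x ∈ D⁻¹ ↔ m x ∈ span{m} D⁻¹ = e` (multiply by the unit fractional
ideal `spanSingleton m`, `FractionalIdeal.mem_coeIdeal`,
`FractionalIdeal.coeIdeal_span_singleton`, `FractionalIdeal.mem_singleton_mul`).
-/

set_option autoImplicit false

namespace Pool.Agent.Lib.MP_1a91b9_ntT.S1

open NumberField Module IsDedekindDomain

noncomputable section

variable {F : Type*} [Field F] [NumberField F]


/-- The description of the codifferent: `x` is in the codifferent if and only if `m x` is in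
`e`. -/
theorem trace_int_iff {m : 𝓞 F} {e : Ideal (𝓞 F)} (h : Cod F m e) (x : F) :
    (∀ t : 𝓞 F, IsZ (Algebra.trace ℚ F (x * t))) ↔ ∃ y ∈ e, (y : F) = m * x := by
  have hD : ((differentIdeal ℤ (𝓞 F) : Ideal (𝓞 F)) :
      FractionalIdeal (nonZeroDivisors (𝓞 F)) F) =
      (FractionalIdeal.dual ℤ ℚ (1 : FractionalIdeal (nonZeroDivisors (𝓞 F)) F))⁻¹ :=
    coeIdeal_differentIdeal ℤ ℚ F (𝓞 F)
  have hm0 : (algebraMap (𝓞 F) F m) ≠ 0 := by
    rw [Ne, FaithfulSMul.algebraMap_eq_zero_iff]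
    exact h.ne
  have hDne : ((differentIdeal ℤ (𝓞 F) : Ideal (𝓞 F)) :
      FractionalIdeal (nonZeroDivisors (𝓞 F)) F) ≠ 0 := by
    rw [Ne, FractionalIdeal.coeIdeal_eq_zero]
    rintro h0
    have h3 := h.eq
    rw [h0, Ideal.bot_mul] at h3
    exact h.ne (by simpa using h3)
  have hdual : FractionalIdeal.dual ℤ ℚ (1 : FractionalIdeal (nonZeroDivisors (𝓞 F)) F) =
      ((differentIdeal ℤ (𝓞 F) : Ideal (𝓞 F)) :
        FractionalIdeal (nonZeroDivisors (𝓞 F)) F)⁻¹ := by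
    rw [hD, inv_inv]
  have heq : FractionalIdeal.spanSingleton (nonZeroDivisors (𝓞 F)) (algebraMap (𝓞 F) F m) =
      ((differentIdeal ℤ (𝓞 F) : Ideal (𝓞 F)) : FractionalIdeal (nonZeroDivisors (𝓞 F)) F) *
        (e : FractionalIdeal (nonZeroDivisors (𝓞 F)) F) := by
    rw [← FractionalIdeal.coeIdeal_mul, ← h.eq, FractionalIdeal.coeIdeal_span_singleton]
  have h1 : (∀ t : 𝓞 F, IsZ (Algebra.trace ℚ F (x * t))) ↔
      x ∈ FractionalIdeal.dual ℤ ℚ (1 : FractionalIdeal (nonZeroDivisors (𝓞 F)) F) := by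
    rw [FractionalIdeal.mem_dual (one_ne_zero' (FractionalIdeal (nonZeroDivisors (𝓞 F)) F))]
    constructor
    · intro ht a ha
      obtain ⟨t, rfl⟩ := (FractionalIdeal.mem_one_iff _).1 ha
      obtain ⟨k, hk⟩ := ht t
      exact ⟨k, by rw [Algebra.traceForm_apply]; simpa using hk⟩
    · intro ha t
      obtain ⟨k, hk⟩ := ha (algebraMap (𝓞 F) F t) ((FractionalIdeal.mem_one_iff _).2 ⟨t, rfl⟩)
      rw [Algebra.traceForm_apply] at hk
      exact ⟨k, by simpa using hk⟩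
  rw [h1, hdual]
  have h2 : x ∈ ((differentIdeal ℤ (𝓞 F) : Ideal (𝓞 F)) :
        FractionalIdeal (nonZeroDivisors (𝓞 F)) F)⁻¹ ↔
      FractionalIdeal.spanSingleton (nonZeroDivisors (𝓞 F)) (algebraMap (𝓞 F) F m * x) ≤
        (e : FractionalIdeal (nonZeroDivisors (𝓞 F)) F) := by
    rw [← FractionalIdeal.spanSingleton_le_iff_mem,
      ← FractionalIdeal.spanSingleton_mul_spanSingleton]
    constructor
    · intro hx
      have h3 := mul_le_mul' (le_refl (FractionalIdeal.spanSingleton (nonZeroDivisors (𝓞 F))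
        (algebraMap (𝓞 F) F m))) hx
      refine h3.trans (le_of_eq ?_)
      rw [heq, mul_comm (_ : FractionalIdeal (nonZeroDivisors (𝓞 F)) F) (e : _), mul_assoc,
        mul_inv_cancel₀ hDne, mul_one]
    · intro hx
      have hene : (e : FractionalIdeal (nonZeroDivisors (𝓞 F)) F) ≠ 0 := by
        rw [Ne, FractionalIdeal.coeIdeal_eq_zero]
        exact h.e_ne
      have h3 := mul_le_mul' (le_refl ((((differentIdeal ℤ (𝓞 F) : Ideal (𝓞 F)) :
        FractionalIdeal (nonZeroDivisors (𝓞 F)) F)⁻¹) *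
          (e : FractionalIdeal (nonZeroDivisors (𝓞 F)) F)⁻¹)) hx
      have h4 : (((differentIdeal ℤ (𝓞 F) : Ideal (𝓞 F)) :
        FractionalIdeal (nonZeroDivisors (𝓞 F)) F)⁻¹) *
          (e : FractionalIdeal (nonZeroDivisors (𝓞 F)) F)⁻¹ *
          (e : FractionalIdeal (nonZeroDivisors (𝓞 F)) F) =
          (((differentIdeal ℤ (𝓞 F) : Ideal (𝓞 F)) :
            FractionalIdeal (nonZeroDivisors (𝓞 F)) F)⁻¹) := by
        rw [mul_assoc, inv_mul_cancel₀ hene, mul_one]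
      rw [h4, heq, ← mul_assoc] at h3
      refine le_trans (le_of_eq ?_) h3
      have h5 : ((((differentIdeal ℤ (𝓞 F) : Ideal (𝓞 F)) :
        FractionalIdeal (nonZeroDivisors (𝓞 F)) F)⁻¹) *
          (e : FractionalIdeal (nonZeroDivisors (𝓞 F)) F)⁻¹) *
          (((differentIdeal ℤ (𝓞 F) : Ideal (𝓞 F)) :
            FractionalIdeal (nonZeroDivisors (𝓞 F)) F) *
          (e : FractionalIdeal (nonZeroDivisors (𝓞 F)) F)) = 1 := by
        rw [← mul_inv, inv_mul_cancel₀ (mul_ne_zero hDne hene)]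
      rw [h5, one_mul]
  rw [h2, FractionalIdeal.spanSingleton_le_iff_mem, FractionalIdeal.mem_coeIdeal]

theorem trace_int_of_mem {m : 𝓞 F} {e : Ideal (𝓞 F)} (h : Cod F m e) {x : F} {y : 𝓞 F}
    (hy : y ∈ e) (hx : (y : F) = m * x) : IsZ (Algebra.trace ℚ F x) := by
  have := (trace_int_iff h x).2 ⟨y, hy, hx⟩ 1
  simpa using this

end

end Pool.Agent.Lib.MP_1a91b9_ntT.S1
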