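import Pool.Agent.Lib.MP_1a91b9_ntT.S1.Defs
import Pool.Agent.Lib.MP_1a91b9_ntT.S1.TraceInt

/-!
# Qf: the quadratic function `qf m α x = ee (x²/(4mα))`

PROOF. KEY: if `c ∈ span{4α} * e` then `c = 4 α e₀`, `e₀ ∈ e` (`Ideal.mem_span_singleton_mul`),
`c/(4mα) = e₀/m` and `Tr (e₀/m) ∈ ℤ` by `trace_int_of_mem` (file TraceInt). `qf_congr`:
`x²/(4mα) - y²/(4mα) = (x²-y²)/(4mα)`, `ee_congr`. `qf_eq_one`: `y = 0` (or `ee_eq_one_iff`).
`qf_add`: `(x+y)² = x² + y² + 2xy`, `ee_add`, and the last term is `1`.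
`qf_period`: `(x + l)² - x² = 2 x l + l²`.
-/

set_option autoImplicit false

namespace Pool.Agent.Lib.MP_1a91b9_ntT.S1

open NumberField Module IsDedekindDomain

noncomputable section

theorem Qf_key {F : Type*} [Field F] [NumberField F] {m : 𝓞 F} {e : Ideal (𝓞 F)}
    (h : Cod F m e) (α : 𝓞 F) (hα : α ≠ 0) (c : 𝓞 F) (hc : c ∈ Ideal.span {4 * α} * e) :
    ee ((c : F) / (4 * m * α)) = 1 := by
  obtain ⟨e0, he0, rfl⟩ := Ideal.mem_span_singleton_mul.1 hc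
  rw [ee_eq_one_iff]
  refine trace_int_of_mem h he0 ?_
  have hm : (m : F) ≠ 0 := fun h0 => h.ne (RingOfIntegers.coe_eq_zero_iff.1 h0)
  have ha : (α : F) ≠ 0 := fun h0 => hα (RingOfIntegers.coe_eq_zero_iff.1 h0)
  have e2 : ((4 * α * e0 : 𝓞 F) : F) = 4 * (α : F) * (e0 : F) := by
    change algebraMap (𝓞 F) F (4 * α * e0) = _
    rw [map_mul, map_mul, map_ofNat]
  rw [e2]
  field_simp

/-- Multiplicativity of `qf` on orthogonal elements. -/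
theorem qf_add {F : Type*} [Field F] [NumberField F] {m : 𝓞 F} {e : Ideal (𝓞 F)}
    (h : Cod F m e) (α : 𝓞 F) (hα : α ≠ 0) (x y : 𝓞 F)
    (hxy : 2 * (x * y) ∈ Ideal.span {4 * α} * e) : qf m α (x + y) = qf m α x * qf m α y := by
  have e1 : (((x + y : 𝓞 F) : F)) ^ 2 / (4 * m * α) = (x : F) ^ 2 / (4 * m * α) +
      (y : F) ^ 2 / (4 * m * α) + ((2 * (x * y) : 𝓞 F) : F) / (4 * m * α) := by
    have h2 : ((2 * (x * y) : 𝓞 F) : F) = 2 * ((x : F) * (y : F)) := by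
      change algebraMap (𝓞 F) F (2 * (x * y)) = _
      rw [map_mul, map_mul, map_ofNat]
    rw [h2]
    push_cast
    ring
  unfold qf
  rw [e1, ee_add, ee_add, Qf_key h α hα _ hxy, mul_one]

theorem qf_eq_one {F : Type*} [Field F] [NumberField F] {m : 𝓞 F} {e : Ideal (𝓞 F)}
    (h : Cod F m e) (α : 𝓞 F) (hα : α ≠ 0) (x : 𝓞 F)
    (hx : x ^ 2 ∈ Ideal.span {4 * α} * e) : qf m α x = 1 := by
  have e1 : ((x ^ 2 : 𝓞 F) : F) = (x : F) ^ 2 := by push_cast; rfl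
  unfold qf
  rw [← e1]
  exact Qf_key h α hα _ hx

/-- If the squares are congruent the values of `qf` are equal. -/
theorem qf_congr {F : Type*} [Field F] [NumberField F] {m : 𝓞 F} {e : Ideal (𝓞 F)}
    (h : Cod F m e) (α : 𝓞 F) (hα : α ≠ 0) (x y : 𝓞 F)
    (hxy : x ^ 2 - y ^ 2 ∈ Ideal.span {4 * α} * e) : qf m α x = qf m α y := by
  have e1 : (x : F) ^ 2 / (4 * m * α) = ((x ^ 2 - y ^ 2 : 𝓞 F) : F) / (4 * m * α) +
      (y : F) ^ 2 / (4 * m * α) := by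
    push_cast
    ring
  unfold qf
  rw [e1, ee_add, Qf_key h α hα _ hxy, one_mul]

theorem qf_period {F : Type*} [Field F] [NumberField F] {m : 𝓞 F} {e : Ideal (𝓞 F)}
    (h : Cod F m e) (α : 𝓞 F) (hα : α ≠ 0) (x l : 𝓞 F)
    (hxl : 2 * (x * l) ∈ Ideal.span {4 * α} * e) (hl : l ^ 2 ∈ Ideal.span {4 * α} * e) :
    qf m α (x + l) = qf m α x := by
  rw [qf_add h α hα x l hxl, qf_eq_one h α hα l hl, mul_one]

end

end Pool.Agent.Lib.MP_1a91b9_ntT.S1
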