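import Pool.Agent.Lib.MP_1a91b9_ntT.S1.Defs
import Pool.Agent.Lib.MP_1a91b9_ntT.S1.Qf
import Pool.Agent.Lib.MP_1a91b9_ntT.S1.GqLift

/-!
# IndepTwo: the local sum at 2

PROOF of `indep_two`. `w`, `w'` are odd (coprime to 2) with squares in `I = span{α} e`. So `I` is
coprime to `2`, hence to `4`. Choose `u` with `u w - w' ∈ span{4}` (`w` is a unit modulo `4`:
`IsCoprime w 4`, `p w + q 4 = 1`, `u = p w'`); `u` is odd. `(u w)² - w'² ∈ span{4} ∩ I =
span{4} I = span{4α} e` (coprimality: `1 = i + 4 t`, `i ∈ I`; `x = x i + 4 t x`). So by `qf_congr`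
`qf m α (y w') = qf m α (y u w)` (difference of squares `y² (w'² - (uw)²)`). Then
`T2 m α w' = gq span{2} (fun y => g (u y))`, `g y = qf m α (y w)`; `g` is periodic modulo `2`:
`qf_congr`, `((y+2t) w)² - (y w)² = 4 t (y + t) w² ∈ span{4} I`. Substitution `y → u y` is a
bijection of `𝓞 F / 2` as `u` is odd: `gq_bij` (file GqLift) with `h y = u y`.
PROOF of `scale_two_aux`. `w² ∈ span{dα} e`, `w` odd. `a` is odd (`d = a² + 4b` odd: `IsCoprime`).
For each `y`: `qf m (dα) (a y w) = qf m α (y w)`: `(a y w)²/(4mdα) = (d - 4b) y² w²/(4mdα) =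
y²w²/(4mα) - b y² w²/(mdα)` and `w² = dα e₀`, `e₀ ∈ e`, so the last term is `b y² e₀/m`, trace
integral (`trace_int_of_mem` with `b y² e₀ ∈ e`), `ee_congr`. So
`T2 m α w = gq span{2} (fun y => g (a y))`, `g y = qf m (dα) (y w)`, `g` periodic modulo `2`
(as before, with `dα`), `gq_bij` with `h y = a y`: `T2 m (dα) w = T2 m α w`.
-/

set_option autoImplicit false

namespace Pool.Agent.Lib.MP_1a91b9_ntT.S1

open NumberField Module IsDedekindDomain

noncomputable section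

private theorem it_mem {F : Type*} [Field F] {e : Ideal (𝓞 F)} {α w : 𝓞 F} (hw : Adm2 e α w)
    {x : 𝓞 F} (h4 : ∃ c, x = 4 * c) (hI : x ∈ Ideal.span {α} * e) :
    x ∈ Ideal.span {4 * α} * e := by
  obtain ⟨p, q, hpq⟩ : IsCoprime (w ^ 2) ((2 : 𝓞 F) ^ 2) := hw.1.pow
  obtain ⟨c, hc⟩ := h4
  have h1 : c * (p * w ^ 2) + q * x ∈ Ideal.span {α} * e :=
    Ideal.add_mem _ (Ideal.mul_mem_left _ _ (Ideal.mul_mem_left _ _ hw.2)) (Ideal.mul_mem_left _ _ hI)
  obtain ⟨z, hz, hz2⟩ := Ideal.mem_span_singleton_mul.1 h1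
  refine Ideal.mem_span_singleton_mul.2 ⟨z, hz, ?_⟩
  rw [mul_assoc, hz2]
  calc 4 * (c * (p * w ^ 2) + q * x) = (4 * c) * (p * w ^ 2) + x * (q * 2 ^ 2) := by ring
    _ = x * (p * w ^ 2 + q * 2 ^ 2) := by rw [← hc]; ring
    _ = x := by rw [hpq, mul_one]

private theorem it_per {F : Type*} [Field F] [NumberField F] {m : 𝓞 F} {e : Ideal (𝓞 F)}
    (h : Cod F m e) (α : 𝓞 F) (hα : α ≠ 0) {w : 𝓞 F} (hw : Adm2 e α w) (x t : 𝓞 F)
    (ht : t ∈ (Ideal.span {(2 : 𝓞 F)}).toAddSubgroup) :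
    qf m α ((x + t) * w) = qf m α (x * w) := by
  obtain ⟨t', ht'⟩ := Ideal.mem_span_singleton'.1 ht
  refine qf_congr h α hα _ _ (it_mem hw ⟨t' * (x + t') * w ^ 2, ?_⟩ ?_)
  · rw [← ht']
    ring
  · have e1 : ((x + t) * w) ^ 2 - (x * w) ^ 2 = (t * (2 * x + t)) * w ^ 2 := by ring
    rw [e1]
    exact Ideal.mul_mem_left _ _ hw.2

private theorem it_sub {F : Type*} [Field F] [NumberField F] {m : 𝓞 F} {e : Ideal (𝓞 F)}
    (h : Cod F m e) (α : 𝓞 F) (hα : α ≠ 0) {w : 𝓞 F} (hw : Adm2 e α w) {u : 𝓞 F}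
    (hu : IsCoprime u 2) :
    gq (Ideal.span {(2 : 𝓞 F)}).toAddSubgroup (fun y => qf m α ((u * y) * w)) = T2 m α w := by
  unfold T2
  symm
  refine gq_bij (Ideal.span {(2 : 𝓞 F)}).toAddSubgroup (Ideal.span {(2 : 𝓞 F)}).toAddSubgroup
    (AddMonoidHom.mulLeft u) (fun y => qf m α (y * w)) ?_ ?_ ?_
  · intro a
    change u * a ∈ Ideal.span {(2 : 𝓞 F)} ↔ a ∈ Ideal.span {(2 : 𝓞 F)}
    rw [Ideal.mem_span_singleton, Ideal.mem_span_singleton]
    exact ⟨fun h1 => hu.symm.dvd_of_dvd_mul_left h1, fun h1 => h1.mul_left u⟩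
  · intro b
    obtain ⟨r, s, hrs⟩ := hu
    refine ⟨r * b, ?_⟩
    change b - u * (r * b) ∈ Ideal.span {(2 : 𝓞 F)}
    rw [Ideal.mem_span_singleton]
    refine ⟨s * b, ?_⟩
    linear_combination (-b) * hrs
  · intro x t ht
    exact it_per h α hα hw x t ht

/-- Independence of the local sum at `2` of the parameter. -/
theorem indep_two {F : Type*} [Field F] [NumberField F] {m : 𝓞 F} {e : Ideal (𝓞 F)}
    (h : Cod F m e) (α : 𝓞 F) (hα : α ≠ 0)
    (w w' : 𝓞 F) (hw : Adm2 e α w) (hw' : Adm2 e α w') : T2 m α w' = T2 m α w := by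
  obtain ⟨p, q, hpq⟩ : IsCoprime w ((2 : 𝓞 F) ^ 2) := hw.1.pow_right
  have hp : IsCoprime p 2 := ⟨w, q * 2, by linear_combination hpq⟩
  have hu : IsCoprime (p * w') 2 := hp.mul_left hw'.1
  rw [← it_sub h α hα hw hu]
  unfold T2
  congr 1
  funext y
  refine qf_congr h α hα _ _ (it_mem hw ⟨y ^ 2 * (q * w') * (w' + p * w' * w), ?_⟩ ?_)
  · linear_combination (-(y ^ 2 * w' ^ 2 * (1 + p * w))) * hpq
  · have e1 : (y * w') ^ 2 - (p * w' * y * w) ^ 2 = y ^ 2 * w' ^ 2 - (p * w' * y) ^ 2 * w ^ 2 := by ring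
    rw [e1]
    exact Ideal.sub_mem _ (Ideal.mul_mem_left _ _ hw'.2) (Ideal.mul_mem_left _ _ hw.2)

/-- The local sum at `2` does not change if `α` is multiplied by `d = a² + 4b`. -/
theorem scale_two_aux {F : Type*} [Field F] [NumberField F] {m : 𝓞 F} {e : Ideal (𝓞 F)}
    (h : Cod F m e) (α d a b : 𝓞 F) (hα : α ≠ 0) (hd : d = a ^ 2 + 4 * b) (hd2 : IsCoprime d 2)
    (w : 𝓞 F) (hw : Adm2 e (d * α) w) : T2 m (d * α) w = T2 m α w := by
  by_cases hd0 : d = 0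
  · have hw0 : w = 0 := by
      have h1 := hw.2
      rw [hd0, zero_mul, Ideal.span_singleton_zero, Ideal.bot_mul, Ideal.mem_bot] at h1
      exact pow_eq_zero_iff (two_ne_zero) |>.1 h1
    rw [hw0]
    unfold T2
    congr 1
    funext y
    simp [qf]
  have ha : IsCoprime a 2 := by
    obtain ⟨p, q, hpq⟩ := hd2
    exact ⟨p * a, 2 * p * b + q, by rw [hd] at hpq; linear_combination hpq⟩
  have hdα : d * α ≠ 0 := mul_ne_zero hd0 hα
  rw [← it_sub h (d * α) hdα hw ha]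
  unfold T2
  congr 1
  funext y
  obtain ⟨e₀, he₀, hwe⟩ := Ideal.mem_span_singleton_mul.1 hw.2
  have hm' : (m : F) ≠ 0 := fun h0 => h.ne (RingOfIntegers.coe_eq_zero_iff.1 h0)
  have hα' : (α : F) ≠ 0 := fun h0 => hα (RingOfIntegers.coe_eq_zero_iff.1 h0)
  have hd' : (d : F) ≠ 0 := fun h0 => hd0 (RingOfIntegers.coe_eq_zero_iff.1 h0)
  have hw' : (w : F) ^ 2 = d * α * e₀ := by
    have h1 := congrArg (fun t : 𝓞 F => (t : F)) hwe
    simp only [map_mul, map_pow] at h1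
    exact h1.symm
  have hd'' : (d : F) = (a : F) ^ 2 + 4 * b := by
    have h4 : algebraMap (𝓞 F) F 4 = 4 := map_ofNat (algebraMap (𝓞 F) F) 4
    have h1 := congrArg (algebraMap (𝓞 F) F) hd
    rw [map_add, map_mul, map_pow, h4] at h1
    exact h1
  unfold qf
  apply ee_congr
  refine trace_int_of_mem h (y := -(b * y ^ 2) * e₀) (Ideal.mul_mem_left _ _ he₀) ?_
  have e1 : ((-(b * y ^ 2) * e₀ : 𝓞 F) : F) = -((b : F) * (y : F) ^ 2) * e₀ := by
    simp
  have e2 : ((a * y * w : 𝓞 F) : F) = a * y * w := by simp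
  have e3 : ((y * w : 𝓞 F) : F) = y * w := by simp
  have e4 : ((d * α : 𝓞 F) : F) = d * α := by simp
  rw [e1, e2, e3, e4, mul_pow, mul_pow (y : F), hw']
  field_simp
  rw [hd'']
  ring

theorem scale_two {F : Type*} [Field F] [NumberField F] {m : 𝓞 F} {e : Ideal (𝓞 F)}
    (h : Cod F m e) (α d a b : 𝓞 F) (hα : α ≠ 0) (hd : d = a ^ 2 + 4 * b) (hd2 : IsCoprime d 2)
    (w w' : 𝓞 F) (hw : Adm2 e α w) (hw' : Adm2 e (d * α) w') : T2 m (d * α) w' = T2 m α w := by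
  rw [scale_two_aux h α d a b hα hd hd2 w' hw']
  apply indep_two h α hα w w' hw
  refine ⟨hw'.1, ?_⟩
  have h1 := hw'.2
  have h3 : Ideal.span {d * α} * e ≤ Ideal.span {α} * e := by
    apply Ideal.mul_mono_left
    rw [Ideal.span_singleton_le_span_singleton]
    exact Dvd.intro_left d rfl
  exact h3 h1

end

end Pool.Agent.Lib.MP_1a91b9_ntT.S1
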