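import Pool.Agent.Lib.MP_1a91b9_ntT.S1.Defs
import Pool.Agent.Lib.MP_1a91b9_ntT.S1.GqLift

/-!
# GaussScale: the quadratic Gauss sum over the residue field

PROOF. `k = 𝓞 F / Q` is a finite field (`Q` maximal, `Ideal.Quotient.field`, finite) with
`2 ≠ 0`. `f` is an additive character of `𝓞 F`, trivial on `Q`, so `f t = ψ (mk t)` for a
nontrivial `ψ : AddChar k ℂ` (or just a function `ψ : k → ℂ` with `ψ (x+y) = ψ x ψ y`,
`ψ 0 = 1`). By `gq_ideal` (file GqLift): `gq Q (fun y => f (c y²)) = sum_{y ∈ k} ψ (c y²)`.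
(a) `r² - c ∈ Q`, so `c = r²` in `k`, `r ≠ 0` in `k` (as `c ∉ Q`): substitute `y → r y`
(bijection `Equiv.mulLeft₀`): `sum ψ (r² y²) = sum ψ (y²)`.
(b) `c` is not a square in `k`: `sum_y ψ(c y²) + sum_y ψ(y²) = 2 sum_{t ∈ k} ψ(t) = 0`
(nontrivial character: `AddChar.sum_eq_zero_of_ne_one` or by translation). Use
`quadraticChar`: the number of `y` with `y² = t` is `quadraticChar k t + 1`
(`quadraticChar_card_sqrts`), so `sum_y ψ(c y²) = sum_t (1 + χ(t)) ψ(c t)` and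
`sum_t ψ(ct) = 0`, `sum_t χ(t) ψ(ct) = χ(c)⁻¹ sum_t χ(t) ψ(t)` (`gaussSum_mulShift`), `χ(c) = -1`
(`quadraticChar_neg_one_iff_not_isSquare`).
-/

set_option autoImplicit false

namespace Pool.Agent.Lib.MP_1a91b9_ntT.S1

open NumberField Module IsDedekindDomain

noncomputable section

/-- the function on the residue ring -/
private def gsc_psi {F : Type*} [Field F] [NumberField F] (Q : Ideal (𝓞 F))
    (f : 𝓞 F → ℂ) (x : 𝓞 F ⧸ Q) : ℂ := f x.out

private theorem gsc_mk {F : Type*} [Field F] [NumberField F] (Q : Ideal (𝓞 F))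
    (f : 𝓞 F → ℂ) (hadd : ∀ x y, f (x + y) = f x * f y) (h1 : ∀ t ∈ Q, f t = 1) (r : 𝓞 F) :
    gsc_psi Q f (Ideal.Quotient.mk Q r) = f r := by
  rw [gsc_psi]
  have h : (Ideal.Quotient.mk Q r).out - r ∈ Q := by
    rw [← Ideal.Quotient.eq]
    exact Quotient.out_eq' _
  have h2 : (Ideal.Quotient.mk Q r).out = r + ((Ideal.Quotient.mk Q r).out - r) := by ring
  rw [h2, hadd, h1 _ h, mul_one]

private theorem gsc_finite {F : Type*} [Field F] [NumberField F]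
    (Q : HeightOneSpectrum (𝓞 F)) : Finite (𝓞 F ⧸ Q.asIdeal) :=
  Ideal.finiteQuotientOfFreeOfNeBot Q.asIdeal Q.ne_bot

/-- sums over squares -/
private theorem gsc_sum_sq {k : Type*} [Field k] [Fintype k] [DecidableEq k]
    (h2 : ringChar k ≠ 2) (g : k → ℂ) :
    ∑ y : k, g (y ^ 2) = ∑ t : k, ((quadraticChar k t : ℤ) + 1 : ℂ) * g t := by
  rw [← Finset.sum_fiberwise (Finset.univ : Finset k) (fun y : k => y ^ 2) (fun y => g (y ^ 2))]
  refine Finset.sum_congr rfl fun t _ => ?_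
  have h3 : ∑ y ∈ (Finset.univ : Finset k) with y ^ 2 = t, g (y ^ 2)
      = ∑ y ∈ (Finset.univ : Finset k) with y ^ 2 = t, g t := by
    refine Finset.sum_congr rfl fun y hy => ?_
    rw [(Finset.mem_filter.mp hy).2]
  rw [h3, Finset.sum_const, nsmul_eq_mul]
  congr 1
  have h4 := quadraticChar_card_sqrts h2 t
  have h5 : ({x : k | x ^ 2 = t} : Set k).toFinset = Finset.univ.filter (fun y : k => y ^ 2 = t) := by
    ext x
    simp
  rw [h5] at h4
  exact_mod_cast h4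

/-- the sum of a nontrivial additive function -/
private theorem gsc_sum_zero {k : Type*} [Field k] [Fintype k] (ψ : k → ℂ)
    (hadd : ∀ x y, ψ (x + y) = ψ x * ψ y) (hne : ∃ t, ψ t ≠ 1) : ∑ s : k, ψ s = 0 := by
  obtain ⟨t, ht⟩ := hne
  have h1 : ∑ s : k, ψ (s + t) = ∑ s : k, ψ s :=
    Fintype.sum_equiv (Equiv.addRight t) _ _ (fun s => rfl)
  simp_rw [hadd] at h1
  rw [← Finset.sum_mul] at h1
  have h3 : (∑ s : k, ψ s) * (ψ t - 1) = 0 := by rw [mul_sub, h1, mul_one, sub_self]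
  exact (mul_eq_zero.mp h3).resolve_right (sub_ne_zero.mpr ht)

private theorem gsc_nsq {k : Type*} [Field k] [Fintype k]
    (h2 : ringChar k ≠ 2) (ψ : k → ℂ)
    (hadd : ∀ x y, ψ (x + y) = ψ x * ψ y) (hne : ∃ t, ψ t ≠ 1) (c : k) (hc : ¬ IsSquare c) :
    ∑ y : k, ψ (c * y ^ 2) = - ∑ y : k, ψ (y ^ 2) := by
  classical
  have hc0 : c ≠ 0 := by
    rintro rfl
    exact hc (IsSquare.zero)
  have hχ : quadraticChar k c = -1 := quadraticChar_neg_one_iff_not_isSquare.mpr hc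
  have e1 := gsc_sum_sq h2 (fun t => ψ (c * t))
  have e2 := gsc_sum_sq h2 ψ
  have e3 : ∑ t : k, ((quadraticChar k t : ℤ) + 1 : ℂ) * ψ (c * t)
      = ∑ s : k, (-((quadraticChar k s : ℤ) : ℂ) + 1) * ψ s := by
    refine Fintype.sum_equiv (Equiv.mulLeft₀ c hc0) _ _ (fun t => ?_)
    simp only [Equiv.mulLeft₀_apply, map_mul, hχ]
    push_cast
    ring
  rw [e1, e3, e2, eq_neg_iff_add_eq_zero, ← Finset.sum_add_distrib]
  have e4 : ∀ s : k, (-((quadraticChar k s : ℤ) : ℂ) + 1) * ψ s +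
      ((quadraticChar k s : ℤ) + 1 : ℂ) * ψ s = 2 * ψ s := fun s => by ring
  simp_rw [e4]
  rw [← Finset.mul_sum, gsc_sum_zero ψ hadd hne, mul_zero]

/-- The quadratic Gauss sum over the residue field: scaling by a square. -/
theorem gauss_scale_sq {F : Type*} [Field F] [NumberField F] (Q : HeightOneSpectrum (𝓞 F))
    (f : 𝓞 F → ℂ) (hadd : ∀ x y, f (x + y) = f x * f y) (h1 : ∀ t ∈ Q.asIdeal, f t = 1)
    (c : 𝓞 F) (hc : c ∉ Q.asIdeal) (hr : ∃ r : 𝓞 F, r ^ 2 - c ∈ Q.asIdeal) :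
    gq Q.asIdeal.toAddSubgroup (fun y => f (c * y ^ 2))
      = gq Q.asIdeal.toAddSubgroup (fun y => f (y ^ 2)) := by
  have := gsc_finite Q
  have := Fintype.ofFinite (𝓞 F ⧸ Q.asIdeal)
  let _ : Field (𝓞 F ⧸ Q.asIdeal) := Ideal.Quotient.field Q.asIdeal
  rw [gq_ideal Q.asIdeal (fun y => f (c * y ^ 2))
      (fun x => gsc_psi Q.asIdeal f (Ideal.Quotient.mk _ c * x ^ 2))
      (fun r => by rw [← map_pow, ← map_mul, gsc_mk _ f hadd h1]),
    gq_ideal Q.asIdeal (fun y => f (y ^ 2)) (fun x => gsc_psi Q.asIdeal f (x ^ 2))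
      (fun r => by rw [← map_pow, gsc_mk _ f hadd h1])]
  obtain ⟨r, hr⟩ := hr
  have hrc : Ideal.Quotient.mk Q.asIdeal c = (Ideal.Quotient.mk Q.asIdeal r) ^ 2 := by
    rw [← map_pow]
    exact (Ideal.Quotient.eq.mpr hr).symm
  have hc0 : Ideal.Quotient.mk Q.asIdeal c ≠ 0 := by
    rwa [Ne, Ideal.Quotient.eq_zero_iff_mem]
  have hr0 : Ideal.Quotient.mk Q.asIdeal r ≠ 0 := by
    intro h0
    rw [hrc, h0] at hc0
    exact hc0 (by ring)
  refine Fintype.sum_equiv (Equiv.mulLeft₀ (Ideal.Quotient.mk Q.asIdeal r) hr0) _ _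
    (fun t => ?_)
  simp only [Equiv.mulLeft₀_apply]
  rw [hrc, mul_pow]

/-- The quadratic Gauss sum over the residue field: scaling by a nonsquare. -/
theorem gauss_scale_nsq {F : Type*} [Field F] [NumberField F] (Q : HeightOneSpectrum (𝓞 F))
    (h2 : (2 : 𝓞 F) ∉ Q.asIdeal) (f : 𝓞 F → ℂ)
    (hadd : ∀ x y, f (x + y) = f x * f y) (h1 : ∀ t ∈ Q.asIdeal, f t = 1) (hne : ∃ t, f t ≠ 1)
    (c : 𝓞 F) (hc : c ∉ Q.asIdeal) (hr : ¬ ∃ r : 𝓞 F, r ^ 2 - c ∈ Q.asIdeal) :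
    gq Q.asIdeal.toAddSubgroup (fun y => f (c * y ^ 2))
      = - gq Q.asIdeal.toAddSubgroup (fun y => f (y ^ 2)) := by
  have := gsc_finite Q
  have := Fintype.ofFinite (𝓞 F ⧸ Q.asIdeal)
  let _ : Field (𝓞 F ⧸ Q.asIdeal) := Ideal.Quotient.field Q.asIdeal
  rw [gq_ideal Q.asIdeal (fun y => f (c * y ^ 2))
      (fun x => gsc_psi Q.asIdeal f (Ideal.Quotient.mk _ c * x ^ 2))
      (fun r => by rw [← map_pow, ← map_mul, gsc_mk _ f hadd h1]),
    gq_ideal Q.asIdeal (fun y => f (y ^ 2)) (fun x => gsc_psi Q.asIdeal f (x ^ 2))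
      (fun r => by rw [← map_pow, gsc_mk _ f hadd h1])]
  have hchar : ringChar (𝓞 F ⧸ Q.asIdeal) ≠ 2 := by
    intro h
    have h3 : ((2 : ℕ) : 𝓞 F ⧸ Q.asIdeal) = 0 := by
      rw [← h]
      exact ringChar.Nat.cast_ringChar
    apply h2
    rw [← Ideal.Quotient.eq_zero_iff_mem, map_ofNat]
    exact_mod_cast h3
  refine gsc_nsq hchar (gsc_psi Q.asIdeal f) ?_ ?_ _ ?_
  · intro x y
    obtain ⟨x, rfl⟩ := Ideal.Quotient.mk_surjective x
    obtain ⟨y, rfl⟩ := Ideal.Quotient.mk_surjective y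
    rw [← map_add, gsc_mk _ f hadd h1, gsc_mk _ f hadd h1, gsc_mk _ f hadd h1, hadd]
  · obtain ⟨t, ht⟩ := hne
    refine ⟨Ideal.Quotient.mk _ t, ?_⟩
    rwa [gsc_mk _ f hadd h1]
  · rintro ⟨x, hx⟩
    obtain ⟨r, rfl⟩ := Ideal.Quotient.mk_surjective x
    apply hr
    refine ⟨r, ?_⟩
    rw [← Ideal.Quotient.eq, map_pow, sq]
    exact hx.symm

end

end Pool.Agent.Lib.MP_1a91b9_ntT.S1
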