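import Pool.Agent.Lib.MP_1a91b9_ntT.S1.Defs
import Pool.Agent.Lib.MP_1a91b9_ntT.S1.Qf
import Pool.Agent.Lib.MP_1a91b9_ntT.S1.OneDim
import Pool.Agent.Lib.MP_1a91b9_ntT.S1.GaussScale
import Pool.Agent.Lib.MP_1a91b9_ntT.S1.SqCompare

/-!
# ScaleQ: the local sum at `Q` of `β α`

PROOF. (1) Let `J` be the ideal with `Q J = span{4α} e`: it exists, because `Q ∣ span{α} e`:
otherwise `span{α} e ⊔ Q = ⊤`; `w²` times `Q` is in `span{4α} e ≤ span{α} e`, so
`w² ∈ w² (span{α} e + Q) ⊆ span{α} e`, contradicting `hw.2`. Then `w² ∈ J`: `Q (w²) ≤ Q J`, i.e.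
`Q J ∣ Q span{w²}`, cancel `Q`. `w² ∉ Q J = span{4α} e` since `span{4α} e ≤ span{α} e`.
(2) The same for `βα`: `span{4βα} e = Q (span{β} J)`, `w'² ∈ span{β} J`, `w'² ∉ Q (span{β} J)`.
(3) `β w² ∈ span{β} J` and `β w² ∉ Q span{β} J` (cancel `β`). `one_dim` (file OneDim) gives `c`
with `w'² - c (β w²) ∈ Q (span{β} J) = span{4βα} e`, and `c ∉ Q` (otherwise
`w'² ∈ Q (span{β} J)`).
(4) `gQ m (βα) Q w' = gq Q (fun y => ee (y² w'²/(4mβα)))` and for each `y`: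
`ee (y² w'²/(4mβα)) = ee (c y² w²/(4mα))`, because the difference of the arguments is
`y² (w'² - cβw²)/(4mβα)` and `w'² - cβw² = 4βα e₀`, `e₀ ∈ e`, so it is `y² e₀/m`, trace integral
(`trace_int_of_mem`, TraceInt). So with `f t = ee (t w²/(4mα))`:
`gQ m (βα) Q w' = gq Q (fun y => f (c y²))` and `gQ m α Q w = gq Q (fun y => f (y²))`.
(5) `f` is additive (`ee_add`), trivial on `Q` (`hw.1`: `t w² = 4α e₀`), nontrivial: otherwise
`Tr (t w²/(4mα)) ∈ ℤ` for all `t`, by `trace_int_iff`: `w²/(4α) = e₀ ∈ e`, i.e. `w² = 4α e₀ ∈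
span{4α} e`, contradiction.
(6) `gauss_scale_sq`, `gauss_scale_nsq` (file GaussScale): the factor is `1` or `-1` according to
`∃ r, r² - c ∈ Q`. Let `j`, `k` be the orders of `w` and of `β` divided by 2 (`hev`: the order of
`β ≠ 0` is even: `w ∈ Q^j`, `w ∉ Q^(j+1)`, `β ∈ Q^(2k)`, `β ∉ Q^(2k+1)`; existence: for `x ≠ 0`
there is `n` with `x ∈ Q^n`, `x ∉ Q^(n+1)`; if `n` is odd, `n = 2k+1`, then `OddAt`). The order of
`w²` is `2j`, and `w² ∉ Q J`, so `span{4βα} e = Q span{β} J ≤ Q^(2j+2k+1)`: indeed `w² ∈ J` and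
`w² ∉ QJ`: `J = Q^i J'`, `Q ∤ J'`; `span{w²} = J K`, `Q ∤ K` so `2j = i`, `J ≤ Q^(2j)`. Hence
`w'² - cβw² ∈ Q^(2j+2k+1)` and `sq_compare` (file SqCompare) gives
`IsSqAt Q β ↔ ∃ r, r² - c ∈ Q`. `chi_of_sq`, `chi_of_nsq`.
-/

set_option autoImplicit false

namespace Pool.Agent.Lib.MP_1a91b9_ntT.S1

open NumberField Module IsDedekindDomain

noncomputable section

theorem ScaleQ_le4 {F : Type*} [Field F] (e : Ideal (𝓞 F)) (α : 𝓞 F) :
    Ideal.span {4 * α} * e ≤ Ideal.span {α} * e :=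
  Ideal.mul_mono_left (Ideal.span_singleton_le_span_singleton.2 (Dvd.intro_left 4 rfl))

theorem ScaleQ_le {F : Type*} [Field F] {e : Ideal (𝓞 F)} {α w : 𝓞 F} {q : Ideal (𝓞 F)}
    (hq : q.IsMaximal) (hw : AdmQ e α q w) : Ideal.span {α} * e ≤ q := by
  by_contra hcon
  have htop : Ideal.span {α} * e ⊔ q = ⊤ := hq.1.2 _ (by
    refine lt_of_le_of_ne le_sup_right ?_
    intro he
    exact hcon (le_trans le_sup_left he.ge))
  have h1 : (1 : 𝓞 F) ∈ Ideal.span {α} * e ⊔ q := by rw [htop]; exact Submodule.mem_top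
  obtain ⟨a, ha, b, hb, hab⟩ := Submodule.mem_sup.1 h1
  apply hw.2
  have h2 : w ^ 2 = w ^ 2 * a + b * w ^ 2 := by
    calc w ^ 2 = (a + b) * w ^ 2 := by rw [hab, one_mul]
      _ = w ^ 2 * a + b * w ^ 2 := by ring
  rw [h2]
  exact Ideal.add_mem _ (Ideal.mul_mem_left _ _ ha) (ScaleQ_le4 e α (hw.1 b hb))

theorem ScaleQ_J {F : Type*} [Field F] [NumberField F] {e : Ideal (𝓞 F)} {α w : 𝓞 F}
    {q J : Ideal (𝓞 F)} (hq0 : q ≠ ⊥) (hw : AdmQ e α q w) (hJ : Ideal.span {4 * α} * e = q * J) :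
    w ^ 2 ∈ J ∧ w ^ 2 ∉ q * J := by
  constructor
  · have h1 : q * Ideal.span {w ^ 2} ≤ q * J := by
      rw [← hJ, Ideal.mul_le]
      intro t ht s hs
      obtain ⟨r, rfl⟩ := Ideal.mem_span_singleton'.1 hs
      have h2 : t * (r * w ^ 2) = r * (t * w ^ 2) := by ring
      rw [h2]
      exact Ideal.mul_mem_left _ _ (hw.1 t ht)
    have h2 : J ∣ Ideal.span {w ^ 2} := by
      have h3 := Ideal.dvd_iff_le.2 h1
      exact (mul_dvd_mul_iff_left (show q ≠ 0 from hq0)).1 h3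
    exact Ideal.dvd_iff_le.1 h2 (Ideal.mem_span_singleton_self _)
  · intro h1
    rw [← hJ] at h1
    exact hw.2 (ScaleQ_le4 e α h1)

theorem ScaleQ_ord {F : Type*} [Field F] [NumberField F] (Q : HeightOneSpectrum (𝓞 F))
    {x : 𝓞 F} (hx : x ≠ 0) : ∃ n : ℕ, x ∈ Q.asIdeal ^ n ∧ x ∉ Q.asIdeal ^ (n + 1) := by
  classical
  have h1 : ∃ n : ℕ, x ∉ Q.asIdeal ^ n := by
    by_contra hcon
    have h2 : ∀ n, x ∈ Q.asIdeal ^ n := fun n => by
      by_contra h3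
      exact hcon ⟨n, h3⟩
    have h4 : x ∈ ⨅ i : ℕ, Q.asIdeal ^ i := (Submodule.mem_iInf _).2 h2
    rw [Ideal.iInf_pow_eq_bot_of_isDomain Q.asIdeal Q.isPrime.ne_top] at h4
    exact hx ((Submodule.mem_bot _).1 h4)
  have h2 := Nat.find_spec h1
  rcases Nat.eq_zero_or_pos (Nat.find h1) with h3 | h3
  · rw [h3, pow_zero] at h2
    rw [Ideal.one_eq_top] at h2
    exact absurd Submodule.mem_top h2
  · refine ⟨Nat.find h1 - 1, ?_, ?_⟩
    · by_contra h4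
      have := Nat.find_min' h1 h4
      omega
    · have h4 : Nat.find h1 - 1 + 1 = Nat.find h1 := by omega
      rw [h4]
      exact h2

/-- The local sum at `Q` of `β α` is the symbol of `β` times the local sum of `α`. -/
theorem scale_Q {F : Type*} [Field F] [NumberField F] {m : 𝓞 F} {e : Ideal (𝓞 F)}
    (h : Cod F m e) (Q : HeightOneSpectrum (𝓞 F))
    (h2 : (2 : 𝓞 F) ∉ Q.asIdeal) (α β : 𝓞 F) (hα : α ≠ 0) (hβ : β ≠ 0) (hev : ¬ OddAt Q β)
    (w w' : 𝓞 F) (hw : AdmQ e α Q.asIdeal w) (hw' : AdmQ e (β * α) Q.asIdeal w') :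
    gQ m (β * α) Q.asIdeal w' = (chi Q β : ℂ) * gQ m α Q.asIdeal w := by
  have hq0 : Q.asIdeal ≠ ⊥ := Q.ne_bot
  have hqmax : Q.asIdeal.IsMaximal := Q.isPrime.isMaximal hq0
  have hqp : Prime Q.asIdeal := (Ideal.prime_iff_isPrime hq0).2 Q.isPrime
  -- (1)
  have hle : Ideal.span {4 * α} * e ≤ Q.asIdeal := (ScaleQ_le4 e α).trans (ScaleQ_le hqmax hw)
  obtain ⟨J, hJ⟩ := Ideal.dvd_iff_le.2 hle
  obtain ⟨hwJ, hwJ'⟩ := ScaleQ_J hq0 hw hJ
  -- (2)
  have hJ2 : Ideal.span {4 * (β * α)} * e = Q.asIdeal * (Ideal.span {β} * J) := by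
    have e1 : Ideal.span {4 * (β * α)} = Ideal.span {β} * Ideal.span {4 * α} := by
      rw [Ideal.span_singleton_mul_span_singleton]
      congr 2
      ring
    rw [e1, mul_assoc, hJ]
    ring
  obtain ⟨hwJ2, hwJ2'⟩ := ScaleQ_J hq0 hw' hJ2
  -- (3)
  have ha : β * w ^ 2 ∈ Ideal.span {β} * J :=
    Ideal.mul_mem_mul (Ideal.mem_span_singleton_self β) hwJ
  have ha2 : β * w ^ 2 ∉ Q.asIdeal * (Ideal.span {β} * J) := by
    intro h1
    have e1 : Q.asIdeal * (Ideal.span {β} * J) = Ideal.span {β} * (Q.asIdeal * J) := by ring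
    rw [e1, Ideal.mem_span_singleton_mul] at h1
    obtain ⟨z, hz, hz2⟩ := h1
    have h3 : z = w ^ 2 := mul_left_cancel₀ hβ hz2
    exact hwJ' (h3 ▸ hz)
  obtain ⟨c, hc⟩ := one_dim Q (Ideal.span {β} * J) (β * w ^ 2) ha ha2 (w' ^ 2) hwJ2
  have hcQ : c ∉ Q.asIdeal := by
    intro h1
    apply hwJ2'
    have h3 : w' ^ 2 = (w' ^ 2 - c * (β * w ^ 2)) + c * (β * w ^ 2) := by ring
    rw [h3]
    exact Ideal.add_mem _ hc (Ideal.mul_mem_mul h1 ha)
  obtain ⟨e0, he0, he0'⟩ := Ideal.mem_span_singleton_mul.1 (by rw [hJ2]; exact hc :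
    w' ^ 2 - c * (β * w ^ 2) ∈ Ideal.span {4 * (β * α)} * e)
  -- coercions
  have hmF : ((m : 𝓞 F) : F) ≠ 0 := by
    intro h1
    exact h.ne (by exact_mod_cast h1)
  have hαF : ((α : 𝓞 F) : F) ≠ 0 := by
    intro h1
    exact hα (by exact_mod_cast h1)
  have hβF : ((β : 𝓞 F) : F) ≠ 0 := by
    intro h1
    exact hβ (by exact_mod_cast h1)
  have h4F : (4 : F) ≠ 0 := by norm_num
  -- (4)
  let f : 𝓞 F → ℂ := fun t => ee ((t : F) * (w : F) ^ 2 / (4 * m * α))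
  have hf1 : gQ m (β * α) Q.asIdeal w' = gq Q.asIdeal.toAddSubgroup (fun y => f (c * y ^ 2)) := by
    unfold gQ
    congr 1
    funext y
    show qf m (β * α) (y * w') = ee (((c * y ^ 2 : 𝓞 F) : F) * (w : F) ^ 2 / (4 * m * α))
    unfold qf
    refine ee_congr ?_
    refine trace_int_of_mem h (y := y ^ 2 * e0) (Ideal.mul_mem_left _ _ he0) ?_
    have e1 : ((w' : 𝓞 F) : F) ^ 2 = (c : F) * ((β : F) * (w : F) ^ 2) + 4 * ((β : F) * α) * e0 := by
      have e2 := congrArg (fun x : 𝓞 F => (x : F)) he0'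
      simp only [map_mul, map_pow, map_add, map_sub, map_ofNat] at e2
      linear_combination -e2
    simp only [map_mul, map_pow, map_add, map_sub, map_ofNat]
    rw [mul_pow, e1]
    field_simp
    ring
  have hf2 : gQ m α Q.asIdeal w = gq Q.asIdeal.toAddSubgroup (fun y => f (y ^ 2)) := by
    unfold gQ
    congr 1
    funext y
    show qf m α (y * w) = ee (((y ^ 2 : 𝓞 F) : F) * (w : F) ^ 2 / (4 * m * α))
    unfold qf
    simp only [map_mul, map_pow, map_add, map_sub, map_ofNat]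
    rw [mul_pow]
  -- (5)
  have hadd : ∀ x y, f (x + y) = f x * f y := by
    intro x y
    show ee (((x + y : 𝓞 F) : F) * (w : F) ^ 2 / (4 * m * α)) = _
    rw [← ee_add]
    congr 1
    simp only [map_mul, map_pow, map_add, map_sub, map_ofNat]
    ring
  have h1 : ∀ t ∈ Q.asIdeal, f t = 1 := by
    intro t ht
    obtain ⟨e1, he1, he1'⟩ := Ideal.mem_span_singleton_mul.1 (hw.1 t ht)
    show ee ((t : F) * (w : F) ^ 2 / (4 * m * α)) = 1
    rw [ee_eq_one_iff]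
    refine trace_int_of_mem h (y := e1) he1 ?_
    have e2 := congrArg (fun x : 𝓞 F => (x : F)) he1'
    simp only [map_mul, map_pow, map_add, map_sub, map_ofNat] at e2
    rw [← e2]
    field_simp
  have hne : ∃ t, f t ≠ 1 := by
    by_contra hcon
    have hall : ∀ t, f t = 1 := fun t => by
      by_contra h3
      exact hcon ⟨t, h3⟩
    have h3 : ∀ t : 𝓞 F, IsZ (Algebra.trace ℚ F ((w : F) ^ 2 / (4 * m * α) * t)) := by
      intro t
      have h4 : ee ((t : F) * (w : F) ^ 2 / (4 * m * α)) = 1 := hall t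
      rw [ee_eq_one_iff] at h4
      have h5 : (w : F) ^ 2 / (4 * m * α) * t = (t : F) * (w : F) ^ 2 / (4 * m * α) := by ring
      rw [h5]
      exact h4
    obtain ⟨y, hy, hy2⟩ := (trace_int_iff h _).1 h3
    apply hwJ'
    rw [← hJ, Ideal.mem_span_singleton_mul]
    refine ⟨y, hy, ?_⟩
    have h6 : ((4 * α * y : 𝓞 F) : F) = ((w ^ 2 : 𝓞 F) : F) := by
      simp only [map_mul, map_pow, map_add, map_sub, map_ofNat]
      have hy3 : (algebraMap (𝓞 F) F) y = (algebraMap (𝓞 F) F) m *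
          ((algebraMap (𝓞 F) F) w ^ 2 / (4 * (algebraMap (𝓞 F) F) m * (algebraMap (𝓞 F) F) α)) := hy2
      rw [hy3]
      field_simp
    exact_mod_cast h6
  -- (6)
  have hw0 : w ≠ 0 := by
    rintro rfl
    apply hw.2
    rw [zero_pow (by norm_num)]
    exact Submodule.zero_mem _
  obtain ⟨j, hj1, hj2⟩ := ScaleQ_ord Q hw0
  obtain ⟨n, hn1, hn2⟩ := ScaleQ_ord Q hβ
  obtain ⟨k, rfl⟩ : ∃ k, n = 2 * k := by
    rcases Nat.even_or_odd n with h3 | h3
    · obtain ⟨k, hk⟩ := h3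
      exact ⟨k, by omega⟩
    · obtain ⟨k, rfl⟩ := h3
      exact absurd ⟨k, hn1, hn2⟩ hev
  have hJle : J ≤ Q.asIdeal ^ (2 * j) := by
    obtain ⟨K, hK⟩ := Ideal.dvd_iff_le.2 ((Ideal.span_singleton_le_iff_mem J).2 hwJ)
    have hQK : ¬ Q.asIdeal ∣ K := by
      intro h3
      apply hwJ'
      have h4 : Ideal.span {w ^ 2} ≤ Q.asIdeal * J := by
        rw [hK, mul_comm J K]
        exact Ideal.mul_mono_left (Ideal.dvd_iff_le.1 h3)
      exact h4 (Ideal.mem_span_singleton_self _)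
    have h3 : Q.asIdeal ^ (2 * j) ∣ J * K := by
      rw [← hK, Ideal.dvd_iff_le, Ideal.span_singleton_le_iff_mem, mul_comm 2 j, pow_mul]
      exact Ideal.pow_mem_pow hj1 2
    exact Ideal.dvd_iff_le.1 (hqp.pow_dvd_of_dvd_mul_right _ hQK h3)
  have hcong : w' ^ 2 - c * β * w ^ 2 ∈ Q.asIdeal ^ (2 * j + 2 * k + 1) := by
    have h3 : Q.asIdeal * (Ideal.span {β} * J) ≤ Q.asIdeal ^ (2 * j + 2 * k + 1) := by
      have h4 : Q.asIdeal ^ (2 * j + 2 * k + 1) =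
          Q.asIdeal * (Q.asIdeal ^ (2 * k) * Q.asIdeal ^ (2 * j)) := by ring
      rw [h4]
      exact Ideal.mul_mono_right
        (Ideal.mul_mono ((Ideal.span_singleton_le_iff_mem _).2 hn1) hJle)
    have h5 : w' ^ 2 - c * β * w ^ 2 = w' ^ 2 - c * (β * w ^ 2) := by ring
    rw [h5]
    exact h3 hc
  have hiff := sq_compare Q w w' β c j k hj1 hj2 hn1 hn2 hcQ hcong
  rw [hf1, hf2]
  by_cases hsq : IsSqAt Q β
  · rw [gauss_scale_sq Q f hadd h1 c hcQ (hiff.1 hsq), chi_of_sq Q β hev hsq, Int.cast_one, one_mul]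
  · rw [gauss_scale_nsq Q h2 f hadd h1 hne c hcQ (fun h3 => hsq (hiff.2 h3)),
      chi_of_nsq Q β hev hsq, Int.cast_neg, Int.cast_one, neg_one_mul]

end

end Pool.Agent.Lib.MP_1a91b9_ntT.S1
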