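import Pool.Agent.Lib.MP_1a91b9_ntT.S1.Data
import Pool.Agent.Lib.MP_1a91b9_ntT.S1.ExistsCod
import Pool.Agent.Lib.MP_1a91b9_ntT.S1.ScaleQ
import Pool.Agent.Lib.MP_1a91b9_ntT.S1.IndepTwo

/-!
# Quadratic reciprocity in a totally complex number field
-/

set_option autoImplicit false

namespace Pool.Agent.Lib.MP_1a91b9_ntT.S1

open NumberField Module IsDedekindDomain

noncomputable section

variable {F : Type*} [Field F] [NumberField F]

/-- The local factor of the Gauss sum of `α`. -/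
def gam (m α : 𝓞 F) (s : Finset (HeightOneSpectrum (𝓞 F))) (w : HeightOneSpectrum (𝓞 F) → 𝓞 F)
    (Q : HeightOneSpectrum (𝓞 F)) : ℂ := by
  classical exact if Q ∈ s then gQ m α Q.asIdeal (w Q) else 1

theorem gam_pos {m α : 𝓞 F} {s : Finset (HeightOneSpectrum (𝓞 F))}
    {w : HeightOneSpectrum (𝓞 F) → 𝓞 F} {Q : HeightOneSpectrum (𝓞 F)} (hQ : Q ∈ s) :
    gam m α s w Q = gQ m α Q.asIdeal (w Q) := by
  classical
  unfold gam
  rw [if_pos hQ]

theorem gam_neg {m α : 𝓞 F} {s : Finset (HeightOneSpectrum (𝓞 F))}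
    {w : HeightOneSpectrum (𝓞 F) → 𝓞 F} {Q : HeightOneSpectrum (𝓞 F)} (hQ : Q ∉ s) :
    gam m α s w Q = 1 := by
  classical
  unfold gam
  rw [if_neg hQ]

theorem prod_gam {m α : 𝓞 F} {s S : Finset (HeightOneSpectrum (𝓞 F))}
    {w : HeightOneSpectrum (𝓞 F) → 𝓞 F} (hs : s ⊆ S) :
    ∏ Q ∈ S, gam m α s w Q = ∏ Q ∈ s, gQ m α Q.asIdeal (w Q) := by
  classical
  rw [← Finset.prod_subset hs (fun Q _ hQ => gam_neg hQ)]
  exact Finset.prod_congr rfl (fun Q hQ => gam_pos hQ)

/-- Comparison of the local factors of `α` and of `β α` for `β` of even order. -/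
theorem even_factor {m : 𝓞 F} {e : Ideal (𝓞 F)} (h : Cod F m e) (Q : HeightOneSpectrum (𝓞 F))
    (α β α' : 𝓞 F) (hα : α ≠ 0) (hβ : β ≠ 0) (hα' : α' = β * α) (hev : ¬ OddAt Q β)
    (s s' : Finset (HeightOneSpectrum (𝓞 F))) (w w' : HeightOneSpectrum (𝓞 F) → 𝓞 F)
    (hs : Q ∈ s ↔ Odd (od Q.asIdeal (Ideal.span {α} * e)))
    (hs' : Q ∈ s' ↔ Odd (od Q.asIdeal (Ideal.span {α'} * e)))
    (h2 : Q ∈ s → (2 : 𝓞 F) ∉ Q.asIdeal)
    (hw : Q ∈ s → AdmQ e α Q.asIdeal (w Q)) (hw' : Q ∈ s' → AdmQ e α' Q.asIdeal (w' Q)) :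
    (Q ∈ s' ↔ Q ∈ s) ∧ (Q ∈ s → gam m α' s' w' Q = (chi Q β : ℂ) * gam m α s w Q) ∧
      (Q ∉ s → gam m α' s' w' Q = gam m α s w Q) := by
  have hspan : ∀ x : 𝓞 F, x ≠ 0 → Ideal.span {x} ≠ ⊥ := by
    intro x hx
    rw [Ne, Ideal.span_singleton_eq_bot]
    exact hx
  have hod : od Q.asIdeal (Ideal.span {α'} * e)
      = od Q.asIdeal (Ideal.span {β}) + od Q.asIdeal (Ideal.span {α} * e) := by
    rw [hα', ← Ideal.span_singleton_mul_span_singleton, mul_assoc]
    apply od_mul _ _ _ (hspan β hβ)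
    exact mul_ne_zero (hspan α hα) h.e_ne
  have hpar : ¬ Odd (od Q.asIdeal (Ideal.span {β})) := fun h3 => hev ((oddAt_iff Q β hβ).2 h3)
  have hiff : Q ∈ s' ↔ Q ∈ s := by
    rw [hs, hs', hod, Nat.odd_add]
    rw [Nat.not_odd_iff_even] at hpar
    constructor
    · intro h4
      by_contra h5
      rw [Nat.not_odd_iff_even] at h5
      exact absurd (h4.2 h5) (Nat.not_odd_iff_even.2 hpar)
    · intro h4
      constructor
      · intro h5; exact absurd hpar (Nat.not_even_iff_odd.2 h5)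
      · intro h5; exact absurd h5 (Nat.not_even_iff_odd.2 h4)
  refine ⟨hiff, ?_, ?_⟩
  · intro hQ
    rw [gam_pos hQ, gam_pos (hiff.2 hQ)]
    subst hα'
    exact scale_Q h Q (h2 hQ) α β hα hβ hev (w Q) (w' Q) (hw hQ) (hw' (hiff.2 hQ))
  · intro hQ
    rw [gam_neg hQ, gam_neg (fun h3 => hQ (hiff.1 h3))]

/-- The factor of the reciprocity law at `Q`. -/
def eps (d z : 𝓞 F) (Q : HeightOneSpectrum (𝓞 F)) : ℤ := by
  classical exact if OddAt Q d then chi Q z else chi Q d ^ od Q.asIdeal (Ideal.span {z})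

theorem eps_odd {d z : 𝓞 F} {Q : HeightOneSpectrum (𝓞 F)} (h : OddAt Q d) :
    eps d z Q = chi Q z := by
  classical
  unfold eps
  rw [if_pos h]

theorem eps_even {d z : 𝓞 F} {Q : HeightOneSpectrum (𝓞 F)} (h : ¬ OddAt Q d) :
    eps d z Q = chi Q d ^ od Q.asIdeal (Ideal.span {z}) := by
  classical
  unfold eps
  rw [if_neg h]

theorem not_oddAt_of_not_mem {z : 𝓞 F} {Q : HeightOneSpectrum (𝓞 F)} (h : z ∉ Q.asIdeal) :
    ¬ OddAt Q z := by
  rintro ⟨k, hk, -⟩
  apply h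
  exact Ideal.pow_le_self (by omega) hk

theorem eps_sq {d z : 𝓞 F} {Q : HeightOneSpectrum (𝓞 F)} (hcop : OddAt Q d → z ∉ Q.asIdeal) :
    eps d z Q = 1 ∨ eps d z Q = -1 := by
  by_cases h : OddAt Q d
  · rw [eps_odd h]
    exact chi_of_not_odd Q z (not_oddAt_of_not_mem (hcop h))
  · rw [eps_even h]
    rcases chi_of_not_odd Q d h with h1 | h1
    · left; rw [h1, one_pow]
    · rw [h1]
      exact neg_one_pow_eq_or ℤ _

/-- The product of all local factors is `1`. -/
theorem main_prod [IsTotallyComplex F] (d z a b : 𝓞 F) (hd : d = a ^ 2 + 4 * b)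
    (hd2 : IsCoprime d 2) (hz2 : IsCoprime z 2)
    (hcop : ∀ Q : HeightOneSpectrum (𝓞 F), OddAt Q d → z ∉ Q.asIdeal) :
    ∃ S₀ : Finset (HeightOneSpectrum (𝓞 F)), ∀ S, S₀ ⊆ S → ∏ Q ∈ S, eps d z Q = 1 := by
  classical
  have hunit2 : ¬ IsUnit (2 : 𝓞 F) := by
    intro hu
    have h1 : IsUnit (Algebra.norm ℤ (2 : 𝓞 F)) := hu.map _
    have h3 : (2 : 𝓞 F) = algebraMap ℤ (𝓞 F) 2 := by simp
    rw [h3, Algebra.norm_algebraMap] at h1
    rw [isUnit_pow_iff (Nat.pos_iff_ne_zero.1 finrank_pos)] at h1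
    exact absurd h1 (by decide)
  have hd0 : d ≠ 0 := by
    rintro h0
    rw [h0, isCoprime_zero_left] at hd2
    exact hunit2 hd2
  have hz0 : z ≠ 0 := by
    rintro h0
    rw [h0, isCoprime_zero_left] at hz2
    exact hunit2 hz2
  obtain ⟨m, e, h⟩ := exists_cod F
  obtain ⟨s1, v1, w1, r1, hr1, hs1, ho1, ha1, hq1, hg1⟩ :=
    data h (1 : 𝓞 F) one_ne_zero isCoprime_one_left
  obtain ⟨sd, vd, wd, rd, hrd, hsd, hod, had, hqd, hgd⟩ := data h d hd0 hd2
  obtain ⟨sz, vz, wz, rz, hrz, hsz, hoz, haz, hqz, hgz⟩ := data h z hz0 hz2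
  obtain ⟨sx, vx, wx, rx, hrx, hsx, hox, hax, hqx, hgx⟩ :=
    data h (d * z) (mul_ne_zero hd0 hz0) (IsCoprime.mul_left hd2 hz2)
  refine ⟨s1 ∪ sd ∪ sz ∪ sx, fun S hS => ?_⟩
  have hS1 : s1 ⊆ S := fun Q hQ => hS (by simp [hQ])
  have hSd : sd ⊆ S := fun Q hQ => hS (by simp [hQ])
  have hSz : sz ⊆ S := fun Q hQ => hS (by simp [hQ])
  have hSx : sx ⊆ S := fun Q hQ => hS (by simp [hQ])
  -- the sums at `2`
  have hT1 : T2 m d vd = T2 m 1 v1 := by
    have := scale_two h 1 d a b one_ne_zero hd hd2 v1 vd ha1 (by rw [mul_one]; exact had)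
    rwa [mul_one] at this
  have hT2 : T2 m (d * z) vx = T2 m z vz := scale_two h z d a b hz0 hd hd2 vz vx haz hax
  -- the local identity
  have hloc : ∀ Q, gam m 1 s1 w1 Q * gam m (d * z) sx wx Q
      = (eps d z Q : ℂ) * (gam m d sd wd Q * gam m z sz wz Q) := by
    intro Q
    by_cases hQ : OddAt Q d
    · -- `Q` divides `d` to an odd power
      have hzQ := hcop Q hQ
      have hev : ¬ OddAt Q z := not_oddAt_of_not_mem hzQ
      obtain ⟨i1, p1, n1⟩ := even_factor h Q 1 z z one_ne_zero hz0 (mul_one z).symm hev s1 sz w1 wz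
        (hs1 Q) (hsz Q) (ho1 Q) (hq1 Q) (hqz Q)
      obtain ⟨i2, p2, n2⟩ := even_factor h Q d z (d * z) hd0 hz0 (mul_comm d z) hev sd sx wd wx
        (hsd Q) (hsx Q) (hod Q) (hqd Q) (hqx Q)
      rw [eps_odd hQ]
      have hc : ((chi Q z : ℤ) : ℂ) * ((chi Q z : ℤ) : ℂ) = 1 := by
        rcases chi_of_not_odd Q z hev with h1 | h1 <;> rw [h1] <;> norm_num
      -- exactly one of `s1`, `sd` contains `Q`
      have hx : Q ∈ sd ↔ Q ∉ s1 := by
        have e1 : od Q.asIdeal (Ideal.span {d} * e)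
            = od Q.asIdeal (Ideal.span {d}) + od Q.asIdeal (Ideal.span {(1 : 𝓞 F)} * e) := by
          have e2 : Ideal.span {d} * e = Ideal.span {d} * (Ideal.span {(1 : 𝓞 F)} * e) := by
            rw [Ideal.span_singleton_one, Ideal.top_mul]
          rw [e2]
          apply od_mul
          · rw [Ne, Ideal.span_singleton_eq_bot]; exact hd0
          · rw [Ideal.span_singleton_one, Ideal.top_mul]; exact h.e_ne
        rw [hsd, hs1, e1, Nat.odd_add]
        have h5 : Odd (od Q.asIdeal (Ideal.span {d})) := (oddAt_iff Q d hd0).1 hQ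
        rw [Nat.not_odd_iff_even]
        constructor
        · intro h6; exact h6.1 h5
        · intro h6; exact ⟨fun _ => h6, fun _ => h5⟩
      by_cases hQ1 : Q ∈ s1
      · have hQd : Q ∉ sd := fun h6 => hx.1 h6 hQ1
        rw [p1 hQ1, n2 hQd]
        calc gam m 1 s1 w1 Q * gam m d sd wd Q
            = (((chi Q z : ℤ) : ℂ) * ((chi Q z : ℤ) : ℂ)) * (gam m 1 s1 w1 Q * gam m d sd wd Q) := by
              rw [hc, one_mul]
          _ = _ := by ring
      · have hQd : Q ∈ sd := hx.2 hQ1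
        rw [n1 hQ1, p2 hQd]
        ring
    · obtain ⟨i1, p1, n1⟩ := even_factor h Q 1 d d one_ne_zero hd0 (mul_one d).symm hQ s1 sd w1 wd
        (hs1 Q) (hsd Q) (ho1 Q) (hq1 Q) (hqd Q)
      obtain ⟨i2, p2, n2⟩ := even_factor h Q z d (d * z) hz0 hd0 rfl hQ sz sx wz wx
        (hsz Q) (hsx Q) (hoz Q) (hqz Q) (hqx Q)
      rw [eps_even hQ]
      have hc : ((chi Q d : ℤ) : ℂ) = 1 ∨ ((chi Q d : ℤ) : ℂ) = -1 := by
        rcases chi_of_not_odd Q d hQ with h1 | h1
        · left; rw [h1]; norm_num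
        · right; rw [h1]; norm_num
      have e1 : od Q.asIdeal (Ideal.span {z} * e)
          = od Q.asIdeal (Ideal.span {z}) + od Q.asIdeal (Ideal.span {(1 : 𝓞 F)} * e) := by
        have e2 : Ideal.span {z} * e = Ideal.span {z} * (Ideal.span {(1 : 𝓞 F)} * e) := by
          rw [Ideal.span_singleton_one, Ideal.top_mul]
        rw [e2]
        apply od_mul
        · rw [Ne, Ideal.span_singleton_eq_bot]; exact hz0
        · rw [Ideal.span_singleton_one, Ideal.top_mul]; exact h.e_ne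
      have hpar := hsz Q
      rw [e1, Nat.odd_add] at hpar
      have hs1' := hs1 Q
      push_cast
      by_cases hQ1 : Q ∈ s1
      · have ho : Odd (od Q.asIdeal (Ideal.span {(1 : 𝓞 F)} * e)) := hs1'.1 hQ1
        by_cases hQz : Q ∈ sz
        · -- even exponent of `z`
          have hev : Even (od Q.asIdeal (Ideal.span {z})) := by
            by_contra h6
            rw [Nat.not_even_iff_odd] at h6
            exact absurd ((hpar.1 hQz).1 h6) (Nat.not_even_iff_odd.2 ho)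
          have h7 : ((chi Q d : ℤ) : ℂ) ^ od Q.asIdeal (Ideal.span {z}) = 1 := by
            obtain ⟨k, hk⟩ := hev
            rw [hk, ← two_mul, pow_mul]
            rcases hc with h1 | h1 <;> rw [h1] <;> norm_num
          rw [h7, p1 hQ1, p2 hQz]
          ring
        · have hoz' : Odd (od Q.asIdeal (Ideal.span {z})) := by
            by_contra h6
            apply hQz
            rw [hpar]
            exact ⟨fun h8 => absurd h8 h6, fun h8 => absurd h8 (Nat.not_even_iff_odd.2 ho)⟩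
          have h7 : ((chi Q d : ℤ) : ℂ) ^ od Q.asIdeal (Ideal.span {z}) = ((chi Q d : ℤ) : ℂ) := by
            obtain ⟨k, hk⟩ := hoz'
            rw [hk, pow_add, pow_mul]
            rcases hc with h1 | h1 <;> rw [h1] <;> norm_num
          have h8 : ((chi Q d : ℤ) : ℂ) * ((chi Q d : ℤ) : ℂ) = 1 := by
            rcases hc with h1 | h1 <;> rw [h1] <;> norm_num
          rw [h7, p1 hQ1, n2 hQz]
          calc gam m 1 s1 w1 Q * gam m z sz wz Q
              = (((chi Q d : ℤ) : ℂ) * ((chi Q d : ℤ) : ℂ)) *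
                (gam m 1 s1 w1 Q * gam m z sz wz Q) := by rw [h8, one_mul]
            _ = _ := by ring
      · have ho : Even (od Q.asIdeal (Ideal.span {(1 : 𝓞 F)} * e)) := by
          by_contra h6
          rw [Nat.not_even_iff_odd] at h6
          exact hQ1 (hs1'.2 h6)
        by_cases hQz : Q ∈ sz
        · have hoz' : Odd (od Q.asIdeal (Ideal.span {z})) := (hpar.1 hQz).2 ho
          have h7 : ((chi Q d : ℤ) : ℂ) ^ od Q.asIdeal (Ideal.span {z}) = ((chi Q d : ℤ) : ℂ) := by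
            obtain ⟨k, hk⟩ := hoz'
            rw [hk, pow_add, pow_mul]
            rcases hc with h1 | h1 <;> rw [h1] <;> norm_num
          rw [h7, n1 hQ1, p2 hQz]
          ring
        · have hev : Even (od Q.asIdeal (Ideal.span {z})) := by
            by_contra h6
            rw [Nat.not_even_iff_odd] at h6
            apply hQz
            rw [hpar]
            exact ⟨fun _ => ho, fun _ => h6⟩
          have h7 : ((chi Q d : ℤ) : ℂ) ^ od Q.asIdeal (Ideal.span {z}) = 1 := by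
            obtain ⟨k, hk⟩ := hev
            rw [hk, ← two_mul, pow_mul]
            rcases hc with h1 | h1 <;> rw [h1] <;> norm_num
          rw [h7, n1 hQ1, n2 hQz]
          ring
  -- the global identity
  have hprod : (∏ Q ∈ S, gam m 1 s1 w1 Q) * (∏ Q ∈ S, gam m (d * z) sx wx Q)
      = ((∏ Q ∈ S, eps d z Q : ℤ) : ℂ) *
        ((∏ Q ∈ S, gam m d sd wd Q) * (∏ Q ∈ S, gam m z sz wz Q)) := by
    rw [← Finset.prod_mul_distrib, ← Finset.prod_mul_distrib]
    push_cast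
    rw [← Finset.prod_mul_distrib]
    exact Finset.prod_congr rfl (fun Q _ => hloc Q)
  rw [prod_gam hS1, prod_gam hSx, prod_gam hSd, prod_gam hSz] at hprod
  have hreal : ((r1 * rx : ℝ) : ℂ) = ((∏ Q ∈ S, eps d z Q : ℤ) : ℂ) * ((rd * rz : ℝ) : ℂ) := by
    push_cast
    rw [← hg1, ← hgx, ← hgd, ← hgz, hT1, hT2]
    have := congrArg (fun t => (T2 m 1 v1 * T2 m z vz) * t) hprod
    push_cast at this
    linear_combination this
  have hreal2 : r1 * rx = ((∏ Q ∈ S, eps d z Q : ℤ) : ℝ) * (rd * rz) := by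
    exact_mod_cast hreal
  have hpm : (∏ Q ∈ S, eps d z Q) = 1 ∨ (∏ Q ∈ S, eps d z Q) = -1 := by
    apply Finset.prod_induction (fun Q => eps d z Q) (fun n : ℤ => n = 1 ∨ n = -1)
    · rintro x y (hx | hx) (hy | hy) <;> rw [hx, hy] <;> norm_num
    · left; rfl
    · intro Q _
      exact eps_sq (hcop Q)
  rcases hpm with h1 | h1
  · exact h1
  · exfalso
    rw [h1] at hreal2
    have h3 : 0 < r1 * rx := mul_pos hr1 hrx
    have h4 : 0 < rd * rz := mul_pos hrd hrz
    push_cast at hreal2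
    linarith

end

end Pool.Agent.Lib.MP_1a91b9_ntT.S1
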