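import Pool.Agent.Lib.MP_1a91b9_ntT.S4.IdealMul
import Pool.Agent.Lib.MP_1a91b9_ntT.S1.Final
import Pool.Agent.Lib.MP_1a91b9_ntT.S1.Bridge

/-!
# The interface of the reciprocity law
-/

set_option autoImplicit false

namespace Pool.Agent.Lib.MP_1a91b9_ntT.S1

open NumberField Module IsDedekindDomain UniqueFactorizationMonoid

noncomputable section

variable {F : Type*} [Field F] [NumberField F]

/-- The function `chiI` as a product over a finite set of places. -/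
theorem chiI_eq_prod (χ : HeightOneSpectrum (𝓞 F) → ℤ) (I : Ideal (𝓞 F)) (hI : I ≠ 0)
    (S : Finset (HeightOneSpectrum (𝓞 F)))
    (hS : ∀ Q : HeightOneSpectrum (𝓞 F), I ≤ Q.asIdeal → Q ∈ S) :
    chiI χ I = ∏ Q ∈ S, χ Q ^ od Q.asIdeal I := by
  classical
  rw [chiI, if_neg hI]
  rw [Finset.prod_multiset_map_count]
  have himg : ∏ Q ∈ S, χ Q ^ od Q.asIdeal I
      = ∏ P ∈ S.image (fun Q => Q.asIdeal), atIdeal χ P ^ od P I := by
    rw [Finset.prod_image]
    · apply Finset.prod_congr rfl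
      intro Q _
      rw [atIdeal_place]
    · intro Q _ Q' _ h
      exact HeightOneSpectrum.ext h
  rw [himg]
  have hsub : (normalizedFactors I).toFinset ⊆ S.image (fun Q => Q.asIdeal) := by
    intro P hP
    rw [Multiset.mem_toFinset] at hP
    have hprime := prime_of_normalized_factor P hP
    have hdvd := dvd_of_mem_normalizedFactors hP
    have hp : P.IsPrime := Ideal.isPrime_of_prime hprime
    rw [Finset.mem_image]
    exact ⟨⟨P, hp, hprime.ne_zero⟩, hS _ (Ideal.le_of_dvd hdvd), rfl⟩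
  rw [← Finset.prod_subset hsub]
  · rfl
  · intro P _ hP
    rw [Multiset.mem_toFinset] at hP
    have : od P I = 0 := by
      unfold od
      convert Multiset.count_eq_zero.2 hP
    rw [this, pow_zero]

theorem isChi_eq {d : 𝓞 F} (hd : d ≠ 0) {χ : HeightOneSpectrum (𝓞 F) → ℤ} (h : IsChi d χ)
    (Q : HeightOneSpectrum (𝓞 F)) (h2 : (2 : 𝓞 F) ∉ Q.asIdeal) : χ Q = chi Q d := by
  by_cases hQ : OddAt Q d
  · rw [h.odd Q h2 hQ, chi_of_odd Q d hQ]
  · obtain ⟨α, d', hα, hd', hdQ, hiff⟩ := bridge Q d hd hQ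
    by_cases hs : IsSqAt Q d
    · rw [chi_of_sq Q d hQ hs]
      exact h.sq Q h2 α d' hα hd' hdQ (hiff.1 hs)
    · rw [chi_of_nsq Q d hQ hs]
      exact h.nsq Q h2 α d' hα hd' hdQ (fun h3 => hs (hiff.2 h3))

theorem not_two_mem_of_coprime {z : 𝓞 F} (hz : IsCoprime z 2) (Q : HeightOneSpectrum (𝓞 F))
    (hzQ : z ∈ Q.asIdeal) : (2 : 𝓞 F) ∉ Q.asIdeal := by
  intro h2
  obtain ⟨u, v, huv⟩ := hz
  apply Q.isPrime.ne_top
  rw [Ideal.eq_top_iff_one, ← huv]
  exact Ideal.add_mem _ (Ideal.mul_mem_left _ _ hzQ) (Ideal.mul_mem_left _ _ h2)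

theorem not_isUnit_two : ¬ IsUnit (2 : 𝓞 F) := by
  intro hu
  have h1 : IsUnit (Algebra.norm ℤ (2 : 𝓞 F)) := hu.map _
  have h3 : (2 : 𝓞 F) = algebraMap ℤ (𝓞 F) 2 := by simp
  rw [h3, Algebra.norm_algebraMap] at h1
  rw [isUnit_pow_iff (Nat.pos_iff_ne_zero.1 finrank_pos)] at h1
  exact absurd h1 (by decide)

theorem ne_zero_of_coprime_two {z : 𝓞 F} (hz : IsCoprime z 2) : z ≠ 0 := by
  rintro rfl
  rw [isCoprime_zero_left] at hz
  exact not_isUnit_two hz

/-- The symbol at `Q` of elements prime to `Q` depends only on the class modulo `Q`. -/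
theorem chi_congr {Q : HeightOneSpectrum (𝓞 F)} {z z' : 𝓞 F} (hz : z ∉ Q.asIdeal)
    (h : z - z' ∈ Q.asIdeal) : chi Q z = chi Q z' := by
  have hz' : z' ∉ Q.asIdeal := by
    intro h1
    apply hz
    have := Ideal.add_mem _ h h1
    rwa [sub_add_cancel] at this
  have key : ∀ x y : 𝓞 F, x ∉ Q.asIdeal → x - y ∈ Q.asIdeal → IsSqAt Q x → y ∉ Q.asIdeal →
      IsSqAt Q y := by
    rintro x y hx hxy ⟨r, k, hk1, hk2, hk3⟩ hy
    have hk : k = 0 := by
      by_contra hk0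
      apply hx
      exact Ideal.pow_le_self (by omega) hk1
    subst hk
    refine ⟨r, 0, by simp, by simpa using hy, ?_⟩
    have e1 : r ^ 2 - y = (r ^ 2 - x) + (x - y) := by ring
    rw [e1]
    apply Ideal.add_mem _ hk3
    simpa using hxy
  have h' : z' - z ∈ Q.asIdeal := by
    rw [← neg_sub]
    exact (Ideal.neg_mem_iff _).2 h
  by_cases hs : IsSqAt Q z
  · rw [chi_of_sq Q z (not_oddAt_of_not_mem hz) hs,
      chi_of_sq Q z' (not_oddAt_of_not_mem hz') (key z z' hz h hs hz')]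
  · rw [chi_of_nsq Q z (not_oddAt_of_not_mem hz) hs,
      chi_of_nsq Q z' (not_oddAt_of_not_mem hz') (fun h3 => hs (key z' z hz' h' h3 hz))]

/-- The set of places which divide a nonzero element is finite. -/
theorem exists_places (z : 𝓞 F) (hz : z ≠ 0) : ∃ S : Finset (HeightOneSpectrum (𝓞 F)),
    ∀ Q : HeightOneSpectrum (𝓞 F), z ∈ Q.asIdeal → Q ∈ S := by
  classical
  have hI : Ideal.span {z} ≠ 0 := by
    rw [Ideal.zero_eq_bot, Ne, Ideal.span_singleton_eq_bot]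
    exact hz
  have hfin := Ideal.finite_factors hI
  refine ⟨hfin.toFinset, fun Q hQ => ?_⟩
  rw [Set.Finite.mem_toFinset]
  change Q.asIdeal ∣ Ideal.span {z}
  rw [Ideal.dvd_span_singleton]
  exact hQ

/-- **Quadratic reciprocity** in a totally complex number field, in the form used for
`L`-functions. -/
theorem reciprocity [IsTotallyComplex F] (d : 𝓞 F) (hd2 : IsCoprime d 2)
    (hd : ∃ a b : 𝓞 F, d = a ^ 2 + 4 * b) (χ : HeightOneSpectrum (𝓞 F) → ℤ) (h : IsChi d χ) :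
    Reciprocity d χ := by
  classical
  obtain ⟨a, b, hab⟩ := hd
  have hd0 : d ≠ 0 := ne_zero_of_coprime_two hd2
  -- the value of `chiI` on an odd element as a product
  have hval : ∀ z : 𝓞 F, IsCoprime z 2 →
      (∀ Q : HeightOneSpectrum (𝓞 F), OddAt Q d → z ∉ Q.asIdeal) →
      ∃ S₀ : Finset (HeightOneSpectrum (𝓞 F)), ∀ S, S₀ ⊆ S →
        (∏ Q ∈ S.filter (fun Q => OddAt Q d), chi Q z) * chiI χ (Ideal.span {z}) = 1 := by
    intro z hz hzd
    have hz0 := ne_zero_of_coprime_two hz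
    obtain ⟨S₁, hS₁⟩ := main_prod d z a b hab hd2 hz hzd
    obtain ⟨S₂, hS₂⟩ := exists_places z hz0
    refine ⟨S₁ ∪ S₂, fun S hS => ?_⟩
    have h1 := hS₁ S (Finset.union_subset_left hS)
    have hI : Ideal.span {z} ≠ 0 := by
      rw [Ideal.zero_eq_bot, Ne, Ideal.span_singleton_eq_bot]
      exact hz0
    have h2 := chiI_eq_prod χ (Ideal.span {z}) hI S (fun Q hQ =>
      hS (Finset.mem_union_right _ (hS₂ Q ((Ideal.span_singleton_le_iff_mem _).1 hQ))))
    rw [h2, Finset.prod_filter, ← Finset.prod_mul_distrib]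
    refine Eq.trans ?_ h1
    apply Finset.prod_congr rfl
    intro Q _
    by_cases hQ : OddAt Q d
    · rw [if_pos hQ, eps_odd hQ, od_eq_zero Q z hz0 (hzd Q hQ), pow_zero, mul_one]
    · rw [if_neg hQ, eps_even hQ, one_mul]
      by_cases hzQ : z ∈ Q.asIdeal
      · rw [isChi_eq hd0 h Q (not_two_mem_of_coprime hz Q hzQ)]
      · rw [od_eq_zero Q z hz0 hzQ, pow_zero, pow_zero]
  intro z z' hz hz' hzz
  have hzd : ∀ Q : HeightOneSpectrum (𝓞 F), OddAt Q d → z ∉ Q.asIdeal := fun Q hQ => (hzz Q hQ).1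
  have hzd' : ∀ Q : HeightOneSpectrum (𝓞 F), OddAt Q d → z' ∉ Q.asIdeal := by
    intro Q hQ h1
    apply hzd Q hQ
    have := Ideal.add_mem _ (hzz Q hQ).2 h1
    rwa [sub_add_cancel] at this
  obtain ⟨S₁, hS₁⟩ := hval z hz hzd
  obtain ⟨S₂, hS₂⟩ := hval z' hz' hzd'
  have h1 := hS₁ (S₁ ∪ S₂) Finset.subset_union_left
  have h2 := hS₂ (S₁ ∪ S₂) Finset.subset_union_right
  have h3 : (∏ Q ∈ (S₁ ∪ S₂).filter (fun Q => OddAt Q d), chi Q z)
      = ∏ Q ∈ (S₁ ∪ S₂).filter (fun Q => OddAt Q d), chi Q z' := by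
    apply Finset.prod_congr rfl
    intro Q hQ
    rw [Finset.mem_filter] at hQ
    exact chi_congr (hzd Q hQ.2) (hzz Q hQ.2).2
  rw [h3, ← h2] at h1
  apply mul_left_cancel₀ _ h1
  intro h4
  rw [h4, zero_mul] at h2
  exact absurd h2 (by norm_num)

/-- The explicit form of the reciprocity law. -/
theorem reciprocity_explicit [IsTotallyComplex F] (d z : 𝓞 F) (hd2 : IsCoprime d 2)
    (hd : ∃ a b : 𝓞 F, d = a ^ 2 + 4 * b) (hz2 : IsCoprime z 2)
    (hcop : ∀ Q : HeightOneSpectrum (𝓞 F), OddAt Q d → z ∉ Q.asIdeal) :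
    ∃ S : Finset (HeightOneSpectrum (𝓞 F)), (∀ Q : HeightOneSpectrum (𝓞 F), OddAt Q d → Q ∈ S) ∧
      (∀ Q : HeightOneSpectrum (𝓞 F), z ∈ Q.asIdeal → Q ∈ S) ∧
      (∏ Q ∈ S, eps d z Q) = 1 := by
  classical
  obtain ⟨a, b, hab⟩ := hd
  obtain ⟨S₁, hS₁⟩ := main_prod d z a b hab hd2 hz2 hcop
  obtain ⟨S₂, hS₂⟩ := exists_places z (ne_zero_of_coprime_two hz2)
  obtain ⟨S₃, hS₃⟩ := exists_places d (ne_zero_of_coprime_two hd2)
  refine ⟨S₁ ∪ S₂ ∪ S₃, ?_, ?_, ?_⟩
  · rintro Q ⟨k, hk, -⟩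
    apply Finset.mem_union_right
    exact hS₃ Q (Ideal.pow_le_self (by omega) hk)
  · intro Q hQ
    apply Finset.mem_union_left
    apply Finset.mem_union_right
    exact hS₂ Q hQ
  · apply hS₁
    intro Q hQ
    exact Finset.mem_union_left _ (Finset.mem_union_left _ hQ)

end

end Pool.Agent.Lib.MP_1a91b9_ntT.S1
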