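import Pool.Agent.Lib.MP_1a91b9_ntT.S1.Defs

/-!
# GsSplit: orthogonal decomposition

PROOF. The map `(M₁/L) × (M₂/L) → M/L`, `([x],[y]) ↦ [x+y]` is a bijection: surjective because
`M₁ ⊔ M₂ = M`, injective because `x + y - x' - y' ∈ L` gives `x - x' ∈ M₁ ∩ (M₂ + L) = M₁ ∩ M₂
= L`. All groups are finite (`L.relIndex M ≠ 0`; `M₁/L` and `M₂/L` inject into `M/L`). Under the
bijection `f ([x+y].out) = f (x.out + y.out) = f x.out * f y.out` (periodicity of `f` under `L`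
on `M`, then `hmul`). So the sum over `M/L` is the product of the two sums
(`Finset.sum_mul_sum`, `Fintype.sum_prod_type`; convert the `finsum`s with
`finsum_eq_sum_of_fintype`).
-/

set_option autoImplicit false

namespace Pool.Agent.Lib.MP_1a91b9_ntT.S1

open NumberField Module IsDedekindDomain

noncomputable section

/-- Orthogonal decomposition. -/
theorem gs_split {V : Type*} [AddCommGroup V] (L M₁ M₂ M : AddSubgroup V) (f : V → ℂ)
    (h1 : L ≤ M₁) (h2 : L ≤ M₂) (hinf : M₁ ⊓ M₂ = L) (hsup : M₁ ⊔ M₂ = M)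
    (hfin : L.relIndex M ≠ 0)
    (hf : ∀ x ∈ M, ∀ l ∈ L, f (x + l) = f x)
    (hmul : ∀ x ∈ M₁, ∀ y ∈ M₂, f (x + y) = f x * f y) :
    gs L M f = gs L M₁ f * gs L M₂ f := by
  have key : ∀ (N : AddSubgroup V) (x y : N),
      (QuotientAddGroup.mk x : N ⧸ (L.addSubgroupOf N)) = QuotientAddGroup.mk y ↔
      (y : V) - (x : V) ∈ L := by
    intro N x y
    rw [QuotientAddGroup.eq, AddSubgroup.mem_addSubgroupOf]
    have e : ((-x + y : N) : V) = (y : V) - (x : V) := by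
      push_cast
      abel
    rw [e]
  have hq : ∀ (N : AddSubgroup V) (c : N ⧸ (L.addSubgroupOf N)), QuotientAddGroup.mk c.out = c :=
    fun N c => QuotientAddGroup.out_eq' c
  have hM1 : M₁ ≤ M := hsup ▸ le_sup_left
  have hM2 : M₂ ≤ M := hsup ▸ le_sup_right
  have f0 : Finite (M ⧸ (L.addSubgroupOf M)) := Nat.finite_of_card_ne_zero hfin
  have f1 : Finite (M₁ ⧸ (L.addSubgroupOf M₁)) := by
    refine Finite.of_injective (β := M ⧸ (L.addSubgroupOf M))
      (fun c => QuotientAddGroup.mk (⟨(c.out : V), hM1 c.out.2⟩ : M)) ?_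
    intro c d hcd
    have h := (key _ _ _).1 hcd
    rw [← hq _ c, ← hq _ d, key]
    exact h
  have f2 : Finite (M₂ ⧸ (L.addSubgroupOf M₂)) := by
    refine Finite.of_injective (β := M ⧸ (L.addSubgroupOf M))
      (fun c => QuotientAddGroup.mk (⟨(c.out : V), hM2 c.out.2⟩ : M)) ?_
    intro c d hcd
    have h := (key _ _ _).1 hcd
    rw [← hq _ c, ← hq _ d, key]
    exact h
  have hprod : gs L M₁ f * gs L M₂ f =
      ∑ᶠ p : (M₁ ⧸ (L.addSubgroupOf M₁)) × (M₂ ⧸ (L.addSubgroupOf M₂)),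
        f (p.1.out : V) * f (p.2.out : V) := by
    cases nonempty_fintype (M₁ ⧸ (L.addSubgroupOf M₁))
    cases nonempty_fintype (M₂ ⧸ (L.addSubgroupOf M₂))
    unfold gs gq
    rw [finsum_eq_sum_of_fintype, finsum_eq_sum_of_fintype, finsum_eq_sum_of_fintype,
      Finset.sum_mul_sum, Fintype.sum_prod_type]
  rw [hprod]
  unfold gs gq
  symm
  refine finsum_eq_of_bijective
    (fun p : (M₁ ⧸ (L.addSubgroupOf M₁)) × (M₂ ⧸ (L.addSubgroupOf M₂)) =>
      (QuotientAddGroup.mk (⟨(p.1.out : V) + (p.2.out : V),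
        M.add_mem (hM1 p.1.out.2) (hM2 p.2.out.2)⟩ : M) : M ⧸ (L.addSubgroupOf M))) ⟨?_, ?_⟩ ?_
  · rintro ⟨c, d⟩ ⟨c', d'⟩ h
    have h3 := (key _ _ _).1 h
    simp only at h3
    have h4 : (c'.out : V) - (c.out : V) ∈ L := by
      have hi : ∀ x, x ∈ M₁ → x ∈ M₂ → x ∈ L := fun x hx hx' => hinf ▸ (⟨hx, hx'⟩ : x ∈ M₁ ⊓ M₂)
      refine hi _ (M₁.sub_mem c'.out.2 c.out.2) ?_
      have e : (c'.out : V) - (c.out : V) =
        ((c'.out : V) + (d'.out : V) - ((c.out : V) + (d.out : V))) -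
          ((d'.out : V) - (d.out : V)) := by abel
      rw [e]
      exact M₂.sub_mem (h2 h3) (M₂.sub_mem d'.out.2 d.out.2)
    have h5 : (d'.out : V) - (d.out : V) ∈ L := by
      have e : (d'.out : V) - (d.out : V) =
        ((c'.out : V) + (d'.out : V) - ((c.out : V) + (d.out : V))) -
          ((c'.out : V) - (c.out : V)) := by abel
      rw [e]
      exact L.sub_mem h3 h4
    have h6 : c = c' := by
      rw [← hq _ c, ← hq _ c', key]
      exact h4
    have h7 : d = d' := by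
      rw [← hq _ d, ← hq _ d', key]
      exact h5
    rw [h6, h7]
  · intro c
    have hc : (c.out : V) ∈ M₁ ⊔ M₂ := by rw [hsup]; exact c.out.2
    obtain ⟨x, hx, y, hy, hxy⟩ := AddSubgroup.mem_sup.1 hc
    refine ⟨(QuotientAddGroup.mk ⟨x, hx⟩, QuotientAddGroup.mk ⟨y, hy⟩), ?_⟩
    rw [← hq _ c, key]
    have h3 := (key _ _ _).1 (hq M₁ (QuotientAddGroup.mk ⟨x, hx⟩))
    have h4 := (key _ _ _).1 (hq M₂ (QuotientAddGroup.mk ⟨y, hy⟩))
    have e : (c.out : V) - (((QuotientAddGroup.mk ⟨x, hx⟩ : M₁ ⧸ (L.addSubgroupOf M₁)).out : V) +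
        ((QuotientAddGroup.mk ⟨y, hy⟩ : M₂ ⧸ (L.addSubgroupOf M₂)).out : V)) =
      (x - ((QuotientAddGroup.mk ⟨x, hx⟩ : M₁ ⧸ (L.addSubgroupOf M₁)).out : V)) +
      (y - ((QuotientAddGroup.mk ⟨y, hy⟩ : M₂ ⧸ (L.addSubgroupOf M₂)).out : V)) := by
      rw [← hxy]
      abel
    show (c.out : V) - (((QuotientAddGroup.mk ⟨x, hx⟩ : M₁ ⧸ (L.addSubgroupOf M₁)).out : V) +
        ((QuotientAddGroup.mk ⟨y, hy⟩ : M₂ ⧸ (L.addSubgroupOf M₂)).out : V)) ∈ L
    rw [e]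
    exact L.add_mem h3 h4
  · rintro ⟨c, d⟩
    show f (c.out : V) * f (d.out : V) = f _
    rw [← hmul _ c.out.2 _ d.out.2]
    have h3 := (key _ _ _).1 (hq M (QuotientAddGroup.mk (⟨(c.out : V) + (d.out : V),
        M.add_mem (hM1 c.out.2) (hM2 d.out.2)⟩ : M)))
    have h4 := hf _ (QuotientAddGroup.mk (⟨(c.out : V) + (d.out : V),
        M.add_mem (hM1 c.out.2) (hM2 d.out.2)⟩ : M) : M ⧸ (L.addSubgroupOf M)).out.2 _ h3
    rw [← h4]
    congr 1
    simp only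
    abel

end

end Pool.Agent.Lib.MP_1a91b9_ntT.S1
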