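import Pool.Agent.Lib.MP_1a91b9_ntT.S1.Defs

/-!
# LatFin: nonzero ideals have finite index

PROOF. `𝓞 F / I` is finite for `I ≠ ⊥` (`Ideal.finiteQuotientOfFreeOfNeBot` /
`Ideal.finite_quotient...`), so `I.toAddSubgroup` has finite index in `𝓞 F`
(`AddSubgroup.index ≠ 0`), and `relIndex` in any subgroup is nonzero
(`AddSubgroup.relIndex_ne_zero...`, e.g. `AddSubgroup.relIndex_dvd_index_of_normal`, or
`I.toAddSubgroup.FiniteIndex` gives `relIndex ≠ 0`: `AddSubgroup.relIndex_ne_zero_of...`).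
-/

set_option autoImplicit false

namespace Pool.Agent.Lib.MP_1a91b9_ntT.S1

open NumberField Module IsDedekindDomain

noncomputable section

theorem lat_fin {F : Type*} [Field F] [NumberField F] {I J : Ideal (𝓞 F)} (hI : I ≠ ⊥) :
    I.toAddSubgroup.relIndex J.toAddSubgroup ≠ 0 := by
  have h1 : Finite (𝓞 F ⧸ I) := Ideal.finiteQuotientOfFreeOfNeBot I hI
  have h2 : I.toAddSubgroup.index ≠ 0 := by
    have h3 : Finite (𝓞 F ⧸ I.toAddSubgroup) := h1
    exact AddSubgroup.index_ne_zero_of_finite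
  exact fun h => h2 (Nat.eq_zero_of_zero_dvd (h ▸ AddSubgroup.relIndex_dvd_index_of_normal _ _))

end

end Pool.Agent.Lib.MP_1a91b9_ntT.S1
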