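import Pool.Agent.Lib.MP_1a91b9_ntT.S1.Defs
import Pool.Agent.Lib.MP_1a91b9_ntT.S1.GsSplit
import Pool.Agent.Lib.MP_1a91b9_ntT.S1.Qf
import Pool.Agent.Lib.MP_1a91b9_ntT.S1.LatFin

/-!
# DecOdd: splitting the odd part

PROOF. Prove by `Finset.induction` on `t ⊆ s` the more general statement
`gs (2M pp s) (2M pp (s \ t)) qf = prod_{Q ∈ t} gs (2M pp s) (2M ppe s Q) qf`.
`t = ∅`: `gs L L f = f 0 = 1` (the quotient `L/L` is a point; `qf` of the representative, which
lies in `L`, is `1` by `qf_eq_one`, since for `x ∈ 2 M pp s`, `x² ∈ 4 M² (pp s)² ≤ span{4α} e`).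
Step `t ∪ {Q}`, `Q ∈ s`, `Q ∉ t`: `gs_split` with `L = 2M pp s`, `M₁ = 2M pp (s \ t)`,
`M₂ = 2M ppe s Q`, and big group `2M pp (s \ (t ∪ {Q}))`. With `J = 2 M pp (s \ (t∪{Q}))` we have
`M₁ = J Q`, `M₂ = J pp t`, `L = J Q pp t`, and `Q`, `pp t` are coprime (different maximal ideals:
`Ideal.IsMaximal`, `IsCoprime.prod_right`), `1 = u + v`, `u ∈ Q`, `v ∈ pp t`; as in DecTwo
`J Q ⊓ J pp t = J Q pp t` and `J Q ⊔ J pp t = J`. (Products: `pp (s \ t) = Q pp (s \ (t∪{Q}))`,
`ppe s Q = pp t * pp (s \ (t ∪ {Q}))`, `pp s = Q * ppe s Q`: `Finset.prod` manipulations,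
`Finset.mul_prod_erase`, `Finset.prod_sdiff`.)
Periodicity on `J` under `L`: `x ∈ J ≤ 2M`, `l ∈ 2 M pp s`: `2 x l ∈ 8 M² pp s ≤ span{4α} e`
(`hMb`), `l²` as above: `qf_period`. Multiplicativity: `x ∈ 2M pp (s\t)`, `y ∈ 2M ppe s Q`:
`x y ∈ 4 M² pp(s\t) ppe s Q`, and `pp (s\t) * ppe s Q ≤ Q * ppe s Q = pp s`
(since `Q ∈ s \ t`); so `2 x y ∈ span{4α} e`: `qf_add`. Finally take `t = s`:
`pp (s \ s) = 1`, `2 M * 1 = 2 M`. Finite index: `lat_fin` (`2 M pp s ≠ ⊥` since
`span{α} e = M (M pp s) ≠ ⊥`, `Cod.e_ne`).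
-/

set_option autoImplicit false

namespace Pool.Agent.Lib.MP_1a91b9_ntT.S1

open NumberField Module IsDedekindDomain

noncomputable section

private theorem gs_self {V : Type*} [AddCommGroup V] (L : AddSubgroup V) (f : V → ℂ)
    (hf : ∀ x ∈ L, f x = 1) : gs L L f = 1 := by
  unfold gs gq
  have : Subsingleton (L ⧸ (L.addSubgroupOf L)) := by
    rw [AddSubgroup.addSubgroupOf_self]
    exact QuotientAddGroup.subsingleton_quotient_top
  let _ : Unique (L ⧸ (L.addSubgroupOf L)) := uniqueOfSubsingleton 0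
  rw [finsum_unique]
  exact hf _ (Subtype.property _)

private theorem sup_lem {R : Type*} [CommRing R] (J Q P : Ideal R) (h : IsCoprime Q P) :
    J * Q ⊔ J * P = J := by
  rw [← Ideal.mul_sup, Ideal.isCoprime_iff_sup_eq.1 h, Ideal.mul_top]

private theorem inf_lem {R : Type*} [CommRing R] (J Q P : Ideal R) (h : IsCoprime Q P) :
    J * Q ⊓ J * P = J * Q * P := by
  apply le_antisymm
  · intro x hx
    obtain ⟨hx1, hx2⟩ := Submodule.mem_inf.1 hx
    obtain ⟨u, hu, v, hv, huv⟩ := Ideal.isCoprime_iff_exists.1 h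
    have h1 : x = x * u + x * v := by rw [← mul_add, huv, mul_one]
    rw [h1]
    refine Ideal.add_mem _ ?_ ?_
    · have h2 : x * u ∈ J * P * Q := Ideal.mul_mem_mul hx2 hu
      have h3 : J * P * Q = J * Q * P := by ring
      rw [← h3]
      exact h2
    · exact Ideal.mul_mem_mul hx1 hv
  · refine le_inf Ideal.mul_le_left ?_
    have h3 : J * Q * P = J * P * Q := by ring
    rw [h3]
    exact Ideal.mul_le_left

private theorem pp_le_one {F : Type*} [Field F] (s : Finset (HeightOneSpectrum (𝓞 F)))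
    (J : Ideal (𝓞 F)) : J * pp s ≤ J := Ideal.mul_le_left

private theorem copr {F : Type*} [Field F] [NumberField F] (Q : HeightOneSpectrum (𝓞 F))
    (t : Finset (HeightOneSpectrum (𝓞 F))) (h : Q ∉ t) : IsCoprime Q.asIdeal (pp t) := by
  unfold pp
  refine IsCoprime.prod_right fun P hP => ?_
  rw [Ideal.isCoprime_iff_sup_eq]
  refine Ideal.IsMaximal.coprime_of_ne Q.isMaximal P.isMaximal fun h2 => ?_
  have h3 : Q = P := HeightOneSpectrum.ext h2
  exact h (h3 ▸ hP)

private theorem key_mem {F : Type*} [Field F] [NumberField F] {e : Ideal (𝓞 F)}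
    (α : 𝓞 F) (M P : Ideal (𝓞 F)) (hMb : Ideal.span {α} * e = M ^ 2 * P) (x y : 𝓞 F)
    (h : x * y ∈ Ideal.span {2} * M * (Ideal.span {2} * M * P)) :
    x * y ∈ Ideal.span {4 * α} * e := by
  have h1 : Ideal.span {2} * M * (Ideal.span {2} * M * P) = Ideal.span {4 * α} * e := by
    have h2 : Ideal.span {(4 : 𝓞 F) * α} = Ideal.span {(2 : 𝓞 F)} * Ideal.span {2}
        * Ideal.span {α} := by
      rw [Ideal.span_singleton_mul_span_singleton, Ideal.span_singleton_mul_span_singleton]
      congr 2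
      ring
    rw [h2, mul_assoc (Ideal.span {(2 : 𝓞 F)} * Ideal.span {2}), hMb]
    ring
  rw [← h1]
  exact h

/-- Splitting the odd part. -/
theorem dec_odd {F : Type*} [Field F] [NumberField F] {m : 𝓞 F} {e : Ideal (𝓞 F)}
    (h : Cod F m e) (α : 𝓞 F) (hα : α ≠ 0) (M : Ideal (𝓞 F))
    (s : Finset (HeightOneSpectrum (𝓞 F))) (hMb : Ideal.span {α} * e = M ^ 2 * pp s) :
    gs (Ideal.span {2} * M * pp s).toAddSubgroup (Ideal.span {2} * M).toAddSubgroup (qf m α)
      = ∏ Q ∈ s, gs (Ideal.span {2} * M * pp s).toAddSubgroup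
          (Ideal.span {2} * M * ppe s Q).toAddSubgroup (qf m α) := by
  classical
  set J2 : Ideal (𝓞 F) := Ideal.span {2} * M with hJ2
  have hne : J2 * pp s ≠ ⊥ := by
    intro h0
    have h1 : Ideal.span {α} * e ≠ ⊥ := by
      rw [Ne, Ideal.mul_eq_bot]
      push Not
      exact ⟨by simpa using hα, h.e_ne⟩
    apply h1
    rw [hMb]
    rcases Ideal.mul_eq_bot.1 h0 with h2 | h2
    · rcases Ideal.mul_eq_bot.1 h2 with h3 | h3
      · exfalso
        simp at h3
      · rw [h3]
        simp
    · rw [h2]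
      simp
  have hmain : ∀ t : Finset (HeightOneSpectrum (𝓞 F)), t ⊆ s →
      gs (J2 * pp s).toAddSubgroup (J2 * pp (s \ t)).toAddSubgroup (qf m α)
        = ∏ Q ∈ t, gs (J2 * pp s).toAddSubgroup (J2 * ppe s Q).toAddSubgroup (qf m α) := by
    intro t
    induction t using Finset.induction_on with
    | empty =>
      intro _
      rw [Finset.prod_empty, Finset.sdiff_empty]
      refine gs_self _ _ fun x hx => qf_eq_one h α hα x ?_
      rw [sq]
      refine key_mem α M (pp s) hMb x x ?_
      exact Ideal.mul_mem_mul (Ideal.mul_le_left (show x ∈ J2 * pp s from hx)) hx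
    | insert Q t hQt ih =>
      intro hts
      have hQs : Q ∈ s := hts (Finset.mem_insert_self _ _)
      have hts' : t ⊆ s := (Finset.subset_insert _ _).trans hts
      rw [Finset.prod_insert hQt, ← ih hts']
      set r : Finset (HeightOneSpectrum (𝓞 F)) := s \ insert Q t with hr
      have hQr : Q ∉ r := by
        rw [hr, Finset.mem_sdiff]
        push Not
        exact fun _ => Finset.mem_insert_self _ _
      have hst : s \ t = insert Q r := by
        ext P
        simp only [hr, Finset.mem_sdiff, Finset.mem_insert]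
        constructor
        · rintro ⟨h1, h2⟩
          by_cases h3 : P = Q
          · exact Or.inl h3
          · exact Or.inr ⟨h1, by push Not; exact ⟨h3, h2⟩⟩
        · rintro (h1 | ⟨h1, h2⟩)
          · rw [h1]
            exact ⟨hQs, hQt⟩
          · push Not at h2
            exact ⟨h1, h2.2⟩
      have hpst : pp (s \ t) = Q.asIdeal * pp r := by
        rw [hst]
        unfold pp
        rw [Finset.prod_insert hQr]
      have hdis : Disjoint t r := by
        rw [Finset.disjoint_left]
        intro P hP hP2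
        rw [hr, Finset.mem_sdiff] at hP2
        exact hP2.2 (Finset.mem_insert_of_mem hP)
      have hppe : ppe s Q = pp t * pp r := by
        unfold ppe pp
        rw [← Finset.prod_union hdis]
        refine Finset.prod_congr ?_ fun _ _ => rfl
        ext P
        simp only [hr, Finset.mem_erase, Finset.mem_union, Finset.mem_sdiff, Finset.mem_insert]
        constructor
        · rintro ⟨h1, h2⟩
          by_cases h3 : P ∈ t
          · exact Or.inl h3
          · exact Or.inr ⟨h2, by push Not; exact ⟨h1, h3⟩⟩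
        · rintro (h1 | ⟨h1, h2⟩)
          · exact ⟨fun h4 => hQt (h4 ▸ h1), hts' h1⟩
          · push Not at h2
            exact ⟨h2.1, h1⟩
      have hps : pp s = Q.asIdeal * (pp t * pp r) := by
        rw [pp_eq s Q hQs, hppe]
      have hM1 : J2 * pp (s \ t) = J2 * pp r * Q.asIdeal := by rw [hpst]; ring
      have hM2 : J2 * ppe s Q = J2 * pp r * pp t := by rw [hppe]; ring
      have hL : J2 * pp s = J2 * pp r * Q.asIdeal * pp t := by rw [hps]; ring
      have hco := copr Q t hQt
      have hsplit := gs_split (J2 * pp s).toAddSubgroup (J2 * ppe s Q).toAddSubgroup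
        (J2 * pp (s \ t)).toAddSubgroup (J2 * pp r).toAddSubgroup (qf m α) ?_ ?_ ?_ ?_ ?_ ?_ ?_
      · exact hsplit
      · rw [Submodule.toAddSubgroup_le, hL, hM2]
        have h3 : J2 * pp r * Q.asIdeal * pp t = J2 * pp r * pp t * Q.asIdeal := by ring
        rw [h3]
        exact Ideal.mul_le_left
      · rw [Submodule.toAddSubgroup_le, hL, hM1]
        exact Ideal.mul_le_left
      · have h3 := inf_lem (J2 * pp r) Q.asIdeal (pp t) hco
        rw [hL, hM2, hM1, ← h3]
        ext x
        simp only [AddSubgroup.mem_inf, Submodule.mem_toAddSubgroup, Submodule.mem_inf]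
        exact and_comm
      · rw [← Submodule.sup_toAddSubgroup, hM2, hM1, sup_comm,
          sup_lem (J2 * pp r) Q.asIdeal (pp t) hco]
      · exact lat_fin hne
      · intro x hx l hl
        have hx' : x ∈ J2 := Ideal.mul_le_left (show x ∈ J2 * pp r from hx)
        have hl' : l ∈ J2 := Ideal.mul_le_left (show l ∈ J2 * pp s from hl)
        refine qf_period h α hα x l ?_ ?_
        · exact Ideal.mul_mem_left _ _
            (key_mem α M (pp s) hMb x l (Ideal.mul_mem_mul hx' hl))
        · rw [sq]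
          exact key_mem α M (pp s) hMb l l (Ideal.mul_mem_mul hl' hl)
      · intro x hx y hy
        refine qf_add h α hα x y ?_
        refine Ideal.mul_mem_left _ _ (key_mem α M (pp s) hMb x y ?_)
        have h1 : x * y ∈ J2 * ppe s Q * (J2 * pp (s \ t)) := Ideal.mul_mem_mul hx hy
        have h2 : J2 * ppe s Q * (J2 * pp (s \ t)) = J2 * (J2 * pp s) * pp r := by
          rw [pp_eq s Q hQs, hpst]
          ring
        rw [h2] at h1
        exact Ideal.mul_le_left h1
  have hfin := hmain s (Finset.Subset.refl _)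
  have h1 : J2 * pp (s \ s) = J2 := by
    rw [Finset.sdiff_self]
    unfold pp
    rw [Finset.prod_empty, mul_one]
  rw [h1] at hfin
  exact hfin

end

end Pool.Agent.Lib.MP_1a91b9_ntT.S1
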