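import Pool.Agent.Lib.MP_1a91b9_ntT.S1.Defs
import Pool.Agent.Lib.MP_1a91b9_ntT.S1.GsSplit
import Pool.Agent.Lib.MP_1a91b9_ntT.S1.Qf
import Pool.Agent.Lib.MP_1a91b9_ntT.S1.LatFin

/-!
# DecTwo: splitting off the prime 2

PROOF. `gs_split` with `L = 2Mb`, `M₁ = M b`, `M₂ = 2 M`, `M`.
`M₁ ⊓ M₂ = L`: in a Dedekind domain `(M b) ⊓ (2 M) = M (b ⊓ 2) = M (2 b)` because `b`, `2` are
coprime; elementwise: `1 = u + v`, `u ∈ b`, `v ∈ span{2}`; `x ∈ M b ∩ 2 M`: `x = u x + v x`,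
`u x ∈ b (2M)`, `v x ∈ 2 (M b)`. `M₁ ⊔ M₂ = M`: `x = u x + v x`, `u x ∈ M b`, `v x ∈ 2 M`.
(Work with ideals: `Ideal.toAddSubgroup`/`Submodule.toAddSubgroup` and `⊓`, `⊔` are compatible:
`Submodule.sup_toAddSubgroup`, `Submodule.inf_toAddSubgroup` or by `ext`/`Submodule.mem_sup`.)
Finite index: `lat_fin` (`2Mb ≠ ⊥`: `α ≠ 0`, `e ≠ ⊥` (`Cod.e_ne`) and `span{α} e = M (M b)`).
Periodicity of `qf m α` on `M` under `2Mb`: `qf_period`: `x ∈ M`, `l ∈ 2Mb`: `2 x l ∈ 4 M² b =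
span{4α} e` (`l = 2 l'`, `l' ∈ M b`, `x l' ∈ M² b = span{α} e`), `l² = 4 l'²`, `l'² ∈ M² b² ≤ M² b`.
Multiplicativity: `x ∈ M b`, `y = 2 y'`, `y' ∈ M`: `2 x y = 4 x y'`, `x y' ∈ M² b`; `qf_add`.
-/

set_option autoImplicit false

namespace Pool.Agent.Lib.MP_1a91b9_ntT.S1

open NumberField Module IsDedekindDomain

noncomputable section

private theorem DecTwo_key {F : Type*} [Field F] [NumberField F] {e : Ideal (𝓞 F)}
    (α : 𝓞 F) (M b : Ideal (𝓞 F)) (hMb : Ideal.span {α} * e = M ^ 2 * b) (y : 𝓞 F)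
    (hy : y ∈ M * (M * b)) : 4 * y ∈ Ideal.span {4 * α} * e := by
  have h1 : M * (M * b) = Ideal.span {α} * e := by
    rw [hMb, ← mul_assoc, sq]
  rw [h1] at hy
  have h2 : Ideal.span {4 * α} * e = Ideal.span {(4 : 𝓞 F)} * (Ideal.span {α} * e) := by
    rw [← mul_assoc, Ideal.span_singleton_mul_span_singleton]
  rw [h2]
  exact Ideal.mul_mem_mul (Ideal.mem_span_singleton_self _) hy

/-- Splitting off the prime `2`. -/
theorem dec_two {F : Type*} [Field F] [NumberField F] {m : 𝓞 F} {e : Ideal (𝓞 F)}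
    (h : Cod F m e) (α : 𝓞 F) (hα : α ≠ 0) (M b : Ideal (𝓞 F))
    (hMb : Ideal.span {α} * e = M ^ 2 * b) (hb : IsCoprime b (Ideal.span {(2 : 𝓞 F)})) :
    gs (Ideal.span {2} * M * b).toAddSubgroup M.toAddSubgroup (qf m α)
      = gs (Ideal.span {2} * M * b).toAddSubgroup (M * b).toAddSubgroup (qf m α)
        * gs (Ideal.span {2} * M * b).toAddSubgroup (Ideal.span {2} * M).toAddSubgroup
          (qf m α) := by
  obtain ⟨u, hu, v, hv, huv⟩ := Ideal.isCoprime_iff_exists.1 hb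
  have hassoc : Ideal.span {(2 : 𝓞 F)} * M * b = Ideal.span {(2 : 𝓞 F)} * (M * b) := mul_assoc _ _ _
  have hαe : Ideal.span {α} * e ≠ ⊥ := by
    intro hbot
    rcases Ideal.mul_eq_bot.1 hbot with h1 | h1
    · exact hα (Ideal.span_singleton_eq_bot.1 h1)
    · exact h.e_ne h1
  have hM : M ≠ ⊥ := by
    rintro rfl
    apply hαe
    rw [hMb, sq, Ideal.bot_mul, Ideal.bot_mul]
  have hb0 : b ≠ ⊥ := by
    rintro rfl
    apply hαe
    rw [hMb, Ideal.mul_bot]
  have h20 : Ideal.span {(2 : 𝓞 F)} ≠ ⊥ := by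
    intro hbot
    have h3 : (2 : 𝓞 F) = 0 := Ideal.span_singleton_eq_bot.1 hbot
    exact two_ne_zero h3
  have hL : Ideal.span {(2 : 𝓞 F)} * M * b ≠ ⊥ := by
    intro hbot
    rcases Ideal.mul_eq_bot.1 hbot with h1 | h1
    · rcases Ideal.mul_eq_bot.1 h1 with h2 | h2
      · exact h20 h2
      · exact hM h2
    · exact hb0 h1
  refine gs_split _ _ _ _ (qf m α) ?_ ?_ ?_ ?_ (lat_fin hL) ?_ ?_
  · intro x hx
    have hx' : x ∈ Ideal.span {(2 : 𝓞 F)} * (M * b) := by rw [← hassoc]; exact hx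
    exact (Ideal.mul_le_right : Ideal.span {(2 : 𝓞 F)} * (M * b) ≤ M * b) hx'
  · intro x hx
    exact (Ideal.mul_le_left : Ideal.span {(2 : 𝓞 F)} * M * b ≤ Ideal.span {(2 : 𝓞 F)} * M) hx
  · refine le_antisymm ?_ ?_
    · intro x hx
      have hx1 : x ∈ M * b := (AddSubgroup.mem_inf.1 hx).1
      have hx2 : x ∈ Ideal.span {(2 : 𝓞 F)} * M := (AddSubgroup.mem_inf.1 hx).2
      have h1 : x * u ∈ Ideal.span {(2 : 𝓞 F)} * M * b := Ideal.mul_mem_mul hx2 hu
      have h2 : v * x ∈ Ideal.span {(2 : 𝓞 F)} * M * b := by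
        rw [hassoc]
        exact Ideal.mul_mem_mul hv hx1
      have h3 : x = x * u + v * x := by
        calc x = x * (u + v) := by rw [huv, mul_one]
          _ = x * u + v * x := by ring
      have h4 : x ∈ Ideal.span {(2 : 𝓞 F)} * M * b := by
        rw [h3]
        exact Ideal.add_mem _ h1 h2
      exact h4
    · intro x hx
      have hx' : x ∈ Ideal.span {(2 : 𝓞 F)} * (M * b) := by rw [← hassoc]; exact hx
      refine AddSubgroup.mem_inf.2 ⟨?_, ?_⟩
      · exact (Ideal.mul_le_right : Ideal.span {(2 : 𝓞 F)} * (M * b) ≤ M * b) hx'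
      · exact (Ideal.mul_le_left : Ideal.span {(2 : 𝓞 F)} * M * b ≤ Ideal.span {(2 : 𝓞 F)} * M) hx
  · refine le_antisymm ?_ ?_
    · refine sup_le ?_ ?_
      · intro x hx
        exact (Ideal.mul_le_left : M * b ≤ M) hx
      · intro x hx
        exact (Ideal.mul_le_right : Ideal.span {(2 : 𝓞 F)} * M ≤ M) hx
    · intro x hx
      have hx1 : x ∈ M := hx
      have h3 : x = x * u + v * x := by
        calc x = x * (u + v) := by rw [huv, mul_one]
          _ = x * u + v * x := by ring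
      rw [h3]
      refine add_mem ?_ ?_
      · refine AddSubgroup.mem_sup_left ?_
        exact Ideal.mul_mem_mul hx1 hu
      · refine AddSubgroup.mem_sup_right ?_
        exact Ideal.mul_mem_mul hv hx1
  · intro x hx l hl
    have hx1 : x ∈ M := hx
    have hl1 : l ∈ Ideal.span {(2 : 𝓞 F)} * (M * b) := by rw [← hassoc]; exact hl
    obtain ⟨l', hl', rfl⟩ := Ideal.mem_span_singleton_mul.1 hl1
    have hl'M : l' ∈ M := (Ideal.mul_le_left : M * b ≤ M) hl'
    refine qf_period h α hα x (2 * l') ?_ ?_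
    · have h1 : 2 * (x * (2 * l')) = 4 * (x * l') := by ring
      rw [h1]
      exact DecTwo_key α M b hMb _ (Ideal.mul_mem_mul hx1 hl')
    · have h1 : (2 * l') ^ 2 = 4 * (l' * l') := by ring
      rw [h1]
      exact DecTwo_key α M b hMb _ (Ideal.mul_mem_mul hl'M hl')
  · intro x hx y hy
    have hx1 : x ∈ M * b := hx
    have hy1 : y ∈ Ideal.span {(2 : 𝓞 F)} * M := hy
    obtain ⟨y', hy', rfl⟩ := Ideal.mem_span_singleton_mul.1 hy1
    refine qf_add h α hα x (2 * y') ?_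
    have h1 : 2 * (x * (2 * y')) = 4 * (y' * x) := by ring
    rw [h1]
    exact DecTwo_key α M b hMb _ (Ideal.mul_mem_mul hy' hx1)

end

end Pool.Agent.Lib.MP_1a91b9_ntT.S1
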