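import Pool.Agent.Lib.MP_1a91b9_ntT.S1.Defs

/-!
# ExistsFac: square times squarefree

PROOF. Induction on the factorisation of the nonzero ideal `I`
(`UniqueFactorizationMonoid.induction_on_prime` or `Multiset` induction on
`normalizedFactors I`): for `I = 1`: `M = 1`, `s = ∅`. For `I = P J`, `P` prime (nonzero), with
`J = M² pp s` and `s = {Q : od Q J odd}`: `od Q (P J) = od Q P + od Q J`
(`UniqueFactorizationMonoid.normalizedFactors_mul`, `Multiset.count_add`) and `od Q P = 1` if
`Q = P`, else `0` (`normalizedFactors_irreducible`, ideals are normalized). If `P ∈ s` take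
`M' = M P`, `s' = s.erase P`; otherwise `s' = insert P s`. Alternatively a direct definition:
`I = prod_Q Q^(od Q I)` and split every exponent as `2 (k/2) + k % 2`.
The unit case of `induction_on_prime`: a unit ideal is `1`.
-/

set_option autoImplicit false

namespace Pool.Agent.Lib.MP_1a91b9_ntT.S1

open NumberField Module IsDedekindDomain

noncomputable section

private theorem existsFac_le {F : Type*} [Field F] [NumberField F] (Q : HeightOneSpectrum (𝓞 F))
    (I : Ideal (𝓞 F)) (hI : I ≠ ⊥) (n : ℕ) : I ≤ Q.asIdeal ^ n ↔ n ≤ od Q.asIdeal I := by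
  classical
  have hirr : Irreducible Q.asIdeal := Q.irreducible
  rw [← Ideal.dvd_iff_le, pow_dvd_iff_le_emultiplicity,
    UniqueFactorizationMonoid.emultiplicity_eq_count_normalizedFactors hirr hI, normalize_eq, Nat.cast_le]
  unfold od
  exact Iff.rfl

private theorem existsFac_prime {F : Type*} [Field F] [NumberField F] (Q P : HeightOneSpectrum (𝓞 F)) :
    (Q = P → od Q.asIdeal P.asIdeal = 1) ∧ (Q ≠ P → od Q.asIdeal P.asIdeal = 0) := by
  classical
  have h : od Q.asIdeal P.asIdeal = if Q.asIdeal = P.asIdeal then 1 else 0 := by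
    unfold od
    rw [UniqueFactorizationMonoid.normalizedFactors_irreducible P.irreducible, normalize_eq,
      Multiset.count_singleton]
  constructor
  · rintro rfl
    rw [h, if_pos rfl]
  · intro hne
    rw [h, if_neg fun e => hne (HeightOneSpectrum.ext e)]

private theorem existsFac_mul {F : Type*} [Field F] [NumberField F] (Q I J : Ideal (𝓞 F)) (hI : I ≠ ⊥)
    (hJ : J ≠ ⊥) : od Q (I * J) = od Q I + od Q J := by
  classical
  unfold od
  rw [UniqueFactorizationMonoid.normalizedFactors_mul hI hJ, Multiset.count_add]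

/-- Every nonzero ideal is a square times a product of different primes. -/
theorem exists_fac {F : Type*} [Field F] [NumberField F] (I : Ideal (𝓞 F)) (hI : I ≠ ⊥) :
    ∃ (M : Ideal (𝓞 F)) (s : Finset (HeightOneSpectrum (𝓞 F))), I = M ^ 2 * pp s ∧
      ∀ Q : HeightOneSpectrum (𝓞 F), Q ∈ s ↔ Odd (od Q.asIdeal I) := by
  classical
  revert hI
  refine UniqueFactorizationMonoid.induction_on_prime (P := fun I : Ideal (𝓞 F) => I ≠ ⊥ →
    ∃ (M : Ideal (𝓞 F)) (s : Finset (HeightOneSpectrum (𝓞 F))), I = M ^ 2 * pp s ∧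
      ∀ Q : HeightOneSpectrum (𝓞 F), Q ∈ s ↔ Odd (od Q.asIdeal I)) I ?_ ?_ ?_
  · intro h
    exact absurd rfl h
  · intro J hJ _
    have hJ1 : J = 1 := by
      rw [Ideal.one_eq_top]
      exact Ideal.isUnit_iff.1 hJ
    refine ⟨1, ∅, ?_, fun Q => ?_⟩
    · rw [hJ1]
      unfold pp
      rw [Finset.prod_empty, one_pow, one_mul]
    · have h1 : od Q.asIdeal J = 0 := by
        rw [hJ1]
        unfold od
        rw [UniqueFactorizationMonoid.normalizedFactors_one, Multiset.count_zero]
      rw [h1]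
      simp
  · intro J p hJ hp ih hne
    obtain ⟨M, s, h1, h2⟩ := ih hJ
    have hp0 : p ≠ ⊥ := hp.ne_zero
    let P : HeightOneSpectrum (𝓞 F) := ⟨p, (Ideal.prime_iff_isPrime hp0).1 hp, hp0⟩
    have hPp : P.asIdeal = p := rfl
    have hod : ∀ Q : HeightOneSpectrum (𝓞 F), od Q.asIdeal (p * J) = od Q.asIdeal P.asIdeal + od Q.asIdeal J :=
      fun Q => existsFac_mul _ _ _ hp0 hJ
    by_cases hPs : P ∈ s
    · refine ⟨M * p, s.erase P, ?_, fun Q => ?_⟩
      · have h3 : pp (s.erase P) = ppe s P := rfl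
        rw [h3, h1, pp_eq s P hPs, hPp]
        ring
      · rw [Finset.mem_erase, hod Q]
        by_cases hQ : Q = P
        · have h4 := (h2 Q).1 (hQ ▸ hPs)
          rw [(existsFac_prime Q P).1 hQ]
          have h5 : ¬ Odd (1 + od Q.asIdeal J) := by
            rw [Nat.not_odd_iff_even]
            exact (odd_one.add_odd h4)
          exact ⟨fun h => absurd hQ h.1, fun h => absurd h h5⟩
        · rw [(existsFac_prime Q P).2 hQ, zero_add, ← h2 Q]
          exact ⟨fun h => h.2, fun h => ⟨hQ, h⟩⟩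
    · refine ⟨M, insert P s, ?_, fun Q => ?_⟩
      · have h3 : pp (insert P s) = p * pp s := by
          unfold pp
          rw [Finset.prod_insert hPs]
        rw [h3, h1]
        ring
      · rw [Finset.mem_insert, hod Q]
        by_cases hQ : Q = P
        · have h4 : ¬ Odd (od Q.asIdeal J) := fun h => hPs (hQ ▸ (h2 Q).2 h)
          rw [(existsFac_prime Q P).1 hQ]
          have h5 : Odd (1 + od Q.asIdeal J) := odd_one.add_even (Nat.not_odd_iff_even.1 h4)
          exact ⟨fun _ => h5, fun _ => Or.inl hQ⟩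
        · rw [(existsFac_prime Q P).2 hQ, zero_add, ← h2 Q]
          exact ⟨fun h => h.resolve_left hQ, fun h => Or.inr h⟩

theorem od_mul {F : Type*} [Field F] [NumberField F] (Q I J : Ideal (𝓞 F)) (hI : I ≠ ⊥)
    (hJ : J ≠ ⊥) : od Q (I * J) = od Q I + od Q J :=
  existsFac_mul Q I J hI hJ

/-- The order at `Q` of an element is odd if and only if the exponent of `Q` is odd. -/
theorem oddAt_iff {F : Type*} [Field F] [NumberField F] (Q : HeightOneSpectrum (𝓞 F)) (β : 𝓞 F)
    (hβ : β ≠ 0) : OddAt Q β ↔ Odd (od Q.asIdeal (Ideal.span {β})) := by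
  have hne : Ideal.span {β} ≠ ⊥ := by
    rw [Ne, Ideal.span_singleton_eq_bot]
    exact hβ
  have hmem : ∀ n : ℕ, β ∈ Q.asIdeal ^ n ↔ n ≤ od Q.asIdeal (Ideal.span {β}) := by
    intro n
    rw [← existsFac_le Q _ hne, Ideal.span_singleton_le_iff_mem]
  unfold OddAt
  simp only [hmem]
  constructor
  · rintro ⟨k, h1, h2⟩
    exact ⟨k, by omega⟩
  · rintro ⟨k, h1⟩
    exact ⟨k, by omega, by omega⟩

theorem od_eq_zero {F : Type*} [Field F] [NumberField F] (Q : HeightOneSpectrum (𝓞 F)) (β : 𝓞 F)
    (hβ : β ≠ 0) (hQ : β ∉ Q.asIdeal) : od Q.asIdeal (Ideal.span {β}) = 0 := by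
  have hne : Ideal.span {β} ≠ ⊥ := by
    rw [Ne, Ideal.span_singleton_eq_bot]
    exact hβ
  by_contra h0
  apply hQ
  rw [← Ideal.span_singleton_le_iff_mem, ← pow_one Q.asIdeal, existsFac_le Q _ hne]
  omega

end

end Pool.Agent.Lib.MP_1a91b9_ntT.S1
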