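import Pool.Agent.Lib.MP_1a91b9_ntT.S1.Defs

/-!
# GsParam: change of parametrisation

PROOF. `gs L M f = gq (L.addSubgroupOf M) (fun x : M => f x)` is a `finsum` over
`M / L.addSubgroupOf M`. The map `A / S → M / (L.addSubgroupOf M)`, `[a] ↦ [h a]` is well defined
and injective by `hS` (`h a - h b = h (a - b)`), surjective by `hsurj`. Use
`finsum_eq_of_bijective` with it (build it with `QuotientAddGroup.map` or `Quotient.map`, or take
`c ↦ mk (h c.out)`). The terms agree because `f` is periodic: if `x y ∈ M` and `x - y ∈ L` then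
`f x = f (y + (x - y)) = f y`; apply it to `x = (mk (h c.out)).out` and `y = h c.out`.
-/

set_option autoImplicit false

namespace Pool.Agent.Lib.MP_1a91b9_ntT.S1

open NumberField Module IsDedekindDomain

noncomputable section

/-- Change of parametrisation. -/
theorem gs_param {A V : Type*} [AddCommGroup A] [AddCommGroup V] (L M : AddSubgroup V)
    (S : AddSubgroup A) (h : A →+ V) (f : V → ℂ) (hLM : L ≤ M)
    (hM : ∀ a, h a ∈ M) (hS : ∀ a, h a ∈ L ↔ a ∈ S)
    (hsurj : ∀ x ∈ M, ∃ a, x - h a ∈ L)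
    (hf : ∀ x ∈ M, ∀ l ∈ L, f (x + l) = f x) :
    gs L M f = gq S (fun a => f (h a)) := by
  unfold gs gq
  symm
  have hq : ∀ c : A ⧸ S, QuotientAddGroup.mk c.out = c := fun c => QuotientAddGroup.out_eq' c
  have hq2 : ∀ c : M ⧸ (L.addSubgroupOf M), QuotientAddGroup.mk c.out = c :=
    fun c => QuotientAddGroup.out_eq' c
  have key : ∀ x y : M, (QuotientAddGroup.mk x : M ⧸ (L.addSubgroupOf M)) = QuotientAddGroup.mk y ↔
      (y : V) - (x : V) ∈ L := by
    intro x y
    rw [QuotientAddGroup.eq, AddSubgroup.mem_addSubgroupOf]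
    have e : ((-x + y : M) : V) = (y : V) - (x : V) := by
      push_cast
      abel
    rw [e]
  refine finsum_eq_of_bijective
    (fun c : A ⧸ S => (QuotientAddGroup.mk (⟨h c.out, hM _⟩ : M) : M ⧸ (L.addSubgroupOf M)))
    ⟨?_, ?_⟩ ?_
  · intro c d hcd
    have h1 := (key _ _).1 hcd
    simp only at h1
    rw [← map_sub, hS] at h1
    rw [← hq c, ← hq d, QuotientAddGroup.eq]
    have e : -c.out + d.out = d.out - c.out := by abel
    rw [e]
    exact h1
  · intro c
    obtain ⟨a, ha⟩ := hsurj _ c.out.2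
    refine ⟨QuotientAddGroup.mk a, ?_⟩
    rw [← hq2 c, key]
    have h1 : (QuotientAddGroup.mk (QuotientAddGroup.mk a : A ⧸ S).out : A ⧸ S) =
      QuotientAddGroup.mk a := hq _
    rw [QuotientAddGroup.eq] at h1
    have h2 := (hS _).2 h1
    have e : (c.out : V) - h (QuotientAddGroup.mk a : A ⧸ S).out =
      ((c.out : V) - h a) + h (-(QuotientAddGroup.mk a : A ⧸ S).out + a) := by
      rw [map_add, map_neg]
      abel
    show (c.out : V) - h (QuotientAddGroup.mk a : A ⧸ S).out ∈ L
    rw [e]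
    exact L.add_mem ha h2
  · intro c
    show f (h c.out) = f _
    have h1 := hq2 (QuotientAddGroup.mk (⟨h c.out, hM _⟩ : M) : M ⧸ (L.addSubgroupOf M))
    rw [key] at h1
    have h2 := hf _ (QuotientAddGroup.mk (⟨h c.out, hM _⟩ : M) : M ⧸ (L.addSubgroupOf M)).out.2 _ h1
    rw [← h2]
    congr 1
    simp only
    abel

end

end Pool.Agent.Lib.MP_1a91b9_ntT.S1
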