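import Pool.Agent.Lib.MP_1a91b9_ntT.S1.Defs
import Pool.Agent.Lib.MP_1a91b9_ntT.S1.GsParam
import Pool.Agent.Lib.MP_1a91b9_ntT.S1.Qf
import Pool.Agent.Lib.MP_1a91b9_ntT.S1.OneDim

/-!
# ParQ: the parametrisation of the part at `Q`, admissible parameters

Notation `J = 2 M ppe s Q`, so `2 M pp s = Q J` (`pp_eq`, `mul_comm`), `w ∈ J`, `w ∉ Q J`.
PROOF of `par_Q`: `gs_param` with `A = 𝓞 F`, `S = Q`, `h y = y w`, `L = 2 M pp s`, `M := J`.
`y w ∈ J` clear. `y w ∈ Q J ↔ y ∈ Q`: (⇐) clear; (⇒) if `y ∉ Q`, then `1 = r y + q`, `q ∈ Q`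
(maximality), `w = r (y w) + q w ∈ Q J`, contradiction. Surjectivity: `one_dim` (file OneDim).
Periodicity: `x ∈ J`, `l ∈ Q J`: `x l ∈ 4 M² ppe (Q ppe) = 4 M² pp ppe ≤ span{4α} e` (`hMb`), so
`2 x l ∈ span{4α} e`, `l² ∈ span{4α} e`: `qf_period`.
PROOF of `adm_Q`: first part: `t ∈ Q`: `t w² ∈ Q J² = 4 M² (Q ppe) ppe ≤ 4 M² pp s = span{4α} e`.
Second part: suppose `w² ∈ span{α} e = M² pp s = M² Q ppe`. `J ∣ span{w}`: `span{w} = J K`
(`Ideal.dvd_span_singleton`), `Q ∤ K` (otherwise `w ∈ J Q`). `J² K² = span{w²} ≤ M² Q ppe`, i.e.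
`M² Q ppe ∣ span{2}² M² ppe² K²`; cancel `M² ppe` (nonzero, since `α ≠ 0`, `e ≠ ⊥`):
`Q ∣ span{2}² ppe K²`, so `Q` (prime) divides `span{2}`, `ppe s Q` or `K`: not `span{2}` (`hQ2`),
not `ppe s Q` (a product of different primes: `Prime.dvd_finset_prod_iff`, `Q ∣ Q'` implies
`Q = Q'`, `HeightOneSpectrum.ext`, maximality), not `K`. Contradiction.
PROOF of `exists_Q`: `Q J < J` because `J ≠ ⊥` and `Q ≠ ⊤` (if `Q J = J` cancel `J`);
`SetLike.exists_of_lt`. `J ≠ ⊥`: `2 ≠ 0`, `M ≠ ⊥`, primes nonzero (`Finset.prod_ne_zero_iff`).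
-/

set_option autoImplicit false

namespace Pool.Agent.Lib.MP_1a91b9_ntT.S1

open NumberField Module IsDedekindDomain

noncomputable section

private theorem parQ_J {F : Type*} [Field F] (M : Ideal (𝓞 F))
    (s : Finset (HeightOneSpectrum (𝓞 F))) (Q : HeightOneSpectrum (𝓞 F)) (hQ : Q ∈ s) :
    Ideal.span {2} * M * pp s = Q.asIdeal * (Ideal.span {2} * M * ppe s Q) := by
  rw [pp_eq s Q hQ]
  ring

private theorem parQ_two {R : Type*} [CommRing R] (a : R) (e : Ideal R) :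
    Ideal.span {4 * a} * e = Ideal.span {2} * Ideal.span {2} * (Ideal.span {a} * e) := by
  have h4 : (4 : R) = 2 * 2 := by norm_num
  rw [h4, Ideal.span_singleton_mul_span_singleton, ← mul_assoc,
    Ideal.span_singleton_mul_span_singleton]

private theorem parQ_JJ {F : Type*} [Field F] {e : Ideal (𝓞 F)} (α : 𝓞 F) (M : Ideal (𝓞 F))
    (s : Finset (HeightOneSpectrum (𝓞 F)))
    (hMb : Ideal.span {α} * e = M ^ 2 * pp s) (Q : HeightOneSpectrum (𝓞 F)) (hQ : Q ∈ s) :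
    (Ideal.span {2} * M * ppe s Q) * (Q.asIdeal * (Ideal.span {2} * M * ppe s Q)) ≤
      Ideal.span {4 * α} * e := by
  have h1 : (Ideal.span {2} * M * ppe s Q) * (Q.asIdeal * (Ideal.span {2} * M * ppe s Q)) =
      (Ideal.span {4 * α} * e) * ppe s Q := by
    rw [parQ_two, hMb, pp_eq s Q hQ]
    ring
  rw [h1]
  exact Ideal.mul_le_left

private theorem parQ_ppe_ne {F : Type*} [Field F] [NumberField F]
    (s : Finset (HeightOneSpectrum (𝓞 F))) (Q : HeightOneSpectrum (𝓞 F)) : ppe s Q ≠ ⊥ := by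
  classical
  unfold ppe pp
  rw [← Ideal.zero_eq_bot, Finset.prod_ne_zero_iff]
  intro Q' _
  exact Q'.ne_bot

private theorem parQ_dvd_ppe {F : Type*} [Field F] [NumberField F]
    (s : Finset (HeightOneSpectrum (𝓞 F))) (Q : HeightOneSpectrum (𝓞 F))
    (h : Q.asIdeal ∣ ppe s Q) : False := by
  classical
  unfold ppe pp at h
  obtain ⟨Q', hQ', hd⟩ := (Q.prime.dvd_finsetProd_iff _).mp h
  have h1 : Q'.asIdeal ≤ Q.asIdeal := Ideal.dvd_iff_le.mp hd
  have h2 : Q'.asIdeal = Q.asIdeal := Q'.isMaximal.eq_of_le Q.isPrime.ne_top h1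
  have h3 : Q' = Q := HeightOneSpectrum.ext h2
  exact (Finset.mem_erase.mp hQ').1 h3

/-- The parametrisation of the part at `Q`. -/
theorem par_Q {F : Type*} [Field F] [NumberField F] {m : 𝓞 F} {e : Ideal (𝓞 F)}
    (h : Cod F m e) (α : 𝓞 F) (hα : α ≠ 0) (M : Ideal (𝓞 F))
    (s : Finset (HeightOneSpectrum (𝓞 F)))
    (hMb : Ideal.span {α} * e = M ^ 2 * pp s) (Q : HeightOneSpectrum (𝓞 F)) (hQ : Q ∈ s)
    (w : 𝓞 F) (hw : w ∈ Ideal.span {2} * M * ppe s Q)
    (hw2 : w ∉ Ideal.span {2} * M * pp s) :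
    gs (Ideal.span {2} * M * pp s).toAddSubgroup
          (Ideal.span {2} * M * ppe s Q).toAddSubgroup (qf m α)
      = gQ m α Q.asIdeal w := by
  have hJJ := parQ_JJ α M s hMb Q hQ
  rw [parQ_J M s Q hQ] at hw2 ⊢
  generalize Ideal.span {2} * M * ppe s Q = J at hw hw2 hJJ ⊢
  have hfin : ∀ x ∈ J, ∀ l ∈ Q.asIdeal * J, x * l ∈ Ideal.span {4 * α} * e := by
    intro x hx l hl
    exact hJJ (Ideal.mul_mem_mul hx hl)
  refine gs_param (Q.asIdeal * J).toAddSubgroup J.toAddSubgroup Q.asIdeal.toAddSubgroup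
    (AddMonoidHom.mulRight w) (qf m α) ?_ ?_ ?_ ?_ ?_
  · intro x hx
    exact (Ideal.mul_le_right : Q.asIdeal * J ≤ J) hx
  · intro a
    exact J.mul_mem_left a hw
  · intro a
    constructor
    · intro ha
      by_contra hcon
      have hcon' : a ∉ Q.asIdeal := hcon
      have ha' : a * w ∈ Q.asIdeal * J := ha
      obtain ⟨r, q, hq, hr⟩ := Q.isMaximal.exists_inv hcon'
      have hw' : w = r * (a * w) + q * w := by
        calc w = (r * a + q) * w := by rw [hr, one_mul]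
          _ = r * (a * w) + q * w := by ring
      apply hw2
      rw [hw']
      exact Ideal.add_mem _ (Ideal.mul_mem_left _ _ ha') (Ideal.mul_mem_mul hq hw)
    · intro ha
      exact Ideal.mul_mem_mul (show a ∈ Q.asIdeal from ha) hw
  · intro x hx
    obtain ⟨c, hc⟩ := one_dim Q J w hw hw2 x hx
    exact ⟨c, hc⟩
  · intro x hx l hl
    refine qf_period h α hα x l ?_ ?_
    · exact Ideal.mul_mem_left _ _ (hfin x hx l hl)
    · rw [pow_two]
      exact hfin l ((Ideal.mul_le_right : Q.asIdeal * J ≤ J) hl) l hl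

/-- Admissibility of the parameter at `Q`. -/
theorem adm_Q {F : Type*} [Field F] [NumberField F] {e : Ideal (𝓞 F)} (he : e ≠ ⊥) (α : 𝓞 F)
    (hα : α ≠ 0) (M : Ideal (𝓞 F)) (s : Finset (HeightOneSpectrum (𝓞 F)))
    (hMb : Ideal.span {α} * e = M ^ 2 * pp s) (Q : HeightOneSpectrum (𝓞 F)) (hQ : Q ∈ s)
    (hQ2 : (2 : 𝓞 F) ∉ Q.asIdeal)
    (w : 𝓞 F) (hw : w ∈ Ideal.span {2} * M * ppe s Q)
    (hw2 : w ∉ Ideal.span {2} * M * pp s) : AdmQ e α Q.asIdeal w := by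
  have hJJ := parQ_JJ α M s hMb Q hQ
  constructor
  · intro t ht
    have h1 : t * w ^ 2 = w * (t * w) := by ring
    rw [h1]
    exact hJJ (Ideal.mul_mem_mul hw (Ideal.mul_mem_mul ht hw))
  · intro hcon
    rw [parQ_J M s Q hQ] at hw2
    obtain ⟨K, hK⟩ := Ideal.dvd_span_singleton.mpr hw
    have hQK : ¬ Q.asIdeal ∣ K := by
      rintro ⟨K', rfl⟩
      apply hw2
      rw [← Ideal.dvd_span_singleton, hK]
      exact ⟨K', by ring⟩
    have hαe : Ideal.span {α} * e ≠ 0 := by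
      refine mul_ne_zero ?_ he
      rw [Ne, Ideal.zero_eq_bot, Ideal.span_singleton_eq_bot]
      exact hα
    have hM0 : M ≠ 0 := by
      rintro rfl
      rw [hMb] at hαe
      exact hαe (by ring)
    have hP0 : ppe s Q ≠ 0 := parQ_ppe_ne s Q
    have h1 : M ^ 2 * pp s ∣ Ideal.span {w ^ 2} := by
      rw [Ideal.dvd_span_singleton, ← hMb]
      exact hcon
    have h2 : (M ^ 2 * ppe s Q) * Q.asIdeal ∣
        (M ^ 2 * ppe s Q) * (Ideal.span {2} ^ 2 * ppe s Q * K ^ 2) := by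
      have e1 : (M ^ 2 * ppe s Q) * Q.asIdeal = M ^ 2 * pp s := by
        rw [pp_eq s Q hQ]
        ring
      have e2 : (M ^ 2 * ppe s Q) * (Ideal.span {2} ^ 2 * ppe s Q * K ^ 2) =
          Ideal.span {w ^ 2} := by
        rw [← Ideal.span_singleton_pow, hK]
        ring
      rw [e1, e2]
      exact h1
    rw [mul_dvd_mul_iff_left (mul_ne_zero (pow_ne_zero 2 hM0) hP0)] at h2
    rcases Q.prime.dvd_or_dvd h2 with h3 | h3
    · rcases Q.prime.dvd_or_dvd h3 with h4 | h4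
      · have h5 := Q.prime.dvd_of_dvd_pow h4
        rw [Ideal.dvd_span_singleton] at h5
        exact hQ2 h5
      · exact parQ_dvd_ppe s Q h4
    · exact hQK (Q.prime.dvd_of_dvd_pow h3)

/-- Existence of the parameter at `Q`. -/
theorem exists_Q {F : Type*} [Field F] [NumberField F] (M : Ideal (𝓞 F)) (hM : M ≠ ⊥)
    (s : Finset (HeightOneSpectrum (𝓞 F))) (Q : HeightOneSpectrum (𝓞 F)) (hQ : Q ∈ s) :
    ∃ w ∈ Ideal.span {2} * M * ppe s Q, w ∉ Ideal.span {2} * M * pp s := by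
  by_contra hcon
  push Not at hcon
  rw [parQ_J M s Q hQ] at hcon
  have hJ0 : Ideal.span {2} * M * ppe s Q ≠ 0 := by
    refine mul_ne_zero (mul_ne_zero ?_ hM) (parQ_ppe_ne s Q)
    rw [Ne, Ideal.zero_eq_bot, Ideal.span_singleton_eq_bot]
    exact two_ne_zero
  generalize Ideal.span {2} * M * ppe s Q = J at hcon hJ0
  have h1 : J = Q.asIdeal * J := le_antisymm hcon Ideal.mul_le_right
  have h2 : Q.asIdeal * J = 1 * J := by rw [one_mul, ← h1]
  have h3 : Q.asIdeal = 1 := mul_right_cancel₀ hJ0 h2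
  exact Q.prime.not_isUnit (by rw [h3]; exact isUnit_one)

end

end Pool.Agent.Lib.MP_1a91b9_ntT.S1
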