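import Pool.Agent.Lib.MP_1a91b9_ntT.S1.Defs
import Pool.Agent.Lib.MP_1a91b9_ntT.S1.GsParam
import Pool.Agent.Lib.MP_1a91b9_ntT.S1.Qf

/-!
# ParTwo: the parametrisation of the part at 2

PROOF. `gs_param` with `A = 𝓞 F`, `S = span{2}`, `h y = y w`, `L = 2Mb`, `M := M b`.
`w` is odd and in `M b`; `1 = u w + 2 v` (`IsCoprime w 2`).
`y w ∈ M b` clear. `y w ∈ 2 M b ↔ y ∈ span{2}`: (⇐) clear. (⇒) `y w ∈ span{2}`, so
`y = u (y w) + 2 v y ∈ span{2}`. Surjectivity: `x ∈ M b`: take `y = x u`: `x - x u w = 2 v x ∈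
2 M b`. Periodicity: `x ∈ M b`, `l = 2 l'`, `l' ∈ M b`: `2 x l = 4 x l'`, `x l' ∈ (M b)² ≤ M² b =
span{α} e`; `l² = 4 l'²` likewise; `qf_period`.
-/

set_option autoImplicit false

namespace Pool.Agent.Lib.MP_1a91b9_ntT.S1

open NumberField Module IsDedekindDomain

noncomputable section

private theorem ParTwo_left {R : Type*} [CommRing R] {I J : Ideal R} {x : R} (h : x ∈ I * J) : x ∈ I :=
  (Ideal.mul_le_inf h).1

private theorem ParTwo_right {R : Type*} [CommRing R] {I J : Ideal R} {x : R} (h : x ∈ I * J) : x ∈ J :=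
  (Ideal.mul_le_inf h).2

private theorem ParTwo_mem {F : Type*} [Field F] [NumberField F] {e : Ideal (𝓞 F)}
    {α : 𝓞 F} {M b : Ideal (𝓞 F)} (hMb : Ideal.span {α} * e = M ^ 2 * b) {x y : 𝓞 F}
    (hx : x ∈ M * b) (hy : y ∈ M * b) : 4 * (x * y) ∈ Ideal.span {4 * α} * e := by
  have h1 : x * y ∈ (M * b) * (M * b) := Ideal.mul_mem_mul hx hy
  have h2 : (M * b) * (M * b) ≤ M ^ 2 * b := by
    have h3 : (M * b) * (M * b) = (M ^ 2 * b) * b := by ring
    rw [h3]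
    exact fun z hz => ParTwo_left hz
  have h4 : x * y ∈ Ideal.span {α} * e := by
    rw [hMb]
    exact h2 h1
  obtain ⟨z, hz, hzx⟩ := Ideal.mem_span_singleton_mul.1 h4
  rw [Ideal.mem_span_singleton_mul]
  exact ⟨z, hz, by rw [← hzx]; ring⟩

/-- The parametrisation of the part at `2`. -/
theorem par_two {F : Type*} [Field F] [NumberField F] {m : 𝓞 F} {e : Ideal (𝓞 F)}
    (h : Cod F m e) (α : 𝓞 F) (hα : α ≠ 0) (M b : Ideal (𝓞 F))
    (hMb : Ideal.span {α} * e = M ^ 2 * b) (w : 𝓞 F) (hw : w ∈ M * b) (hw2 : IsCoprime w 2) :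
    gs (Ideal.span {2} * M * b).toAddSubgroup (M * b).toAddSubgroup (qf m α) = T2 m α w := by
  unfold T2
  have hass : Ideal.span {2} * M * b = Ideal.span {(2 : 𝓞 F)} * (M * b) := by ring
  rw [hass]
  have key : ∀ a : 𝓞 F, a * w ∈ Ideal.span {(2 : 𝓞 F)} * (M * b) ↔ a ∈ Ideal.span {(2 : 𝓞 F)} := by
    intro a
    constructor
    · intro ha
      have h1 : a * w ∈ Ideal.span {(2 : 𝓞 F)} := ParTwo_left ha
      rw [Ideal.mem_span_singleton] at h1
      have h2 : (2 : 𝓞 F) ∣ a := hw2.symm.dvd_of_dvd_mul_right h1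
      exact Ideal.mem_span_singleton.2 h2
    · intro ha
      exact Ideal.mul_mem_mul ha hw
  have hsurj : ∀ x ∈ M * b, ∃ a : 𝓞 F, x - a * w ∈ Ideal.span {(2 : 𝓞 F)} * (M * b) := by
    intro x hx
    obtain ⟨u, v, huv⟩ := hw2
    refine ⟨x * u, ?_⟩
    have h1 : x - x * u * w = 2 * (v * x) := by linear_combination (-x) * huv
    rw [h1]
    exact Ideal.mul_mem_mul (Ideal.mem_span_singleton_self 2) (Ideal.mul_mem_left _ v hx)
  have hper : ∀ x ∈ M * b, ∀ l ∈ Ideal.span {(2 : 𝓞 F)} * (M * b), qf m α (x + l) = qf m α x := by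
    intro x hx l hl
    obtain ⟨l', hl', rfl⟩ := Ideal.mem_span_singleton_mul.1 hl
    refine qf_period h α hα x (2 * l') ?_ ?_
    · have h1 : 2 * (x * (2 * l')) = 4 * (x * l') := by ring
      rw [h1]
      exact ParTwo_mem hMb hx hl'
    · have h1 : (2 * l') ^ 2 = 4 * (l' * l') := by ring
      rw [h1]
      exact ParTwo_mem hMb hl' hl'
  have hle : ∀ x : 𝓞 F, x ∈ Ideal.span {(2 : 𝓞 F)} * (M * b) → x ∈ M * b := fun x hx => ParTwo_right hx
  have hmem : ∀ a : 𝓞 F, a * w ∈ M * b := fun a => Ideal.mul_mem_left _ a hw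
  generalize Ideal.span {(2 : 𝓞 F)} * (M * b) = L at key hsurj hper hle ⊢
  generalize Ideal.span {(2 : 𝓞 F)} = S at key ⊢
  generalize M * b = N at hsurj hper hle hmem ⊢
  exact gs_param L.toAddSubgroup N.toAddSubgroup S.toAddSubgroup (AddMonoidHom.mulRight w) (qf m α)
    hle hmem key hsurj hper

end

end Pool.Agent.Lib.MP_1a91b9_ntT.S1
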