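import Pool.Agent.Lib.MP_1a91b9_ntT.S1.Pos
import Pool.Agent.Lib.MP_1a91b9_ntT.S1.DecTwo
import Pool.Agent.Lib.MP_1a91b9_ntT.S1.DecOdd
import Pool.Agent.Lib.MP_1a91b9_ntT.S1.ParTwo
import Pool.Agent.Lib.MP_1a91b9_ntT.S1.ParQ
import Pool.Agent.Lib.MP_1a91b9_ntT.S1.ExistsFac

/-!
# The positive product of local sums attached to an odd element
-/

set_option autoImplicit false

namespace Pool.Agent.Lib.MP_1a91b9_ntT.S1

open NumberField Module IsDedekindDomain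

noncomputable section

variable {F : Type*} [Field F] [NumberField F]

/-- Existence of the parameter at `2`. -/
theorem exists_two (I : Ideal (𝓞 F)) (hI : IsCoprime I (Ideal.span {(2 : 𝓞 F)})) :
    ∃ w ∈ I, IsCoprime w 2 := by
  obtain ⟨x, hx, y, hy, hxy⟩ := Ideal.isCoprime_iff_exists.1 hI
  rw [Ideal.mem_span_singleton] at hy
  obtain ⟨z, rfl⟩ := hy
  exact ⟨x, hx, 1, z, by linear_combination hxy⟩

theorem data [IsTotallyComplex F] {m : 𝓞 F} {e : Ideal (𝓞 F)} (h : Cod F m e) (α : 𝓞 F)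
    (hα : α ≠ 0) (hα2 : IsCoprime α 2) :
    ∃ (s : Finset (HeightOneSpectrum (𝓞 F))) (w2 : 𝓞 F) (wq : HeightOneSpectrum (𝓞 F) → 𝓞 F)
      (r : ℝ), 0 < r ∧ (∀ Q : HeightOneSpectrum (𝓞 F),
        Q ∈ s ↔ Odd (od Q.asIdeal (Ideal.span {α} * e))) ∧
      (∀ Q ∈ s, (2 : 𝓞 F) ∉ Q.asIdeal) ∧ Adm2 e α w2 ∧ (∀ Q ∈ s, AdmQ e α Q.asIdeal (wq Q)) ∧
      T2 m α w2 * ∏ Q ∈ s, gQ m α Q.asIdeal (wq Q) = (r : ℂ) := by
  classical
  have hspan : Ideal.span {α} ≠ ⊥ := by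
    rw [Ne, Ideal.span_singleton_eq_bot]
    exact hα
  have hne : Ideal.span {α} * e ≠ ⊥ := by
    intro h0
    rcases mul_eq_zero.1 h0 with h1 | h1
    · exact hspan h1
    · exact h.e_ne h1
  obtain ⟨M, s, hMs, hs⟩ := exists_fac (Ideal.span {α} * e) hne
  have hcop : IsCoprime (Ideal.span {α} * e) (Ideal.span {(2 : 𝓞 F)}) := by
    apply IsCoprime.mul_left _ h.odd
    rw [Ideal.isCoprime_span_singleton_iff]
    exact hα2
  have hM0 : M ≠ ⊥ := by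
    rintro rfl
    apply hne
    rw [hMs]
    simp
  have hMb : M * pp s ∣ Ideal.span {α} * e := ⟨M, by rw [hMs]; ring⟩
  have hMb2 : IsCoprime (M * pp s) (Ideal.span {(2 : 𝓞 F)}) := hcop.of_isCoprime_of_dvd_left hMb
  have hpp2 : IsCoprime (pp s) (Ideal.span {(2 : 𝓞 F)}) :=
    hMb2.of_isCoprime_of_dvd_left (Dvd.intro_left M rfl)
  have hodd : ∀ Q ∈ s, (2 : 𝓞 F) ∉ Q.asIdeal := by
    intro Q hQ h2
    have h3 : IsCoprime Q.asIdeal (Ideal.span {(2 : 𝓞 F)}) :=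
      hpp2.of_isCoprime_of_dvd_left ⟨ppe s Q, pp_eq s Q hQ⟩
    rw [Ideal.isCoprime_iff_sup_eq] at h3
    apply Q.isPrime.ne_top
    rw [eq_top_iff, ← h3]
    apply sup_le le_rfl
    rw [Ideal.span_singleton_le_iff_mem]
    exact h2
  obtain ⟨w2, hw2, hw2'⟩ := exists_two _ hMb2
  have hex : ∀ Q : HeightOneSpectrum (𝓞 F), ∃ w : 𝓞 F, Q ∈ s →
      w ∈ Ideal.span {2} * M * ppe s Q ∧ w ∉ Ideal.span {2} * M * pp s := by
    intro Q
    by_cases hQ : Q ∈ s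
    · obtain ⟨w, hw, hw'⟩ := exists_Q M hM0 s Q hQ
      exact ⟨w, fun _ => ⟨hw, hw'⟩⟩
    · exact ⟨0, fun h => absurd h hQ⟩
  choose wq hwq using hex
  obtain ⟨r, hr, hgr⟩ := gauss_ideal h α hα M (pp s) hMs
  refine ⟨s, w2, wq, r, hr, hs, hodd, ⟨hw2', ?_⟩, ?_, ?_⟩
  · rw [hMs]
    have h5 : w2 ^ 2 ∈ (M * pp s) ^ 2 := Ideal.pow_mem_pow hw2 2
    have h6 : (M * pp s) ^ 2 ≤ M ^ 2 * pp s := by
      have : (M * pp s) ^ 2 = M ^ 2 * pp s * pp s := by ring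
      rw [this]
      exact Ideal.mul_le_left
    exact h6 h5
  · intro Q hQ
    exact adm_Q h.e_ne α hα M s hMs Q hQ (hodd Q hQ) (wq Q) (hwq Q hQ).1 (hwq Q hQ).2
  · rw [← hgr, dec_two h α hα M (pp s) hMs hpp2, dec_odd h α hα M s hMs,
      par_two h α hα M (pp s) hMs w2 hw2 hw2']
    congr 1
    apply Finset.prod_congr rfl
    intro Q hQ
    exact (par_Q h α hα M s hMs Q hQ (wq Q) (hwq Q hQ).1 (hwq Q hQ).2).symm

end

end Pool.Agent.Lib.MP_1a91b9_ntT.S1
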