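import Mathlib
import Pool.Agent.Lib.MP_1a91b9_ntT.Base

/-!
# Stream S1: definitions and elementary facts
-/

set_option autoImplicit false

namespace Pool.Agent.Lib.MP_1a91b9_ntT.S1

open NumberField Module IsDedekindDomain

noncomputable section

/-- The sum of `f` over representatives of `A / S`. -/
def gq {A : Type*} [AddCommGroup A] (S : AddSubgroup A) (f : A → ℂ) : ℂ :=
  ∑ᶠ c : A ⧸ S, f c.out

/-- The sum of `f` over representatives of `M / (L ⊓ M)`. -/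
def gs {V : Type*} [AddCommGroup V] (L M : AddSubgroup V) (f : V → ℂ) : ℂ :=
  gq (L.addSubgroupOf M) (fun x : M => f (x : V))

/-- The rational number `q` is an integer. -/
def IsZ (q : ℚ) : Prop := ∃ n : ℤ, (n : ℚ) = q

theorem IsZ.add {p q : ℚ} (hp : IsZ p) (hq : IsZ q) : IsZ (p + q) := by
  obtain ⟨m, rfl⟩ := hp
  obtain ⟨n, rfl⟩ := hq
  exact ⟨m + n, by push_cast; rfl⟩

theorem IsZ.neg {p : ℚ} (hp : IsZ p) : IsZ (-p) := by
  obtain ⟨m, rfl⟩ := hp
  exact ⟨-m, by push_cast; rfl⟩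

theorem IsZ.sub {p q : ℚ} (hp : IsZ p) (hq : IsZ q) : IsZ (p - q) := by
  obtain ⟨m, rfl⟩ := hp
  obtain ⟨n, rfl⟩ := hq
  exact ⟨m - n, by push_cast; rfl⟩

theorem IsZ.mul {p q : ℚ} (hp : IsZ p) (hq : IsZ q) : IsZ (p * q) := by
  obtain ⟨m, rfl⟩ := hp
  obtain ⟨n, rfl⟩ := hq
  exact ⟨m * n, by push_cast; rfl⟩

theorem IsZ.int (n : ℤ) : IsZ (n : ℚ) := ⟨n, rfl⟩

theorem IsZ.zero : IsZ 0 := ⟨0, by simp⟩

/-- `exp (2 π i Tr x)`. -/
def ee {F : Type*} [Field F] [NumberField F] (x : F) : ℂ :=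
  Complex.exp (2 * Real.pi * Complex.I * ((Algebra.trace ℚ F x : ℚ) : ℂ))

theorem ee_zero {F : Type*} [Field F] [NumberField F] : ee (0 : F) = 1 := by
  simp [ee]

theorem ee_add {F : Type*} [Field F] [NumberField F] (x y : F) : ee (x + y) = ee x * ee y := by
  rw [ee, ee, ee, ← Complex.exp_add, map_add]
  congr 1
  push_cast
  ring

theorem ee_eq_one_iff {F : Type*} [Field F] [NumberField F] (x : F) :
    ee x = 1 ↔ IsZ (Algebra.trace ℚ F x) := by
  rw [ee, Complex.exp_eq_one_iff]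
  have h2 : (2 * (Real.pi : ℂ) * Complex.I) ≠ 0 := by
    simp [Real.pi_ne_zero, Complex.I_ne_zero]
  constructor
  · rintro ⟨n, hn⟩
    refine ⟨n, ?_⟩
    have h3 : ((Algebra.trace ℚ F x : ℚ) : ℂ) = (n : ℂ) := by
      have h4 : 2 * (Real.pi : ℂ) * Complex.I * ((Algebra.trace ℚ F x : ℚ) : ℂ)
          = 2 * (Real.pi : ℂ) * Complex.I * (n : ℂ) := by rw [hn]; ring
      exact mul_left_cancel₀ h2 h4
    have h5 : ((Algebra.trace ℚ F x : ℚ) : ℂ) = (((n : ℚ) : ℚ) : ℂ) := by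
      rw [h3]; push_cast; rfl
    exact_mod_cast h5.symm
  · rintro ⟨n, hn⟩
    refine ⟨n, ?_⟩
    rw [← hn]
    push_cast
    ring

theorem ee_ne_zero {F : Type*} [Field F] [NumberField F] (x : F) : ee x ≠ 0 :=
  Complex.exp_ne_zero _

theorem ee_congr {F : Type*} [Field F] [NumberField F] {x y : F}
    (h : IsZ (Algebra.trace ℚ F (x - y))) : ee x = ee y := by
  have h1 : ee (x - y) = 1 := (ee_eq_one_iff _).2 h
  have h2 : ee x = ee (x - y) * ee y := by rw [← ee_add]; congr 1; ring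
  rw [h2, h1, one_mul]

/-- The complementary data: `m O = different * e`, with `e` odd. -/
structure Cod (F : Type*) [Field F] [NumberField F] (m : 𝓞 F) (e : Ideal (𝓞 F)) : Prop where
  ne : m ≠ 0
  eq : Ideal.span {m} = differentIdeal ℤ (𝓞 F) * e
  odd : IsCoprime e (Ideal.span {(2 : 𝓞 F)})

theorem Cod.e_ne {F : Type*} [Field F] [NumberField F] {m : 𝓞 F} {e : Ideal (𝓞 F)}
    (h : Cod F m e) : e ≠ ⊥ := by
  rintro rfl
  have h3 := h.eq
  rw [Ideal.mul_bot] at h3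
  exact h.ne (by simpa using h3)

/-- `exp (π i / 4)`. -/
def z8 : ℂ := Complex.exp (Real.pi * Complex.I / 4)

/-- The one dimensional Gauss sum attached to the integer `a ≠ 0`. -/
def g1 (a : ℤ) : ℂ :=
  ∑ n ∈ Finset.range (2 * a.natAbs),
    Complex.exp (2 * Real.pi * Complex.I * (((n : ℚ) ^ 2 / (4 * a) : ℚ) : ℂ))

/-- The lattice of all `x` whose coordinates `x_i` satisfy `d_i x_i ∈ ℤ`. -/
def latt {F : Type*} [Field F] [NumberField F] {ι : Type*} [Fintype ι] (b : Basis ι ℚ F)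
    (d : ι → ℤ) : AddSubgroup F where
  carrier := {x | ∀ i, IsZ (d i * b.repr x i)}
  zero_mem' := by
    intro i
    simpa using IsZ.zero
  add_mem' := by
    intro x y hx hy i
    have := (hx i).add (hy i)
    simpa [mul_add] using this
  neg_mem' := by
    intro x hx i
    have := (hx i).neg
    simpa [mul_neg] using this

theorem mem_latt {F : Type*} [Field F] [NumberField F] {ι : Type*} [Fintype ι]
    (b : Basis ι ℚ F) (d : ι → ℤ) (x : F) :
    x ∈ latt b d ↔ ∀ i, IsZ (d i * b.repr x i) := Iff.rfl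

/-- The image of an ideal in the field. -/
def imI {F : Type*} [Field F] (I : Ideal (𝓞 F)) : AddSubgroup F :=
  I.toAddSubgroup.map (algebraMap (𝓞 F) F).toAddMonoidHom

theorem mem_imI {F : Type*} [Field F] (I : Ideal (𝓞 F)) (x : F) :
    x ∈ imI I ↔ ∃ y ∈ I, (y : F) = x := Iff.rfl

/-- The quadratic function `exp (2 π i Tr (x² / (4 m α)))`. -/
def qf {F : Type*} [Field F] [NumberField F] (m α : 𝓞 F) (x : 𝓞 F) : ℂ :=
  ee ((x : F) ^ 2 / (4 * m * α))

/-- The product of the primes of a finite set. -/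
def pp {F : Type*} [Field F] (s : Finset (HeightOneSpectrum (𝓞 F))) : Ideal (𝓞 F) :=
  ∏ Q ∈ s, Q.asIdeal

/-- The product of the primes of a finite set which are different from `Q`. -/
def ppe {F : Type*} [Field F] (s : Finset (HeightOneSpectrum (𝓞 F)))
    (Q : HeightOneSpectrum (𝓞 F)) : Ideal (𝓞 F) := by
  classical exact pp (s.erase Q)

theorem pp_eq {F : Type*} [Field F] (s : Finset (HeightOneSpectrum (𝓞 F)))
    (Q : HeightOneSpectrum (𝓞 F)) (hQ : Q ∈ s) :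
    pp s = Q.asIdeal * ppe s Q := by
  classical
  unfold pp ppe pp
  rw [Finset.mul_prod_erase s _ hQ]

/-- The exponent of `Q` in `I`. -/
def od {F : Type*} [Field F] [NumberField F] (Q I : Ideal (𝓞 F)) : ℕ := by
  classical exact Multiset.count Q (UniqueFactorizationMonoid.normalizedFactors I)

/-- The sum at the prime `2`. -/
def T2 {F : Type*} [Field F] [NumberField F] (m α w : 𝓞 F) : ℂ :=
  gq (Ideal.span {(2 : 𝓞 F)}).toAddSubgroup (fun y => qf m α (y * w))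

/-- The sum at the prime `Q`. -/
def gQ {F : Type*} [Field F] [NumberField F] (m α : 𝓞 F) (Q : Ideal (𝓞 F)) (w : 𝓞 F) : ℂ :=
  gq Q.toAddSubgroup (fun y => qf m α (y * w))

/-- Admissible parameters at `2`. -/
def Adm2 {F : Type*} [Field F] (e : Ideal (𝓞 F)) (α w : 𝓞 F) : Prop :=
  IsCoprime w 2 ∧ w ^ 2 ∈ Ideal.span {α} * e

/-- Admissible parameters at `Q`. -/
def AdmQ {F : Type*} [Field F] (e : Ideal (𝓞 F)) (α : 𝓞 F) (Q : Ideal (𝓞 F)) (w : 𝓞 F) : Prop :=
  (∀ t ∈ Q, t * w ^ 2 ∈ Ideal.span {4 * α} * e) ∧ w ^ 2 ∉ Ideal.span {α} * e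

/-- `β` has even order `2k` at `Q` and is a square modulo `Q ^ (2k+1)`. -/
def IsSqAt {F : Type*} [Field F] (Q : HeightOneSpectrum (𝓞 F)) (β : 𝓞 F) : Prop :=
  ∃ (x : 𝓞 F) (k : ℕ), β ∈ Q.asIdeal ^ (2 * k) ∧ β ∉ Q.asIdeal ^ (2 * k + 1) ∧
    x ^ 2 - β ∈ Q.asIdeal ^ (2 * k + 1)

/-- The quadratic symbol of `β` at `Q`: `0` if the order of `β` at `Q` is odd. -/
def chi {F : Type*} [Field F] (Q : HeightOneSpectrum (𝓞 F)) (β : 𝓞 F) : ℤ := by
  classical exact if OddAt Q β then 0 else if IsSqAt Q β then 1 else -1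

theorem chi_of_not_odd {F : Type*} [Field F] (Q : HeightOneSpectrum (𝓞 F)) (β : 𝓞 F)
    (h : ¬ OddAt Q β) : chi Q β = 1 ∨ chi Q β = -1 := by
  unfold chi
  rw [if_neg h]
  by_cases h2 : IsSqAt Q β
  · left; rw [if_pos h2]
  · right; rw [if_neg h2]

theorem chi_of_odd {F : Type*} [Field F] (Q : HeightOneSpectrum (𝓞 F)) (β : 𝓞 F)
    (h : OddAt Q β) : chi Q β = 0 := by
  unfold chi
  rw [if_pos h]

theorem chi_of_sq {F : Type*} [Field F] (Q : HeightOneSpectrum (𝓞 F)) (β : 𝓞 F)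
    (h : ¬ OddAt Q β) (h2 : IsSqAt Q β) : chi Q β = 1 := by
  unfold chi
  rw [if_neg h, if_pos h2]

theorem chi_of_nsq {F : Type*} [Field F] (Q : HeightOneSpectrum (𝓞 F)) (β : 𝓞 F)
    (h : ¬ OddAt Q β) (h2 : ¬ IsSqAt Q β) : chi Q β = -1 := by
  unfold chi
  rw [if_neg h, if_neg h2]

end

end Pool.Agent.Lib.MP_1a91b9_ntT.S1
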