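import Pool.Agent.Lib.MP_1a91b9_ntT.S1.Defs

/-!
# LattFin: the diagonal lattices

PROOF. `latt_fin`: `latt b 1 ≤ latt b (2a)`; the index is finite (nonzero): with
`N = prod_i 2 |a_i|` (or each coordinate) every `x ∈ latt b (2a)` satisfies `N x ∈ latt b 1`, and
`latt b (2a)` is finitely generated (by `b_i/(2a_i)`); or directly: the map `latt b (2a) →
prod_i ZMod (2 |a_i|)`, `x ↦ (2 a_i x_i mod 2|a_i|)_i` is a homomorphism with kernel exactly
`latt b 1`, so the quotient is finite (`AddSubgroup.index_ne_zero...` from an injective map of the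
quotient to a finite type; `AddMonoidHom.ker`, `AddSubgroup.index_ker`,
`relIndex = (latt b 1).addSubgroupOf _ |>.index`). To define the map use `Classical.choose` of
the integer in `IsZ`, or `Int.floor`/`Rat.num`.
`latt_one_le`: `x = sum_i (b.repr x i) b_i` (`Basis.sum_repr`) with integer coordinates `n_i`,
`n_i • b_i ∈ L`, sum in `L`.
`latt_dual`: `x = sum x_i b_i`, `y = sum y_i b_i`; `Tr(2δ x y) = sum_i 2 a_i x_i y_i`
(orthogonality, `Tr(δ b_i²) = a_i`). If all `2 a_i x_i ∈ ℤ` and all `y_i ∈ ℤ` the sum is an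
integer. Conversely take `y = b_i` (its coordinates are `0/1`).
-/

set_option autoImplicit false

namespace Pool.Agent.Lib.MP_1a91b9_ntT.S1

open NumberField Module IsDedekindDomain

noncomputable section

/-- The coordinate homomorphism `x ↦ 2 a_i x_i`. -/
def lattFin_hom {F : Type*} [Field F] [NumberField F] {ι : Type*} [Fintype ι]
    (b : Basis ι ℚ F) (a : ι → ℤ) (i : ι) : (latt b (fun i => 2 * a i)) →+ ℤ where
  toFun x := ⌊((2 * a i : ℤ) : ℚ) * b.repr (x : F) i⌋
  map_zero' := by simp
  map_add' := by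
    intro x y
    obtain ⟨m, hm⟩ := x.2 i
    obtain ⟨n, hn⟩ := y.2 i
    have h1 : ((2 * a i : ℤ) : ℚ) * b.repr ((x + y : latt b (fun i => 2 * a i)) : F) i
        = ((m + n : ℤ) : ℚ) := by
      rw [AddSubgroup.coe_add, map_add, Finsupp.add_apply, mul_add]
      push_cast at hm hn ⊢
      rw [hm, hn]
    have hm' : ((2 * a i : ℤ) : ℚ) * b.repr (x : F) i = (m : ℚ) := hm.symm
    have hn' : ((2 * a i : ℤ) : ℚ) * b.repr (y : F) i = (n : ℚ) := hn.symm
    rw [h1, hm', hn', Int.floor_intCast, Int.floor_intCast, Int.floor_intCast]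

theorem lattFin_hom_cast {F : Type*} [Field F] [NumberField F] {ι : Type*} [Fintype ι]
    (b : Basis ι ℚ F) (a : ι → ℤ) (i : ι) (x : latt b (fun i => 2 * a i)) :
    ((lattFin_hom b a i x : ℤ) : ℚ) = 2 * (a i : ℚ) * b.repr (x : F) i := by
  obtain ⟨m, hm⟩ := x.2 i
  have hm' : ((2 * a i : ℤ) : ℚ) * b.repr (x : F) i = (m : ℚ) := hm.symm
  have h1 : lattFin_hom b a i x = m := by
    show ⌊((2 * a i : ℤ) : ℚ) * b.repr (x : F) i⌋ = m
    rw [hm', Int.floor_intCast]
  rw [h1, ← hm']
  push_cast
  ring

theorem latt_fin {F : Type*} [Field F] [NumberField F] {ι : Type*} [Fintype ι]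
    (b : Basis ι ℚ F) (a : ι → ℤ) (ha : ∀ i, a i ≠ 0) :
    (latt b 1).relIndex (latt b (fun i => 2 * a i)) ≠ 0 := by
  classical
  obtain ⟨φ, hφ⟩ : ∃ φ : (latt b (fun i => 2 * a i)) →+ (∀ i, ZMod (2 * (a i).natAbs)),
      ∀ x i, φ x i = ((lattFin_hom b a i x : ℤ) : ZMod (2 * (a i).natAbs)) :=
    ⟨AddMonoidHom.pi (fun i => (Int.castAddHom (ZMod (2 * (a i).natAbs))).comp (lattFin_hom b a i)),
      fun x i => rfl⟩
  have hne : ∀ i, NeZero (2 * (a i).natAbs) := by
    intro i
    refine ⟨?_⟩
    have := Int.natAbs_ne_zero.mpr (ha i)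
    omega
  have hfin : Finite (∀ i, ZMod (2 * (a i).natAbs)) := by
    have : ∀ i, Finite (ZMod (2 * (a i).natAbs)) := by
      intro i
      have := hne i
      infer_instance
    infer_instance
  have hker : (latt b 1).addSubgroupOf (latt b (fun i => 2 * a i)) = φ.ker := by
    ext x
    rw [AddSubgroup.mem_addSubgroupOf, AddMonoidHom.mem_ker, mem_latt]
    have hx := fun i => lattFin_hom_cast b a i x
    constructor
    · intro h
      funext i
      rw [hφ, Pi.zero_apply, ZMod.intCast_zmod_eq_zero_iff_dvd]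
      obtain ⟨k, hk⟩ := h i
      have hk' : (k : ℚ) = b.repr (x : F) i := by
        rw [hk]
        simp
      have h1 : lattFin_hom b a i x = 2 * a i * k := by
        have := hx i
        rw [← hk'] at this
        exact_mod_cast this
      rw [h1]
      push_cast
      exact Dvd.dvd.mul_right (mul_dvd_mul_left 2 (by simp)) k
    · intro h i
      have h1 : φ x i = 0 := by rw [h]; rfl
      rw [hφ, ZMod.intCast_zmod_eq_zero_iff_dvd] at h1
      push_cast at h1
      have h2 : (2 * a i) ∣ lattFin_hom b a i x := by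
        refine dvd_trans ?_ h1
        exact mul_dvd_mul_left 2 (by simp)
      obtain ⟨k, hk⟩ := h2
      refine ⟨k, ?_⟩
      have h3 := hx i
      rw [hk] at h3
      push_cast at h3
      have ha' : (a i : ℚ) ≠ 0 := by exact_mod_cast ha i
      have h4 : (2 * (a i : ℚ)) ≠ 0 := mul_ne_zero two_ne_zero ha'
      have h5 := mul_left_cancel₀ h4 h3
      rw [h5]
      simp
  rw [AddSubgroup.relIndex, hker, AddSubgroup.index_ker]
  exact Nat.card_pos.ne'

theorem lattFin_trace {F : Type*} [Field F] [NumberField F] {ι : Type*} [Fintype ι] (δ : F)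
    (b : Basis ι ℚ F) (a : ι → ℤ)
    (horth : ∀ i j, i ≠ j → Algebra.trace ℚ F (δ * (b i * b j)) = 0)
    (hq : ∀ i, Algebra.trace ℚ F (δ * b i ^ 2) = a i) (x y : F) :
    Algebra.trace ℚ F (2 * δ * (x * y)) = ∑ i, (2 * (a i : ℚ) * b.repr x i) * b.repr y i := by
  have key : ∀ c d : ι → ℚ, Algebra.trace ℚ F (δ * ((∑ i, c i • b i) * (∑ j, d j • b j))) =
      ∑ i, (a i : ℚ) * (c i * d i) := by
    intro c d
    rw [Finset.sum_mul_sum, Finset.mul_sum, map_sum]
    apply Finset.sum_congr rfl
    intro i _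
    rw [Finset.mul_sum, map_sum]
    have h1 : ∀ j, Algebra.trace ℚ F (δ * (c i • b i * d j • b j)) =
        (c i * d j) * Algebra.trace ℚ F (δ * (b i * b j)) := by
      intro j
      have h2 : δ * (c i • b i * d j • b j) = (c i * d j) • (δ * (b i * b j)) := by
        simp only [Algebra.smul_def, map_mul]
        ring
      rw [h2, map_smul, smul_eq_mul]
    rw [Finset.sum_eq_single i]
    · rw [h1, ← pow_two, hq]
      ring
    · intro j _ hj
      rw [h1, horth i j (Ne.symm hj), mul_zero]
    · intro h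
      exact absurd (Finset.mem_univ i) h
  have h1 := key (fun i => b.repr x i) (fun i => b.repr y i)
  rw [b.sum_repr x, b.sum_repr y] at h1
  have h2 : 2 * δ * (x * y) = (2 : ℚ) • (δ * (x * y)) := by
    rw [Algebra.smul_def, map_ofNat]
    ring
  rw [h2, map_smul, smul_eq_mul, h1, Finset.mul_sum]
  apply Finset.sum_congr rfl
  intro i _
  ring

theorem lattFin_isZ_sum {ι : Type*} (s : Finset ι) (f : ι → ℚ) (h : ∀ i ∈ s, IsZ (f i)) :
    IsZ (∑ i ∈ s, f i) := by
  classical
  induction s using Finset.induction_on with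
  | empty => simpa using IsZ.zero
  | insert i s hi ih =>
    rw [Finset.sum_insert hi]
    exact (h i (Finset.mem_insert_self i s)).add (ih (fun j hj => h j (Finset.mem_insert_of_mem hj)))

/-- The lattice `latt b (2a)` is the dual of `latt b 1`. -/
theorem latt_dual {F : Type*} [Field F] [NumberField F] {ι : Type*} [Fintype ι] (δ : F)
    (b : Basis ι ℚ F) (a : ι → ℤ) (ha : ∀ i, a i ≠ 0)
    (horth : ∀ i j, i ≠ j → Algebra.trace ℚ F (δ * (b i * b j)) = 0)
    (hq : ∀ i, Algebra.trace ℚ F (δ * b i ^ 2) = a i) (x : F) :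
    x ∈ latt b (fun i => 2 * a i) ↔
      ∀ y ∈ latt b 1, IsZ (Algebra.trace ℚ F (2 * δ * (x * y))) := by
  classical
  constructor
  · intro hx y hy
    rw [lattFin_trace δ b a horth hq]
    apply lattFin_isZ_sum
    intro i _
    have h1 : IsZ (2 * (a i : ℚ) * b.repr x i) := by
      have := (mem_latt b _ x).1 hx i
      push_cast at this
      exact this
    have h2 : IsZ (b.repr y i) := by
      have := (mem_latt b _ y).1 hy i
      simpa using this
    exact h1.mul h2
  · intro h
    rw [mem_latt]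
    intro i
    have hb : b i ∈ latt b 1 := by
      rw [mem_latt]
      intro j
      rw [b.repr_self, Finsupp.single_apply]
      split_ifs
      · simpa using IsZ.int 1
      · simpa using IsZ.zero
    have h1 := h (b i) hb
    rw [lattFin_trace δ b a horth hq, Finset.sum_eq_single i] at h1
    · rw [b.repr_self, Finsupp.single_eq_same, mul_one] at h1
      push_cast
      exact h1
    · intro j _ hj
      rw [b.repr_self, Finsupp.single_apply, if_neg (Ne.symm hj), mul_zero]
    · intro h2
      exact absurd (Finset.mem_univ i) h2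

/-- `latt b 1` is contained in every additive subgroup which contains the basis. -/
theorem latt_one_le {F : Type*} [Field F] [NumberField F] {ι : Type*} [Fintype ι]
    (b : Basis ι ℚ F) (L : AddSubgroup F) (hb : ∀ i, b i ∈ L) : latt b 1 ≤ L := by
  intro x hx
  rw [mem_latt] at hx
  rw [← b.sum_repr x]
  apply AddSubgroup.sum_mem
  intro i _
  obtain ⟨n, hn⟩ := hx i
  have h1 : b.repr x i = (n : ℚ) := by
    rw [hn]
    simp
  rw [h1, Int.cast_smul_eq_zsmul]
  exact L.zsmul_mem (hb i) n

end

end Pool.Agent.Lib.MP_1a91b9_ntT.S1
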