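import Pool.Agent.Lib.MP_1a91b9_ntT.S1.Defs
import Pool.Agent.Lib.MP_1a91b9_ntT.S1.GsParam
import Pool.Agent.Lib.MP_1a91b9_ntT.S1.LattFin

/-!
# DiagGauss: the Gauss sum of the diagonal lattice is a product

PROOF. Use `gs_param` (file GsParam) with `A = (ι → ℤ)`, `S = {n : ∀ i, 2 a_i ∣ n_i}`,
`h n = sum_i (n_i / (2 a_i)) b_i` (an additive homomorphism `(ι → ℤ) →+ F`),
`L = latt b 1`, `M = latt b (2a)`, `f x = ee (δ x²)`:
- `h n ∈ M`, `h n ∈ L ↔ ∀ i, 2 a_i ∣ n_i`, surjective onto `M` (even `x = h n`);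
- periodicity: `δ (x+l)² - δ x² = 2 δ x l + δ l²`; `Tr (2 δ x l) ∈ ℤ` by `latt_dual` (LattFin),
  `Tr (δ l²) = sum a_i l_i² ∈ ℤ`; `ee_congr`.
So `gs = gq S (fun n => ee (δ (h n)²))` and `Tr (δ (h n)²) = sum_i a_i (n_i/(2a_i))² =
sum_i n_i²/(4 a_i)`, so `ee (δ (h n)²) = prod_i exp (2 π i n_i²/(4a_i)) =: prod_i F_i n_i`, with
`F_i` periodic modulo `2 a_i`: `(n + 2 a k)²/(4a) = n²/(4a) + n k + a k²`.
Finally `(ι → ℤ)/S` is in bijection with `prod_i Fin (2 |a_i|)` (`n ↦ (n_i mod 2|a_i|)`), i.e. with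
the `Fintype.piFinset` of the ranges, and `Finset.prod_univ_sum` gives
`prod_i sum_{n < 2|a_i|} F_i n = prod_i g1 (a_i)`. (Reindex the `finsum` over `(ι → ℤ)/S` with
`finsum_eq_of_bijective` along `(i ↦ (n_i : Fin (2|a_i|))) ↦ mk (n)`.)
-/

set_option autoImplicit false

namespace Pool.Agent.Lib.MP_1a91b9_ntT.S1

open NumberField Module IsDedekindDomain

noncomputable section

theorem DiagGauss_trace {F : Type*} [Field F] [NumberField F] {ι : Type*} [Fintype ι] (δ : F)
    (b : Basis ι ℚ F) (a : ι → ℤ)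
    (horth : ∀ i j, i ≠ j → Algebra.trace ℚ F (δ * (b i * b j)) = 0)
    (hq : ∀ i, Algebra.trace ℚ F (δ * b i ^ 2) = a i) (x : F) :
    Algebra.trace ℚ F (δ * x ^ 2) = ∑ i, (a i : ℚ) * (b.repr x i) ^ 2 := by
  have h1 : δ * x ^ 2 = ∑ i, ∑ j, (b.repr x i * b.repr x j) • (δ * (b i * b j)) := by
    have h2 : x ^ 2 = ∑ i, ∑ j, (b.repr x i * b.repr x j) • (b i * b j) := by
      conv_lhs => rw [← b.sum_repr x]
      rw [sq, Finset.sum_mul_sum]
      refine Finset.sum_congr rfl fun i _ => Finset.sum_congr rfl fun j _ => ?_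
      rw [smul_mul_smul_comm]
    rw [h2, Finset.mul_sum]
    refine Finset.sum_congr rfl fun i _ => ?_
    rw [Finset.mul_sum]
    refine Finset.sum_congr rfl fun j _ => ?_
    rw [mul_smul_comm]
  rw [h1, map_sum]
  refine Finset.sum_congr rfl fun i _ => ?_
  rw [map_sum, Finset.sum_eq_single i]
  · rw [map_smul, ← sq (b i), hq i, smul_eq_mul]
    ring
  · intro j _ hj
    rw [map_smul, horth i j hj.symm, smul_zero]
  · intro h
    exact absurd (Finset.mem_univ i) h

/-- one factor -/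
def DiagGauss_F (a : ℤ) (k : ℤ) : ℂ :=
  Complex.exp (2 * Real.pi * Complex.I * (((k : ℚ) ^ 2 / (4 * a) : ℚ) : ℂ))

theorem DiagGauss_per {a : ℤ} (ha : a ≠ 0) {k l : ℤ} (h : 2 * a ∣ k - l) :
    DiagGauss_F a k = DiagGauss_F a l := by
  obtain ⟨t, ht⟩ := h
  have hk : k = l + 2 * a * t := by linarith
  unfold DiagGauss_F
  have ha' : (a : ℚ) ≠ 0 := by exact_mod_cast ha
  have e1 : ((k : ℚ) ^ 2 / (4 * a)) = (l : ℚ) ^ 2 / (4 * a) + ((l * t + a * t ^ 2 : ℤ) : ℚ) := by
    rw [hk]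
    push_cast
    field_simp
    ring
  rw [e1, Rat.cast_add, mul_add, Complex.exp_add]
  have e2 : Complex.exp (2 * Real.pi * Complex.I * ((((l * t + a * t ^ 2 : ℤ) : ℚ) : ℚ) : ℂ)) = 1 := by
    rw [Complex.exp_eq_one_iff]
    refine ⟨l * t + a * t ^ 2, ?_⟩
    push_cast
    ring
  rw [e2, mul_one]

theorem DiagGauss_g1 (a : ℤ) : g1 a = ∑ u : Fin (2 * a.natAbs), DiagGauss_F a ((u : ℕ) : ℤ) := by
  unfold g1 DiagGauss_F
  rw [Finset.sum_range]
  refine Finset.sum_congr rfl fun u _ => ?_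
  rw [Int.cast_natCast]

theorem DiagGauss_dvd {a : ℤ} {u v : Fin (2 * a.natAbs)}
    (h : 2 * a ∣ ((u : ℕ) : ℤ) - ((v : ℕ) : ℤ)) : u = v := by
  have hu := u.2
  have hv := v.2
  obtain ⟨t, ht⟩ := h
  have h2 : (2 * (a.natAbs : ℤ)) ∣ ((u : ℕ) : ℤ) - ((v : ℕ) : ℤ) := by
    rw [ht]
    rcases Int.natAbs_eq a with h3 | h3
    · exact ⟨t, by rw [← h3]⟩
    · refine ⟨-t, ?_⟩
      have h4 : (a.natAbs : ℤ) = -a := by omega
      rw [h4]
      ring
  have h5 : ((u : ℕ) : ℤ) - ((v : ℕ) : ℤ) = 0 := by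
    refine Int.eq_zero_of_abs_lt_dvd h2 ?_
    rw [abs_lt]
    constructor <;> omega
  exact Fin.ext (by omega)

/-- the sublattice -/
def DiagGauss_S {ι : Type*} (a : ι → ℤ) : AddSubgroup (ι → ℤ) where
  carrier := {n | ∀ i, 2 * a i ∣ n i}
  zero_mem' := fun i => dvd_zero _
  add_mem' := fun hx hy i => dvd_add (hx i) (hy i)
  neg_mem' := fun hx i => (dvd_neg).2 (hx i)

theorem DiagGauss_gq {ι : Type*} [Fintype ι] (a : ι → ℤ) (ha : ∀ i, a i ≠ 0) :
    gq (DiagGauss_S a) (fun n => ∏ i, DiagGauss_F (a i) (n i)) = ∏ i, g1 (a i) := by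
  classical
  have hper : ∀ n n' : ι → ℤ, n - n' ∈ DiagGauss_S a →
      ∏ i, DiagGauss_F (a i) (n i) = ∏ i, DiagGauss_F (a i) (n' i) := by
    intro n n' h
    exact Finset.prod_congr rfl fun i _ => DiagGauss_per (ha i) (h i)
  let e : (∀ i, Fin (2 * (a i).natAbs)) → (ι → ℤ) ⧸ DiagGauss_S a :=
    fun u => QuotientAddGroup.mk (fun i => ((u i : ℕ) : ℤ))
  have he : Function.Bijective e := by
    constructor
    · intro u v huv
      have h1 : -(fun i => ((u i : ℕ) : ℤ)) + (fun i => ((v i : ℕ) : ℤ)) ∈ DiagGauss_S a :=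
        QuotientAddGroup.eq.1 huv
      funext i
      have h2 : 2 * a i ∣ -((u i : ℕ) : ℤ) + ((v i : ℕ) : ℤ) := h1 i
      refine DiagGauss_dvd ?_
      rw [← dvd_neg]
      have h3 : -(((u i : ℕ) : ℤ) - ((v i : ℕ) : ℤ)) = -((u i : ℕ) : ℤ) + ((v i : ℕ) : ℤ) := by ring
      rw [h3]
      exact h2
    · intro c
      obtain ⟨n, rfl⟩ := QuotientAddGroup.mk_surjective c
      have hpos : ∀ i, (0 : ℤ) < 2 * ((a i).natAbs : ℤ) := fun i => by
        have := ha i
        omega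
      refine ⟨fun i => ⟨(n i % (2 * ((a i).natAbs : ℤ))).toNat, ?_⟩, ?_⟩
      · have h1 := Int.emod_nonneg (n i) (hpos i).ne'
        have h2 := Int.emod_lt_of_pos (n i) (hpos i)
        omega
      · refine QuotientAddGroup.eq.2 fun i => ?_
        show 2 * a i ∣ -(((n i % (2 * ((a i).natAbs : ℤ))).toNat : ℕ) : ℤ) + n i
        have h1 := Int.emod_nonneg (n i) (hpos i).ne'
        rw [Int.toNat_of_nonneg h1]
        have h2 : -(n i % (2 * ((a i).natAbs : ℤ))) + n i =
            2 * ((a i).natAbs : ℤ) * (n i / (2 * ((a i).natAbs : ℤ))) := by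
          have := Int.mul_ediv_add_emod (n i) (2 * ((a i).natAbs : ℤ))
          linarith
        rw [h2]
        refine Dvd.dvd.mul_right ?_ _
        rcases Int.natAbs_eq (a i) with h3 | h3
        · rw [← h3]
        · have h4 : ((a i).natAbs : ℤ) = -(a i) := by omega
          rw [h4]
          exact ⟨-1, by ring⟩
  unfold gq
  rw [← finsum_eq_of_bijective (f := fun u : ∀ i, Fin (2 * (a i).natAbs) =>
    ∏ i, DiagGauss_F (a i) ((u i : ℕ) : ℤ)) e he, finsum_eq_sum_of_fintype]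
  · rw [Finset.prod_congr rfl fun i _ => DiagGauss_g1 (a i), Finset.prod_univ_sum,
      Fintype.piFinset_univ]
  · intro u
    refine hper _ _ ?_
    have h1 : (QuotientAddGroup.mk (e u).out : (ι → ℤ) ⧸ DiagGauss_S a) = e u :=
      QuotientAddGroup.out_eq' (e u)
    have h2 := QuotientAddGroup.eq.1 h1
    have h3 : (fun i => ((u i : ℕ) : ℤ)) - (e u).out =
        -(e u).out + (fun i => ((u i : ℕ) : ℤ)) := by
      rw [sub_eq_add_neg, add_comm]
    rw [h3]
    exact h2

/-- The Gauss sum of the diagonal lattice is the product of one dimensional sums. -/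
theorem diag_gauss {F : Type*} [Field F] [NumberField F] {ι : Type*} [Fintype ι] (δ : F)
    (b : Basis ι ℚ F) (a : ι → ℤ) (ha : ∀ i, a i ≠ 0)
    (horth : ∀ i j, i ≠ j → Algebra.trace ℚ F (δ * (b i * b j)) = 0)
    (hq : ∀ i, Algebra.trace ℚ F (δ * b i ^ 2) = a i) :
    gs (latt b 1) (latt b (fun i => 2 * a i)) (fun x => ee (δ * x ^ 2)) = ∏ i, g1 (a i) := by
  classical
  have ha' : ∀ i, (a i : ℚ) ≠ 0 := fun i => by exact_mod_cast ha i
  let h : (ι → ℤ) →+ F :=
    { toFun := fun n => b.equivFun.symm (fun i => (n i : ℚ) / (2 * a i))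
      map_zero' := by
        have h0 : (fun i => (((0 : ι → ℤ) i : ℤ) : ℚ) / (2 * a i)) = 0 := by
          funext i
          simp
        rw [h0, map_zero]
      map_add' := by
        intro n n'
        rw [← map_add]
        congr 1
        funext i
        rw [Pi.add_apply, Pi.add_apply]
        push_cast
        ring }
  have hrepr : ∀ n i, b.repr (h n) i = (n i : ℚ) / (2 * a i) := by
    intro n i
    have h1 : b.equivFun (h n) = fun i => (n i : ℚ) / (2 * a i) :=
      b.equivFun.apply_symm_apply _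
    exact congrFun h1 i
  have hM : ∀ n, h n ∈ latt b (fun i => 2 * a i) := by
    intro n i
    rw [hrepr]
    refine ⟨n i, ?_⟩
    have := ha' i
    push_cast
    field_simp
  have hL : ∀ n, h n ∈ latt b 1 ↔ n ∈ DiagGauss_S a := by
    intro n
    rw [mem_latt]
    refine forall_congr' fun i => ?_
    rw [hrepr]
    have h1 := ha' i
    constructor
    · rintro ⟨t, ht⟩
      refine ⟨t, ?_⟩
      have h2 : (n i : ℚ) = ((2 * a i * t : ℤ) : ℚ) := by
        rw [Pi.one_apply, Int.cast_one, one_mul, eq_div_iff (by positivity)] at ht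
        push_cast
        linarith
      exact_mod_cast h2
    · rintro ⟨t, ht⟩
      refine ⟨t, ?_⟩
      rw [ht, Pi.one_apply]
      push_cast
      field_simp
  have hsurj : ∀ x ∈ latt b (fun i => 2 * a i), ∃ n, x - h n ∈ latt b 1 := by
    intro x hx
    choose n hn using hx
    refine ⟨n, ?_⟩
    have h1 : x = h n := by
      apply b.repr.injective
      ext i
      rw [hrepr, hn i]
      have := ha' i
      push_cast
      field_simp
    rw [← h1, sub_self]
    exact (latt b 1).zero_mem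
  have hLM : latt b 1 ≤ latt b (fun i => 2 * a i) := by
    intro x hx i
    have h1 := (IsZ.int (2 * a i)).mul (hx i)
    simpa using h1
  have hf : ∀ x ∈ latt b (fun i => 2 * a i), ∀ l ∈ latt b 1,
      ee (δ * (x + l) ^ 2) = ee (δ * x ^ 2) := by
    intro x hx l hl
    refine ee_congr ?_
    have h1 := (latt_dual δ b a ha horth hq x).1 hx l hl
    have h2 : IsZ (Algebra.trace ℚ F (δ * l ^ 2)) := by
      rw [DiagGauss_trace δ b a horth hq]
      choose n hn using hl
      refine ⟨∑ i, a i * n i ^ 2, ?_⟩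
      push_cast
      refine Finset.sum_congr rfl fun i _ => ?_
      rw [hn i, Pi.one_apply, Int.cast_one, one_mul]
    have h3 : δ * (x + l) ^ 2 - δ * x ^ 2 = 2 * δ * (x * l) + δ * l ^ 2 := by ring
    rw [h3, map_add]
    exact h1.add h2
  rw [gs_param (latt b 1) (latt b (fun i => 2 * a i)) (DiagGauss_S a) h
    (fun x => ee (δ * x ^ 2)) hLM hM hL hsurj hf, ← DiagGauss_gq a ha]
  congr 1
  funext n
  show ee (δ * (h n) ^ 2) = ∏ i, DiagGauss_F (a i) (n i)
  unfold ee DiagGauss_F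
  rw [DiagGauss_trace δ b a horth hq, Rat.cast_sum, Finset.mul_sum, Complex.exp_sum]
  refine Finset.prod_congr rfl fun i _ => ?_
  rw [hrepr]
  congr 3
  have := ha' i
  field_simp
  norm_num

end

end Pool.Agent.Lib.MP_1a91b9_ntT.S1
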