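import Pool.Agent.Lib.MP_1a91b9_ntT.S1.Defs

/-!
# MemMul: cancellation of ideals, ideals are full lattices

PROOF. `mem_of_mul_mem`: in the group of nonzero fractional ideals
(`FractionalIdeal (𝓞 F)⁰ F`): the hypothesis says `spanSingleton x * (I : FractionalIdeal) ≤
(M * I)`; multiply by `I⁻¹` (`I ≠ ⊥`): `spanSingleton x ≤ M`, i.e. `x ∈ (M : FractionalIdeal)`,
`FractionalIdeal.mem_coeIdeal`. (Useful: `FractionalIdeal.spanSingleton_mul_le_iff`,
`FractionalIdeal.coeIdeal_mul`, `mul_le_mul_right`/`mul_inv_cancel₀`.)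
`imI_full`: take `0 ≠ c ∈ I`; its norm (or any) gives a natural number `0 ≠ n₁ ∈ I`
(`Ideal.absNorm I` works: `Ideal.absNorm_mem`, `Ideal.absNorm_ne_zero_iff`). For `x ∈ F` there is
a natural (integer) `n₂ ≠ 0` with `n₂ x ∈ 𝓞 F` (`IsIntegral.exists_multiple_integral_of_isLocalization`
/ `exists_integral_multiples ℤ ℚ`). `n = n₁ n₂`.
-/

set_option autoImplicit false

namespace Pool.Agent.Lib.MP_1a91b9_ntT.S1

open NumberField Module IsDedekindDomain

noncomputable section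

/-- Cancellation: if `x I ⊆ M I` then `x ∈ M`. -/
theorem mem_of_mul_mem {F : Type*} [Field F] [NumberField F] {M I : Ideal (𝓞 F)} (hI : I ≠ ⊥)
    {x : F} (h : ∀ y ∈ I, ∃ z ∈ M * I, (z : F) = x * y) : ∃ z ∈ M, (z : F) = x := by
  obtain ⟨a, b, hb, rfl⟩ := IsFractionRing.div_surjective (A := 𝓞 F) x
  have hb0 : b ≠ 0 := nonZeroDivisors.ne_zero hb
  have hbF : (algebraMap (𝓞 F) F b) ≠ 0 := fun h0 => hb0 (RingOfIntegers.coe_eq_zero_iff.1 h0)
  have h1 : Ideal.span {a} * I ≤ (Ideal.span {b} * M) * I := by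
    intro c hc
    obtain ⟨y, hy, rfl⟩ := Ideal.mem_span_singleton_mul.1 hc
    obtain ⟨z, hz, hzy⟩ := h y hy
    have h2 : a * y = b * z := by
      apply RingOfIntegers.coe_injective
      have hzy' : algebraMap (𝓞 F) F z =
        algebraMap (𝓞 F) F a / algebraMap (𝓞 F) F b * algebraMap (𝓞 F) F y := hzy
      rw [map_mul, map_mul, hzy']
      field_simp
    rw [h2, mul_assoc]
    exact Ideal.mul_mem_mul (Ideal.mem_span_singleton_self b) hz
  have h2 : Ideal.span {b} * M ∣ Ideal.span {a} := by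
    rw [← Ideal.dvd_iff_le] at h1
    exact (mul_dvd_mul_iff_right (show I ≠ 0 from hI)).1 h1
  rw [Ideal.dvd_iff_le] at h2
  obtain ⟨z, hz, hbz⟩ := Ideal.mem_span_singleton_mul.1 (h2 (Ideal.mem_span_singleton_self a))
  refine ⟨z, hz, ?_⟩
  rw [eq_div_iff hbF, ← hbz, map_mul, mul_comm]

/-- A nonzero ideal spans the field over `ℚ`. -/
theorem imI_full {F : Type*} [Field F] [NumberField F] {I : Ideal (𝓞 F)} (hI : I ≠ ⊥) (x : F) :
    ∃ n : ℕ, n ≠ 0 ∧ n • x ∈ imI I := by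
  obtain ⟨a, b, hb, rfl⟩ := IsFractionRing.div_surjective (A := 𝓞 F) x
  have hb0 : b ≠ 0 := nonZeroDivisors.ne_zero hb
  have hbF : (algebraMap (𝓞 F) F b) ≠ 0 := fun h0 => hb0 (RingOfIntegers.coe_eq_zero_iff.1 h0)
  have hJ : Ideal.span {b} * I ≠ ⊥ := by
    intro h0
    rcases Ideal.mul_eq_bot.1 h0 with h1 | h1
    · exact hb0 (Ideal.span_singleton_eq_bot.1 h1)
    · exact hI h1
  refine ⟨Ideal.absNorm (Ideal.span {b} * I), fun h0 => hJ (Ideal.absNorm_eq_zero_iff.1 h0), ?_⟩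
  obtain ⟨y, hy, hby⟩ := Ideal.mem_span_singleton_mul.1 (Ideal.absNorm_mem (Ideal.span {b} * I))
  refine ⟨a * y, I.mul_mem_left a hy, ?_⟩
  have h1 : ((Ideal.absNorm (Ideal.span {b} * I) : ℕ) : F) =
      (algebraMap (𝓞 F) F b) * (algebraMap (𝓞 F) F y) := by
    rw [← map_mul, hby, map_natCast]
  rw [nsmul_eq_mul, h1]
  change (algebraMap (𝓞 F) F) (a * y) = _
  rw [map_mul]
  field_simp

end

end Pool.Agent.Lib.MP_1a91b9_ntT.S1
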