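import Pool.Agent.Lib.MP_1a91b9_ntT.S1.Defs
import Pool.Agent.Lib.MP_1a91b9_ntT.S1.TraceInt
import Pool.Agent.Lib.MP_1a91b9_ntT.S1.MemMul

/-!
# FormInt: integrality and duality for the lattice `2 M b`, `α e = M² b`

PROOF. `x ∈ imI (span{2} * M * b)` iff `x = 2 y`, `y ∈ M * b` (`Ideal.mem_span_singleton_mul`
after `mul_assoc`). `form_int`: `x²/(4mα) = y²/(mα)`, `y² ∈ (M b)² ≤ M² b = span{α} e`, so
`y² = α e₀`, `e₀ ∈ e` (`Ideal.mem_span_singleton_mul`), `y²/(mα) = e₀/m`, `trace_int_of_mem`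
(file TraceInt) with `e₀ = m (e₀/m)`.
`form_dual`: `2/(4mα) x (2y') = x y'/(mα)`. (⇒) `x ∈ M`, `y' ∈ M b`: `x y' ∈ M (M b) = M² b =
α e`, as before. (⇐) for `y' ∈ M b` and every `t ∈ 𝓞 F` also `t y' ∈ M b`, so
`Tr (x y' t/(mα)) ∈ ℤ` for all `t`, hence by `trace_int_iff` there is `e₀ ∈ e` with
`e₀ = m (x y'/(mα)) = x y'/α`, i.e. `x y' = α e₀ ∈ span{α} e = M² b = M (M b)`. By
`mem_of_mul_mem` (file MemMul) with `I = M b` (nonzero since `α ≠ 0`, `e ≠ ⊥` (`Cod.e_ne`)):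
`x ∈ imI M`.
-/

set_option autoImplicit false

namespace Pool.Agent.Lib.MP_1a91b9_ntT.S1

open NumberField Module IsDedekindDomain

noncomputable section

theorem formInt_coe_mul {F : Type*} [Field F] [NumberField F] (a b : 𝓞 F) :
    ((a * b : 𝓞 F) : F) = (a : F) * (b : F) :=
  map_mul (algebraMap (𝓞 F) F) a b

theorem formInt_coe_two {F : Type*} [Field F] [NumberField F] :
    ((2 : 𝓞 F) : F) = 2 :=
  map_ofNat (algebraMap (𝓞 F) F) 2

theorem formInt_mem2 {F : Type*} [Field F] [NumberField F] (M b : Ideal (𝓞 F)) (x : F) :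
    x ∈ imI (Ideal.span {2} * M * b) ↔ ∃ y ∈ M * b, x = 2 * (y : F) := by
  rw [mem_imI, mul_assoc]
  constructor
  · rintro ⟨y, hy, rfl⟩
    obtain ⟨z, hz, rfl⟩ := Ideal.mem_span_singleton_mul.1 hy
    exact ⟨z, hz, by rw [formInt_coe_mul, formInt_coe_two]⟩
  · rintro ⟨y, hy, rfl⟩
    exact ⟨2 * y, Ideal.mem_span_singleton_mul.2 ⟨y, hy, rfl⟩, by rw [formInt_coe_mul, formInt_coe_two]⟩

theorem formInt_coe_ne {F : Type*} [Field F] [NumberField F] {a : 𝓞 F} (ha : a ≠ 0) :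
    (a : F) ≠ 0 := by
  intro h
  exact ha (NumberField.RingOfIntegers.coe_eq_zero_iff.1 h)

/-- Integrality of the form on the lattice `2 M b`. -/
theorem form_int {F : Type*} [Field F] [NumberField F] {m : 𝓞 F} {e : Ideal (𝓞 F)}
    (h : Cod F m e) (α : 𝓞 F) (hα : α ≠ 0) (M b : Ideal (𝓞 F))
    (hMb : Ideal.span {α} * e = M ^ 2 * b) (x : F)
    (hx : x ∈ imI (Ideal.span {2} * M * b)) :
    IsZ (Algebra.trace ℚ F (1 / (4 * (m : F) * α) * x ^ 2)) := by
  obtain ⟨y, hy, rfl⟩ := (formInt_mem2 M b x).1 hx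
  have h1 : y * y ∈ Ideal.span {α} * e := by
    rw [hMb]
    have h2 := Ideal.mul_mem_mul hy hy
    have h3 : M * b * (M * b) = b * (M ^ 2 * b) := by ring
    rw [h3] at h2
    exact Ideal.mul_le_right h2
  obtain ⟨e₀, he₀, h2⟩ := Ideal.mem_span_singleton_mul.1 h1
  refine trace_int_of_mem h he₀ ?_
  have hm := formInt_coe_ne h.ne
  have ha := formInt_coe_ne hα
  have h3 : (α : F) * (e₀ : F) = (y : F) * (y : F) := by
    rw [← formInt_coe_mul, ← formInt_coe_mul, h2]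
  have h4 : (e₀ : F) = (y : F) * (y : F) / (α : F) := by
    rw [← h3]
    field_simp
  rw [h4]
  field_simp
  ring

/-- The dual of the lattice `2 M b` is `M`. -/
theorem form_dual {F : Type*} [Field F] [NumberField F] {m : 𝓞 F} {e : Ideal (𝓞 F)}
    (h : Cod F m e) (α : 𝓞 F) (hα : α ≠ 0) (M b : Ideal (𝓞 F))
    (hMb : Ideal.span {α} * e = M ^ 2 * b) (x : F) :
    x ∈ imI M ↔ ∀ y ∈ imI (Ideal.span {2} * M * b),
      IsZ (Algebra.trace ℚ F (2 * (1 / (4 * (m : F) * α)) * (x * y))) := by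
  have hm := formInt_coe_ne h.ne
  have ha := formInt_coe_ne hα
  constructor
  · intro hx y hy
    obtain ⟨x0, hx0, rfl⟩ := (mem_imI M x).1 hx
    obtain ⟨y', hy', rfl⟩ := (formInt_mem2 M b y).1 hy
    have h1 : x0 * y' ∈ Ideal.span {α} * e := by
      rw [hMb]
      have h2 := Ideal.mul_mem_mul hx0 hy'
      have h3 : M * (M * b) = M ^ 2 * b := by ring
      rw [h3] at h2
      exact h2
    obtain ⟨e₀, he₀, h2⟩ := Ideal.mem_span_singleton_mul.1 h1
    refine trace_int_of_mem h he₀ ?_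
    have h3 : (α : F) * (e₀ : F) = (x0 : F) * (y' : F) := by
      rw [← formInt_coe_mul, ← formInt_coe_mul, h2]
    have h4 : (e₀ : F) = (x0 : F) * (y' : F) / (α : F) := by
      rw [← h3]
      field_simp
    rw [h4]
    field_simp
    ring
  · intro hx
    have hI : M * b ≠ ⊥ := by
      intro h1
      have h2 : M ^ 2 * b = M * (M * b) := by ring
      rw [h2, h1, Ideal.mul_bot, Ideal.mul_eq_bot] at hMb
      rcases hMb with h3 | h3
      · exact hα (Ideal.span_singleton_eq_bot.1 h3)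
      · exact h.e_ne h3
    rw [mem_imI]
    refine mem_of_mul_mem hI (fun y' hy' => ?_)
    have h1 : ∀ t : 𝓞 F, IsZ (Algebra.trace ℚ F (x * (y' : F) / ((m : F) * α) * t)) := by
      intro t
      have h2 := hx (2 * ((t * y' : 𝓞 F) : F)) ((formInt_mem2 M b _).2
        ⟨t * y', Ideal.mul_mem_left _ _ hy', rfl⟩)
      have h3 : 2 * (1 / (4 * (m : F) * α)) * (x * (2 * ((t * y' : 𝓞 F) : F))) =
          x * (y' : F) / ((m : F) * α) * t := by
        rw [formInt_coe_mul]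
        field_simp
        ring
      rw [h3] at h2
      exact h2
    obtain ⟨e₀, he₀, h4⟩ := (trace_int_iff h _).1 h1
    refine ⟨α * e₀, ?_, ?_⟩
    · have h5 : α * e₀ ∈ Ideal.span {α} * e := Ideal.mem_span_singleton_mul.2 ⟨e₀, he₀, rfl⟩
      rw [hMb] at h5
      have h6 : M * (M * b) = M ^ 2 * b := by ring
      rw [h6]
      exact h5
    · rw [formInt_coe_mul, h4]
      field_simp

end

end Pool.Agent.Lib.MP_1a91b9_ntT.S1
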