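import Pool.Agent.Lib.MP_1a91b9_ntT.S1.LS

/-!
# G1: the one dimensional sums for positive and negative `a`

PROOF. `g1_pos`: `a = (a.natAbs : ℤ)`, `landsberg_schaar a.natAbs`. `g1_neg`: `a = -(a.natAbs)`;
every term is the complex conjugate (`starRingEnd ℂ`) of the term for `-a = a.natAbs`
(`Complex.exp_conj`), so the sum is the conjugate of `sqrt(2|a|) z8`, and `conj z8 = z8⁻¹`
(`z8 = exp (π i/4)`, `conj (exp z) = exp (conj z)`, `exp (-z) = (exp z)⁻¹`).
-/

set_option autoImplicit false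

namespace Pool.Agent.Lib.MP_1a91b9_ntT.S1

open NumberField Module IsDedekindDomain

noncomputable section

theorem g1_pos (a : ℤ) (ha : 0 < a) : g1 a = (Real.sqrt (2 * a.natAbs) : ℂ) * z8 := by
  have h1 := landsberg_schaar a.natAbs (Int.natAbs_pos.2 ha.ne')
  have h2 : ((a.natAbs : ℕ) : ℚ) = (a : ℚ) := by
    have h3 : ((a.natAbs : ℕ) : ℤ) = a := Int.natAbs_of_nonneg ha.le
    rw [← Int.cast_natCast, h3]
  unfold g1
  rw [h2] at h1
  exact h1

private theorem g1_conj (q : ℚ) :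
    Complex.exp (2 * Real.pi * Complex.I * ((-q : ℚ) : ℂ)) =
      (starRingEnd ℂ) (Complex.exp (2 * Real.pi * Complex.I * (q : ℂ))) := by
  rw [← Complex.exp_conj]
  congr 1
  have h1 : ((q : ℚ) : ℂ) = ((q : ℝ) : ℂ) := by push_cast; rfl
  rw [map_mul, map_mul, map_mul, Complex.conj_I, Complex.conj_ofReal, h1, Complex.conj_ofReal,
    map_ofNat]
  push_cast
  ring

private theorem g1_z8 : (starRingEnd ℂ) z8 = z8⁻¹ := by
  unfold z8
  rw [← Complex.exp_conj, ← Complex.exp_neg]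
  congr 1
  rw [map_div₀, map_mul, Complex.conj_I, Complex.conj_ofReal, map_ofNat]
  ring

theorem g1_neg (a : ℤ) (ha : a < 0) : g1 a = (Real.sqrt (2 * a.natAbs) : ℂ) * z8⁻¹ := by
  have h1 := landsberg_schaar a.natAbs (Int.natAbs_pos.2 ha.ne)
  have h2 : ((a.natAbs : ℕ) : ℚ) = -(a : ℚ) := by
    have h3 : ((a.natAbs : ℕ) : ℤ) = -a := Int.ofNat_natAbs_of_nonpos ha.le
    rw [← Int.cast_natCast, h3]
    push_cast
    rfl
  rw [h2] at h1
  have h4 := congrArg (starRingEnd ℂ) h1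
  rw [map_mul, Complex.conj_ofReal, g1_z8, map_sum] at h4
  unfold g1
  rw [← h4]
  refine Finset.sum_congr rfl fun n _ => ?_
  rw [← g1_conj]
  congr 3
  rw [mul_neg, div_neg, neg_neg]

end

end Pool.Agent.Lib.MP_1a91b9_ntT.S1
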