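import Pool.Agent.Lib.MP_1a91b9_ntT.S1.Defs

/-!
# GsIso: isotropic reduction

PROOF. `A = M/L` is finite (`L.relIndex M ≠ 0`). `f` is `L`-periodic on `M` (`hf` and `hL1`). Let
`g c = f c.out` on `A`; `H = L'/L` a subgroup of `A`. Translating the summation variable by a
class `[l]`, `l ∈ L'`, is a bijection of `A` which preserves the set `U` of classes `[x]` with
`x ∈ M'` (because `l ∈ L' ≤ M'`) and its complement. So
`sum_{A} g = sum_{U} g + sum_{A \ U} g` and it suffices to show `sum_{A \ U} g = 0`, and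
`sum_U g = gs L M' f` (the classes in `U` are exactly the image of the injective map
`M'/L → M/L`).
For the vanishing: let `N = [L' : L]` (finite, nonzero). `N * sum_{c ∉ U} g c =
sum_{[l] ∈ L'/L} sum_{c ∉ U} g (c + [l]) = sum_{c ∉ U} g(c) sum_{[l]} B (c.out) l.out` and the
inner sum is zero: `l ↦ B x l` is (for `x ∈ M`) a homomorphism of `L'` to the multiplicative
monoid `ℂ`, trivial on `L`, and not trivial for `x ∉ M'`: choose `l₀ ∈ L'` with `B x l₀ ≠ 1`;
translation by `l₀` gives `S = B x l₀ * S`, so `S = 0`. Alternative without the double sum: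
for every class `c ∉ U` choose the coset `c + H` and show that the sum of `g` over each coset of
`H` outside of `U` vanishes. (Note `B x l ≠ 0` follows from `B x l * B x (-l) = B x 0 = 1`.)
-/

set_option autoImplicit false

namespace Pool.Agent.Lib.MP_1a91b9_ntT.S1

open NumberField Module IsDedekindDomain

noncomputable section

/-- A sum over a finite group which is multiplied by a constant `b ≠ 1` by a translation. -/
private theorem GsIso_zero {A : Type*} [AddCommGroup A] (H : AddSubgroup A) [Fintype H] (g : A → ℂ)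
    (c : A) (h0 : H) (b : ℂ) (hb : b ≠ 1) (hg : ∀ h : H, g (c + h + h0) = g (c + h) * b) :
    ∑ h : H, g (c + h) = 0 := by
  have h1 : ∑ h : H, g (c + h) = (∑ h : H, g (c + h)) * b := by
    rw [Finset.sum_mul]
    rw [← Fintype.sum_equiv (Equiv.addRight h0) (fun h : H => g (c + h + h0)) (fun h : H => g (c + h))]
    · exact Finset.sum_congr rfl fun h _ => hg h
    · intro h
      show g (c + h + h0) = g (c + ((h + h0 : H) : A))
      rw [AddSubgroup.coe_add, add_assoc]
  have h2 : (∑ h : H, g (c + h)) * (b - 1) = 0 := by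
    rw [mul_sub, ← h1, mul_one, sub_self]
  rcases mul_eq_zero.1 h2 with h3 | h3
  · exact h3
  · exact absurd (sub_eq_zero.1 h3) hb

/-- Isotropic reduction: the cosets outside of `M'` contribute nothing. -/
theorem gs_iso {V : Type*} [AddCommGroup V] (L L' M' M : AddSubgroup V) (f : V → ℂ)
    (B : V → V → ℂ)
    (hL : L ≤ L') (hL' : L' ≤ M') (hM' : M' ≤ M) (hfin : L.relIndex M ≠ 0)
    (hf : ∀ x ∈ M, ∀ l ∈ L', f (x + l) = f x * B x l)
    (hadd : ∀ x ∈ M, ∀ l ∈ L', ∀ l' ∈ L', B x (l + l') = B x l * B x l')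
    (hL1 : ∀ x ∈ M, ∀ l ∈ L, B x l = 1)
    (hnt : ∀ x ∈ M, x ∉ M' → ∃ l ∈ L', B x l ≠ 1) :
    gs L M f = gs L M' f := by
  classical
  have hfi : (L.addSubgroupOf M).FiniteIndex := ⟨hfin⟩
  have hfA : Finite (M ⧸ L.addSubgroupOf M) := AddSubgroup.finite_quotient_of_finiteIndex
  let _ : Fintype (M ⧸ L.addSubgroupOf M) := Fintype.ofFinite _
  -- equality of classes
  have hcl : ∀ a b : M, (QuotientAddGroup.mk a : M ⧸ L.addSubgroupOf M) = QuotientAddGroup.mk b ↔
      -(a : V) + b ∈ L := by
    intro a b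
    rw [QuotientAddGroup.eq, AddSubgroup.mem_addSubgroupOf]
    rfl
  have hcl' : ∀ a b : M', (QuotientAddGroup.mk a : M' ⧸ L.addSubgroupOf M') = QuotientAddGroup.mk b ↔
      -(a : V) + b ∈ L := by
    intro a b
    rw [QuotientAddGroup.eq, AddSubgroup.mem_addSubgroupOf]
    rfl
  have key1 : ∀ a b : M, -(a : V) + b ∈ L → f a = f b := by
    intro a b hab
    have h1 := hf a a.2 _ (hL hab)
    rw [hL1 a a.2 _ hab, mul_one, add_neg_cancel_left] at h1
    exact h1.symm
  have hout : ∀ a : M, -(a : V) + (((QuotientAddGroup.mk a : M ⧸ L.addSubgroupOf M).out : M) : V) ∈ L := by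
    intro a
    rw [← hcl, QuotientAddGroup.out_eq']
  have hout' : ∀ a : M', -(a : V) + (((QuotientAddGroup.mk a : M' ⧸ L.addSubgroupOf M').out : M') : V) ∈ L := by
    intro a
    rw [← hcl', QuotientAddGroup.out_eq']
  set g : (M ⧸ L.addSubgroupOf M) → ℂ := fun c => f ((c.out : M) : V) with hg
  have key2 : ∀ a : M, g (QuotientAddGroup.mk a) = f a := by
    intro a
    exact (key1 a _ (hout a)).symm
  let P : (M ⧸ L.addSubgroupOf M) → Prop := fun c => ((c.out : M) : V) ∈ M'
  have key3 : ∀ a : M, P (QuotientAddGroup.mk a) ↔ (a : V) ∈ M' := by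
    intro a
    have h1 : -(a : V) + (((QuotientAddGroup.mk a : M ⧸ L.addSubgroupOf M).out : M) : V) ∈ M' :=
      hL' (hL (hout a))
    constructor
    · intro h2
      have h3 := M'.sub_mem h2 h1
      have h4 : (((QuotientAddGroup.mk a : M ⧸ L.addSubgroupOf M).out : M) : V) -
          (-(a : V) + (((QuotientAddGroup.mk a : M ⧸ L.addSubgroupOf M).out : M) : V)) = a := by abel
      rwa [h4] at h3
    · intro h2
      have h3 := M'.add_mem h2 h1
      rwa [add_neg_cancel_left] at h3
  -- the subgroup of the classes of `L'`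
  let H : AddSubgroup (M ⧸ L.addSubgroupOf M) :=
    (L'.addSubgroupOf M).map (QuotientAddGroup.mk' (L.addSubgroupOf M))
  let _ : Fintype H := Fintype.ofFinite _
  have hH : ∀ h : H, ∃ l : M, (l : V) ∈ L' ∧ (h : M ⧸ L.addSubgroupOf M) = QuotientAddGroup.mk l := by
    rintro ⟨h, l, hl, rfl⟩
    exact ⟨l, AddSubgroup.mem_addSubgroupOf.1 hl, rfl⟩
  -- translation
  have htr : ∀ h : H, ∑ c with ¬ P c, g (c + h) = ∑ c with ¬ P c, g c := by
    intro h
    obtain ⟨l, hl, hle⟩ := hH h
    refine Finset.sum_equiv (Equiv.addRight (h : M ⧸ L.addSubgroupOf M)) ?_ ?_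
    · intro c
      rw [Finset.mem_filter, Finset.mem_filter]
      refine and_congr (iff_of_true (Finset.mem_univ _) (Finset.mem_univ _)) (not_congr ?_)
      show P c ↔ P (c + h)
      induction c using QuotientAddGroup.induction_on with
      | H x =>
        rw [hle, ← QuotientAddGroup.mk_add, key3, key3]
        constructor
        · intro h1
          exact M'.add_mem h1 (hL' hl)
        · intro h1
          have h2 := M'.sub_mem h1 (hL' hl)
          rwa [AddSubgroup.coe_add, add_sub_cancel_right] at h2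
    · intro c _
      rfl
  have hz : ∀ c, ¬ P c → ∑ h : H, g (c + h) = 0 := by
    intro c hc
    induction c using QuotientAddGroup.induction_on with
    | H x =>
      rw [key3] at hc
      obtain ⟨l0, hl0, hB⟩ := hnt x x.2 hc
      have hl0M : l0 ∈ M := hM' (hL' hl0)
      refine GsIso_zero H g _ ⟨QuotientAddGroup.mk (⟨l0, hl0M⟩ : M), ⟨l0, hl0M⟩,
        AddSubgroup.mem_addSubgroupOf.2 hl0, rfl⟩ (B x l0) hB ?_
      intro h
      obtain ⟨l, hl, hle⟩ := hH h
      show g (QuotientAddGroup.mk x + (h : M ⧸ L.addSubgroupOf M) +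
        QuotientAddGroup.mk (⟨l0, hl0M⟩ : M)) = _
      rw [hle, ← QuotientAddGroup.mk_add, ← QuotientAddGroup.mk_add, key2, key2]
      show f ((x : V) + l + l0) = f ((x : V) + l) * B x l0
      rw [add_assoc, hf x x.2 _ (L'.add_mem hl hl0), hadd x x.2 _ hl _ hl0, hf x x.2 _ hl, mul_assoc]
  have hvan : ∑ c with ¬ P c, g c = 0 := by
    have h1 : ∑ h : H, ∑ c with ¬ P c, g (c + h) = (Fintype.card H : ℂ) * ∑ c with ¬ P c, g c := by
      rw [Finset.sum_congr rfl fun h _ => htr h, Finset.sum_const, nsmul_eq_mul]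
      rfl
    rw [Finset.sum_comm, Finset.sum_eq_zero] at h1
    · have h2 : (Fintype.card H : ℂ) ≠ 0 := Nat.cast_ne_zero.2 Fintype.card_ne_zero
      rcases mul_eq_zero.1 h1.symm with h3 | h3
      · exact absurd h3 h2
      · exact h3
    · intro c hc
      exact hz c (Finset.mem_filter.1 hc).2
  have hsum : gs L M f = ∑ c with P c, g c := by
    have h1 : gs L M f = ∑ c, g c := by
      unfold gs gq
      rw [finsum_eq_sum_of_fintype]
    rw [h1, ← Finset.sum_filter_add_sum_filter_not Finset.univ P, hvan, add_zero]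
  -- the classes of `M'`
  let φ : (M' ⧸ L.addSubgroupOf M') → (M ⧸ L.addSubgroupOf M) :=
    fun c => QuotientAddGroup.mk (⟨((c.out : M') : V), hM' c.out.2⟩ : M)
  have hφi : Function.Injective φ := by
    intro c c' hcc
    have h1 := (hcl _ _).1 hcc
    have h2 : (QuotientAddGroup.mk c.out : M' ⧸ L.addSubgroupOf M') = QuotientAddGroup.mk c'.out :=
      (hcl' _ _).2 h1
    rwa [QuotientAddGroup.out_eq', QuotientAddGroup.out_eq'] at h2
  have : Finite (M' ⧸ L.addSubgroupOf M') := Finite.of_injective φ hφi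
  let _ : Fintype (M' ⧸ L.addSubgroupOf M') := Fintype.ofFinite _
  rw [hsum]
  unfold gs gq
  rw [finsum_eq_sum_of_fintype]
  symm
  refine Finset.sum_bij (fun c _ => φ c) ?_ ?_ ?_ ?_
  · intro c _
    refine Finset.mem_filter.2 ⟨Finset.mem_univ _, ?_⟩
    exact (key3 _).2 c.out.2
  · intro c _ c' _ hcc
    exact hφi hcc
  · intro c hc
    have hPc : P c := (Finset.mem_filter.1 hc).2
    refine ⟨QuotientAddGroup.mk (⟨((c.out : M) : V), hPc⟩ : M'), Finset.mem_univ _, ?_⟩
    have h1 : φ (QuotientAddGroup.mk (⟨((c.out : M) : V), hPc⟩ : M')) = QuotientAddGroup.mk c.out := by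
      symm
      rw [hcl]
      exact hout' (⟨((c.out : M) : V), hPc⟩ : M')
    rw [h1, QuotientAddGroup.out_eq']
  · intro c _
    exact (key2 (⟨((c.out : M') : V), hM' c.out.2⟩ : M)).symm

end

end Pool.Agent.Lib.MP_1a91b9_ntT.S1
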