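import Pool.Agent.Lib.MP_1a91b9_ntT.S1.Defs

/-!
# GsMul: summing a function which is periodic for a larger subgroup

PROOF. Let `A = M / L` (finite because `L.relIndex M ≠ 0`, `AddSubgroup.finite_quotient_of...` /
`AddSubgroup.fintypeOfIndexNeZero`; `L.relIndex M = (L.addSubgroupOf M).index` by definition) and
`π : M / L → M / L'` the natural map (`QuotientAddGroup.quotientMapAddSubgroupOfOfLe` or
`Quotient.map`). The function `g c = f c.out` on `M/L` factors through `π` because `f` is
`L'`-periodic on `M`: `f c.out = f (π c).out`. Each fibre of `π` has `[L' : L]` elements: the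
fibre over `[x]` is `{[x + l] : l ∈ L'}`, in bijection with `L' / L`
(`AddSubgroup.relIndex`, `AddSubgroup.card_quotient...`). Hence
`sum_{M/L} g = sum_{c' ∈ M/L'} [L':L] f c'.out`. Suggested: use
`AddSubgroup.quotientEquivSumOfLE`-like lemma (`AddSubgroup.quotientEquivProdOfLE` :
`α ⧸ s ≃ (α ⧸ t) × t ⧸ s.addSubgroupOf t`) applied inside of `M` with `s = L.addSubgroupOf M`,
`t = L'.addSubgroupOf M`; then `Fintype.sum_prod_type` and the second factor contributes
`card (t ⧸ s.addSubgroupOf t) = s.relIndex t = L.relIndex L'`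
(`AddSubgroup.relIndex_addSubgroupOf`).
-/

set_option autoImplicit false

namespace Pool.Agent.Lib.MP_1a91b9_ntT.S1

open NumberField Module IsDedekindDomain

noncomputable section

private theorem gsMul_gq {A : Type*} [AddCommGroup A] (s t : AddSubgroup A) (f : A → ℂ)
    (h : s ≤ t) (hfin : s.index ≠ 0) (hf : ∀ x : A, ∀ l ∈ t, f (x + l) = f x) :
    gq s f = (s.relIndex t : ℂ) * gq t f := by
  have h0 : s.FiniteIndex := ⟨hfin⟩
  have h1 : Finite (A ⧸ s) := inferInstance
  let e := AddSubgroup.quotientEquivProdOfLE h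
  have h2 : Finite ((A ⧸ t) × (t ⧸ s.addSubgroupOf t)) := Finite.of_equiv _ e
  have h3 : Finite (A ⧸ t) := Finite.of_surjective (Prod.fst : (A ⧸ t) × (t ⧸ s.addSubgroupOf t) → _)
    Prod.fst_surjective
  have h4 : Finite (t ⧸ s.addSubgroupOf t) :=
    Finite.of_surjective (Prod.snd : (A ⧸ t) × (t ⧸ s.addSubgroupOf t) → _) Prod.snd_surjective
  have := Fintype.ofFinite (A ⧸ s)
  have := Fintype.ofFinite (A ⧸ t)
  have := Fintype.ofFinite (t ⧸ s.addSubgroupOf t)
  have key : ∀ c : A ⧸ s, f c.out = f (e c).1.out := by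
    intro c
    have h5 : (e c).1 = ((c.out : A) : A ⧸ t) := by
      conv_lhs => rw [← Quotient.out_eq' c]
      rfl
    have h6 : (((e c).1.out : A) : A ⧸ t) = ((c.out : A) : A ⧸ t) := by
      rw [← h5]
      exact Quotient.out_eq' _
    have h7 : -(c.out) + (e c).1.out ∈ t := QuotientAddGroup.eq.1 h6.symm
    have h8 := hf c.out _ h7
    rw [add_neg_cancel_left] at h8
    exact h8.symm
  unfold gq
  rw [finsum_eq_sum_of_fintype, finsum_eq_sum_of_fintype]
  calc ∑ c : A ⧸ s, f c.out = ∑ c : A ⧸ s, f (e c).1.out := Finset.sum_congr rfl fun c _ => key c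
    _ = ∑ p : (A ⧸ t) × (t ⧸ s.addSubgroupOf t), f p.1.out :=
        Fintype.sum_equiv e _ _ fun _ => rfl
    _ = (s.relIndex t : ℂ) * ∑ c : A ⧸ t, f c.out := by
        rw [Fintype.sum_prod_type, Finset.mul_sum]
        refine Finset.sum_congr rfl fun c _ => ?_
        simp only
        rw [Finset.sum_const, nsmul_eq_mul, AddSubgroup.relIndex, AddSubgroup.index,
          Nat.card_eq_fintype_card, Finset.card_univ]

/-- Summing a function which is periodic with respect to the larger subgroup `L'`. -/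
theorem gs_mul {V : Type*} [AddCommGroup V] (L L' M : AddSubgroup V) (f : V → ℂ)
    (hL : L ≤ L') (hL' : L' ≤ M) (hfin : L.relIndex M ≠ 0)
    (hf : ∀ x ∈ M, ∀ l ∈ L', f (x + l) = f x) :
    gs L M f = (L.relIndex L' : ℂ) * gs L' M f := by
  unfold gs
  rw [gsMul_gq (L.addSubgroupOf M) (L'.addSubgroupOf M) (fun x : M => f (x : V))
    (AddSubgroup.comap_mono hL) hfin, AddSubgroup.relIndex_addSubgroupOf hL']
  intro x l hl
  exact hf x x.2 l hl

end

end Pool.Agent.Lib.MP_1a91b9_ntT.S1
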