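import Pool.Agent.Lib.MP_1a91b9_ntT.S1.Defs

/-!
# HalfBound: at most half of the diagonal coefficients have a given sign

PROOF. Put `I = {i : 0 < s a_i}` and suppose `2 |I| > N = finrank ℚ F`. All infinite places are
complex, `N = 2 r` with `r = card (InfinitePlace F)` (`NumberField.InfinitePlace.
card_add_two_mul_card_eq_rank`, no real places, or count embeddings: `F →+* ℂ` has `N` elements
and every fibre of `InfinitePlace.mk` has two). So `|I| > r`. For every place `w` let
`φ_w = w.embedding` and choose `ζ_w ≠ 0` in `ℂ` with `φ_w(δ) ζ_w² = i` (square root of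
`i/φ_w(δ)`, `IsAlgClosed.exists_pow_nat_eq` or `Complex.cpow`). The `ℝ`-linear map
`(I → ℝ) → (InfinitePlace F → ℝ)`, `c ↦ (w ↦ Im ((sum_i c_i φ_w(b_i)) / ζ_w))` is not injective
since `|I| > r` (`LinearMap.exists_ne_zero...`, `exists_ne_zero_of_finrank_lt` /
`LinearMap.injective_iff...finrank_le`). Take `c ≠ 0` in the kernel (extended by `0` outside of
`I`). Then `sum_i c_i φ_w(b_i) = t_w ζ_w` with `t_w` real, so
`φ_w(δ) (sum c_i φ_w(b_i))² = t_w² i` has real part `0`; the same holds for the conjugate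
embedding. Every embedding `φ : F →+* ℂ` is `φ_w` or its conjugate for `w = mk φ`
(`InfinitePlace.mk_eq_iff`, `InfinitePlace.mk_embedding`). Hence
`Re (sum_φ φ(δ) (sum_i c_i φ(b_i))²) = 0`. On the other hand
`sum_φ φ(δ)(sum_i c_i φ(b_i))² = sum_{i,j} c_i c_j sum_φ φ(δ b_i b_j)
= sum_{i,j} c_i c_j Tr(δ b_i b_j) = sum_i c_i² a_i` (`trace_eq_sum_embeddings`, orthogonality).
So `sum_{i ∈ I} c_i² a_i = 0`; multiply by `s`: all terms `c_i² s a_i ≥ 0`, one of them `> 0`.
Contradiction. (`Algebra.trace_eq_sum_embeddings` is stated with `F →ₐ[ℚ] ℂ`; use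
`RingHom.equivRatAlgHom`.)
-/

set_option autoImplicit false

namespace Pool.Agent.Lib.MP_1a91b9_ntT.S1

open NumberField Module IsDedekindDomain

noncomputable section

/-- At most half of the diagonal coefficients have the sign `s`. -/
theorem half_bound {F : Type*} [Field F] [NumberField F] [IsTotallyComplex F] (δ : F)
    (hδ : δ ≠ 0) {ι : Type*} [Fintype ι]
    (b : ι → F) (a : ι → ℚ) (s : ℚ) (horth : ∀ i j, i ≠ j → Algebra.trace ℚ F (δ * (b i * b j)) = 0)
    (ha : ∀ i, Algebra.trace ℚ F (δ * b i ^ 2) = a i) :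
    2 * (Finset.univ.filter (fun i => 0 < s * a i)).card ≤ finrank ℚ F := by
  classical
  by_contra hcon
  push Not at hcon
  have hpl : Fintype.card (InfinitePlace F) * 2 = finrank ℚ F := by
    rw [InfinitePlace.card_eq_nrRealPlaces_add_nrComplexPlaces,
      ← InfinitePlace.card_add_two_mul_card_eq_rank,
      IsTotallyComplex.nrRealPlaces_eq_zero F]
    ring
  -- the roots
  have hz : ∀ w : InfinitePlace F, ∃ z : ℂ, z ^ 2 = Complex.I / w.embedding δ := fun w =>
    IsAlgClosed.exists_pow_nat_eq _ (by norm_num)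
  choose z hz using hz
  have hwδ : ∀ w : InfinitePlace F, w.embedding δ ≠ 0 := fun w => by
    simpa using hδ
  have hz0 : ∀ w, z w ≠ 0 := by
    intro w h0
    have h1 := hz w
    rw [h0] at h1
    have h2 : Complex.I / w.embedding δ ≠ 0 := div_ne_zero Complex.I_ne_zero (hwδ w)
    exact h2 (by rw [← h1]; norm_num)
  let S : Finset ι := Finset.univ.filter (fun i => 0 < s * a i)
  -- the linear map
  let T : (S → ℝ) →ₗ[ℝ] (InfinitePlace F → ℝ) :=
    { toFun := fun c w => ((∑ i : S, (c i : ℂ) * w.embedding (b i)) / z w).im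
      map_add' := by
        intro c c'
        funext w
        simp only [Pi.add_apply, ← Complex.add_im, ← add_div, ← Finset.sum_add_distrib]
        congr 2
        refine Finset.sum_congr rfl fun i _ => ?_
        push_cast
        ring
      map_smul' := by
        intro r c
        funext w
        simp only [Pi.smul_apply, smul_eq_mul, RingHom.id_apply]
        rw [← Complex.im_ofReal_mul, ← mul_div_assoc, Finset.mul_sum]
        congr 2
        refine Finset.sum_congr rfl fun i _ => ?_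
        push_cast
        ring }
  have hker : LinearMap.ker T ≠ ⊥ := by
    refine LinearMap.ker_ne_bot_of_finrank_lt ?_
    rw [finrank_fintype_fun_eq_card, finrank_fintype_fun_eq_card, Fintype.card_coe]
    have h3 : 2 * S.card > finrank ℚ F := hcon
    omega
  obtain ⟨c, hc, hc0⟩ := Submodule.exists_mem_ne_zero_of_ne_bot hker
  have hT : ∀ w : InfinitePlace F,
      ((∑ i : S, (c i : ℂ) * w.embedding (b i)) / z w).im = 0 := fun w => congrFun hc w
  -- real part
  have hre : ∀ w : InfinitePlace F,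
      (w.embedding δ * (∑ i : S, (c i : ℂ) * w.embedding (b i)) ^ 2).re = 0 := by
    intro w
    set y := ∑ i : S, (c i : ℂ) * w.embedding (b i) with hy
    have h1 : y / z w = (((y / z w).re : ℝ) : ℂ) := by
      apply Complex.ext
      · simp
      · rw [Complex.ofReal_im]; exact hT w
    set t := (y / z w).re with ht
    have h2 : y = (t : ℂ) * z w := by
      rw [← h1, div_mul_cancel₀ _ (hz0 w)]
    have h3 : w.embedding δ * y ^ 2 = ((t ^ 2 : ℝ) : ℂ) * Complex.I := by
      rw [h2, mul_pow, hz w]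
      push_cast
      field_simp [hwδ w]
    rw [h3, Complex.re_ofReal_mul, Complex.I_re, mul_zero]
  have hconj : ∀ x : ℂ, ((starRingEnd ℂ) x).re = x.re := fun x => Complex.conj_re x
  have hre2 : ∀ φ : F →ₐ[ℚ] ℂ,
      (φ δ * (∑ i : S, (c i : ℂ) * φ (b i)) ^ 2).re = 0 := by
    intro φ
    have h1 : InfinitePlace.mk (InfinitePlace.mk φ.toRingHom).embedding
        = InfinitePlace.mk φ.toRingHom := InfinitePlace.mk_embedding _
    rcases InfinitePlace.mk_eq_iff.1 h1 with h2 | h2
    · have h3 : ∀ x : F, φ x = (InfinitePlace.mk φ.toRingHom).embedding x := fun x => by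
        rw [h2]; rfl
      simp only [h3]
      exact hre _
    · have h3 : ∀ x : F, φ x
          = (starRingEnd ℂ) ((InfinitePlace.mk φ.toRingHom).embedding x) := fun x => by
        have h4 := congrArg (fun f : F →+* ℂ => f x) h2
        simp only [ComplexEmbedding.conjugate_coe_eq] at h4
        exact h4.symm
      have h5 : φ δ * (∑ i : S, (c i : ℂ) * φ (b i)) ^ 2
          = (starRingEnd ℂ) ((InfinitePlace.mk φ.toRingHom).embedding δ
            * (∑ i : S, (c i : ℂ) * (InfinitePlace.mk φ.toRingHom).embedding (b i)) ^ 2) := by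
        rw [map_mul, map_pow, map_sum, ← h3 δ]
        congr 2
        refine Finset.sum_congr rfl fun i _ => ?_
        rw [map_mul, ← h3 (b i), Complex.conj_ofReal]
      rw [h5, hconj]
      exact hre _
  -- the sum over all embeddings
  have hsum : ∑ φ : F →ₐ[ℚ] ℂ, φ δ * (∑ i : S, (c i : ℂ) * φ (b i)) ^ 2
      = ∑ i : S, (c i : ℂ) ^ 2 * ((a i : ℚ) : ℂ) := by
    have htr : ∀ x : F, ∑ φ : F →ₐ[ℚ] ℂ, φ x = ((Algebra.trace ℚ F x : ℚ) : ℂ) := by
      intro x
      rw [← trace_eq_sum_embeddings ℂ (K := ℚ) (L := F)]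
      rfl
    have h1 : ∀ φ : F →ₐ[ℚ] ℂ, φ δ * (∑ i : S, (c i : ℂ) * φ (b i)) ^ 2
        = ∑ i : S, ∑ j : S, (c i : ℂ) * (c j : ℂ) * φ (δ * (b i * b j)) := by
      intro φ
      rw [sq, Finset.sum_mul_sum, Finset.mul_sum]
      refine Finset.sum_congr rfl fun i _ => ?_
      rw [Finset.mul_sum]
      refine Finset.sum_congr rfl fun j _ => ?_
      rw [map_mul, map_mul]
      ring
    rw [Finset.sum_congr rfl fun φ _ => h1 φ, Finset.sum_comm]
    refine Finset.sum_congr rfl fun i _ => ?_
    rw [Finset.sum_comm]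
    have h2 : ∀ j : S, ∑ φ : F →ₐ[ℚ] ℂ, (c i : ℂ) * (c j : ℂ) * φ (δ * (b i * b j))
        = (c i : ℂ) * (c j : ℂ) * ((Algebra.trace ℚ F (δ * (b i * b j)) : ℚ) : ℂ) := by
      intro j
      rw [← Finset.mul_sum, htr]
    rw [Finset.sum_congr rfl fun j _ => h2 j, Finset.sum_eq_single i]
    · rw [← ha i]
      have h3 : δ * (b i * b i) = δ * b i ^ 2 := by ring
      rw [h3]
      ring
    · intro j _ hji
      rw [horth i j (fun h => hji (Subtype.ext h.symm))]
      simp
    · intro h
      exact absurd (Finset.mem_univ _) h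
  have hzero : ∑ i : S, (c i) ^ 2 * ((a i : ℚ) : ℝ) = 0 := by
    have h1 : (∑ φ : F →ₐ[ℚ] ℂ, φ δ * (∑ i : S, (c i : ℂ) * φ (b i)) ^ 2).re = 0 := by
      rw [Complex.re_sum]
      exact Finset.sum_eq_zero fun φ _ => hre2 φ
    rw [hsum] at h1
    have h2 : ∑ i : S, (c i : ℂ) ^ 2 * ((a i : ℚ) : ℂ)
        = ((∑ i : S, (c i) ^ 2 * ((a i : ℚ) : ℝ) : ℝ) : ℂ) := by
      push_cast
      rfl
    rw [h2, Complex.ofReal_re] at h1
    exact h1
  have hpos : 0 < ∑ i : S, (c i) ^ 2 * ((s * a i : ℚ) : ℝ) := by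
    obtain ⟨i, hi⟩ : ∃ i, c i ≠ 0 := by
      by_contra hno
      push Not at hno
      exact hc0 (funext hno)
    refine Finset.sum_pos' (fun j _ => ?_) ⟨i, Finset.mem_univ _, ?_⟩
    · have hj : 0 < s * a j := (Finset.mem_filter.1 j.2).2
      have hj' : (0 : ℝ) < ((s * a j : ℚ) : ℝ) := by exact_mod_cast hj
      positivity
    · have hj : 0 < s * a i := (Finset.mem_filter.1 i.2).2
      have hj' : (0 : ℝ) < ((s * a i : ℚ) : ℝ) := by exact_mod_cast hj
      have hj2 : 0 < (c i) ^ 2 := by positivity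
      exact mul_pos hj2 hj'
  have heq : ∑ i : S, (c i) ^ 2 * ((s * a i : ℚ) : ℝ)
      = (s : ℝ) * ∑ i : S, (c i) ^ 2 * ((a i : ℚ) : ℝ) := by
    rw [Finset.mul_sum]
    refine Finset.sum_congr rfl fun i _ => ?_
    push_cast
    ring
  rw [heq, hzero, mul_zero] at hpos
  exact lt_irrefl _ hpos

end

end Pool.Agent.Lib.MP_1a91b9_ntT.S1
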