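import Pool.Agent.Lib.MP_1a91b9_ntT.S1.Defs

/-!
# LS: the one dimensional Gauss sum (Landsberg-Schaar, `p = 1`)

PROOF. Fix `A = a`, `s > 0` large, `ε = 1 / (4 A² s)`, `a₀ = ε - i / (2A)`,
`Θ = sum_{n ∈ ℤ} exp (- π a₀ n²)`.
(1) By residue classes modulo `2A` and the functional equation in each class
`Θ = s^(1/2) sum_r e_r R_r(s)`, `e_r = exp (π i r² / (2A))`, `R_r(s) → 1` as `s → ∞`.
(2) `1 / a₀ = 2 A i + 1 / w`, `w = s + i / (2A)`, so by two functional equations
`Θ = (1 / a₀^(1/2)) w^(1/2) R(s)`, `R(s) → 1`.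
Divide by `s^(1/2)`.
-/

set_option autoImplicit false

namespace Pool.Agent.Lib.MP_1a91b9_ntT.S1

open NumberField Module IsDedekindDomain

noncomputable section

open Complex Filter Topology in
/-- theta sums with unimodular coefficients tend to `1` -/
private theorem LS_tendsto (c : ℤ → ℂ) (h0 : c 0 = 1) (hc : ∀ n, ‖c n‖ ≤ 1) :
    Tendsto (fun s : ℝ => ∑' n : ℤ, cexp (-Real.pi * s * n ^ 2) * c n) atTop (𝓝 1) := by
  have hsum : Summable (fun n : ℤ => Real.exp (-Real.pi * (n : ℝ) ^ 2)) := by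
    have h1 := ((summable_jacobiTheta₂_term_iff 0 I).2 (by simp)).norm
    refine h1.congr fun n => ?_
    rw [jacobiTheta₂_term, Complex.norm_exp]
    congr 1
    have : 2 * (Real.pi : ℂ) * I * (n : ℂ) * 0 + (Real.pi : ℂ) * I * (n : ℂ) ^ 2 * I =
        ((-Real.pi * (n : ℝ) ^ 2 : ℝ) : ℂ) := by
      push_cast
      linear_combination (Real.pi : ℂ) * (n : ℂ) ^ 2 * I_mul_I
    rw [this, ofReal_re]
  have hreal : ∀ (s : ℝ) (n : ℤ), ‖cexp (-Real.pi * s * n ^ 2)‖ =
      Real.exp (-Real.pi * s * (n : ℝ) ^ 2) := by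
    intro s n
    rw [Complex.norm_exp]
    congr 1
    have : (-Real.pi * s * (n : ℂ) ^ 2 : ℂ) = ((-Real.pi * s * (n : ℝ) ^ 2 : ℝ) : ℂ) := by
      push_cast
      ring
    rw [this, ofReal_re]
  have h2 := tendsto_tsum_of_dominated_convergence (𝓕 := (atTop : Filter ℝ))
    (f := fun (s : ℝ) (n : ℤ) => cexp (-Real.pi * s * n ^ 2) * c n)
    (g := fun n : ℤ => if n = 0 then (1 : ℂ) else 0) hsum ?_ ?_
  · rwa [tsum_ite_eq] at h2
  · intro n
    by_cases hn : n = 0
    · subst hn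
      simp [h0]
    · rw [if_neg hn, tendsto_zero_iff_norm_tendsto_zero]
      have h3 : Tendsto (fun s : ℝ => Real.exp (-Real.pi * s * (n : ℝ) ^ 2)) atTop (𝓝 0) := by
        refine Real.tendsto_exp_atBot.comp ?_
        have h4 : (0 : ℝ) < Real.pi * (n : ℝ) ^ 2 := by
          have : (n : ℝ) ≠ 0 := Int.cast_ne_zero.2 hn
          positivity
        have h5 : (fun s : ℝ => -Real.pi * s * (n : ℝ) ^ 2) = fun s => -((Real.pi * (n : ℝ) ^ 2) * s) := by
          funext s
          ring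
        rw [h5]
        exact tendsto_neg_atTop_atBot.comp (tendsto_id.const_mul_atTop h4)
      refine squeeze_zero (fun s => norm_nonneg _) (fun s => ?_) h3
      rw [norm_mul, hreal]
      exact mul_le_of_le_one_right (Real.exp_pos _).le (hc n)
  · filter_upwards [eventually_ge_atTop (1 : ℝ)] with s hs n
    rw [norm_mul, hreal]
    refine (mul_le_of_le_one_right (Real.exp_pos _).le (hc n)).trans (Real.exp_le_exp.2 ?_)
    have h6 : 0 ≤ Real.pi * (n : ℝ) ^ 2 := by positivity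
    nlinarith

open Complex in
private theorem LS_tsum_class (A : ℕ) [NeZero A] (f : ℤ → ℂ) (hf : Summable f) :
    ∑' n, f n = ∑ r ∈ Finset.range A, ∑' k : ℤ, f (k * A + r) := by
  rw [← (Int.divModEquiv A).symm.tsum_eq f]
  have hs : Summable (fun p : ℤ × Fin A => f ((Int.divModEquiv A).symm p)) :=
    (Int.divModEquiv A).symm.summable_iff.2 hf
  have hs' : Summable (fun p : Fin A × ℤ => f ((Int.divModEquiv A).symm (p.2, p.1))) :=
    (Equiv.prodComm (Fin A) ℤ).summable_iff.2 hs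
  rw [← (Equiv.prodComm (Fin A) ℤ).tsum_eq]
  have h1 := hs'.tsum_prod
  rw [Finset.sum_range]
  exact h1.trans (tsum_fintype _)

open Complex Filter Topology in
/-- `sum_{n mod 2a} exp (2 π i n² / (4a)) = sqrt (2a) exp (π i / 4)`. -/
theorem landsberg_schaar (a : ℕ) (ha : 0 < a) :
    ∑ n ∈ Finset.range (2 * a),
      Complex.exp (2 * Real.pi * Complex.I * (((n : ℚ) ^ 2 / (4 * a) : ℚ) : ℂ))
      = (Real.sqrt (2 * a) : ℂ) * z8 := by
  have hA : (0 : ℝ) < a := by exact_mod_cast ha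
  have hAc : (a : ℂ) ≠ 0 := by exact_mod_cast ha.ne'
  have hne : NeZero (2 * a) := ⟨by omega⟩
  have hpi : (Real.pi : ℂ) ≠ 0 := by exact_mod_cast Real.pi_ne_zero
  -- the phases
  set e : ℤ → ℂ := fun n => cexp (Real.pi * I * n ^ 2 / (2 * a)) with he
  have hperiod : ∀ k r : ℤ, e (k * (2 * a) + r) = e r := by
    intro k r
    simp only [he]
    have h1 : (Real.pi : ℂ) * I * ((k * (2 * a) + r : ℤ) : ℂ) ^ 2 / (2 * a) =
        Real.pi * I * (r : ℂ) ^ 2 / (2 * a) + ((k ^ 2 * a + k * r : ℤ) : ℂ) * (2 * Real.pi * I) := by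
      push_cast
      field_simp
      ring
    rw [h1, Complex.exp_add, Complex.exp_int_mul_two_pi_mul_I, mul_one]
  -- the limits
  have hR : Tendsto (fun s : ℝ => ∑' n : ℤ, cexp (-Real.pi * s * n ^ 2) *
      cexp (-Real.pi * I * n ^ 2 / (2 * a))) atTop (𝓝 1) := by
    refine LS_tendsto (fun n : ℤ => cexp (-Real.pi * I * n ^ 2 / (2 * a))) (by simp) fun n => ?_
    have h1 : (-Real.pi * I * (n : ℂ) ^ 2 / (2 * a) : ℂ) =
        ((-Real.pi * (n : ℝ) ^ 2 / (2 * a) : ℝ) : ℂ) * I := by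
      push_cast
      ring
    rw [h1, Complex.norm_exp_ofReal_mul_I]
  have hRr : ∀ r : ℕ, Tendsto (fun s : ℝ => ∑' n : ℤ, cexp (-Real.pi * s * n ^ 2) *
      cexp (2 * Real.pi * (-I * r / (2 * a)) * n)) atTop (𝓝 1) := by
    intro r
    refine LS_tendsto (fun n : ℤ => cexp (2 * Real.pi * (-I * r / (2 * a)) * n)) (by simp)
      fun n => ?_
    have h1 : (2 * Real.pi * (-I * r / (2 * a)) * n : ℂ) =
        ((-(2 * Real.pi * r / (2 * a) * n) : ℝ) : ℂ) * I := by
      push_cast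
      ring
    rw [h1, Complex.norm_exp_ofReal_mul_I]
  -- the identity
  have hid : ∀ s : ℝ, 0 < s →
      (s : ℂ) ^ (1 / 2 : ℂ) * ∑ r ∈ Finset.range (2 * a), e r *
        (∑' n : ℤ, cexp (-Real.pi * s * n ^ 2) * cexp (2 * Real.pi * (-I * r / (2 * a)) * n)) =
      1 / ((1 / (4 * a ^ 2 * s) : ℝ) - I / (2 * a)) ^ (1 / 2 : ℂ) *
        ((s + I / (2 * a) : ℂ) ^ (1 / 2 : ℂ) *
          ∑' n : ℤ, cexp (-Real.pi * s * n ^ 2) * cexp (-Real.pi * I * n ^ 2 / (2 * a))) := by
    intro s hs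
    have hsc : (s : ℂ) ≠ 0 := by exact_mod_cast hs.ne'
    set ε : ℝ := 1 / (4 * a ^ 2 * s) with hε
    have hε0 : 0 < ε := by positivity
    have hεc : (ε : ℂ) * (2 * a) ^ 2 = 1 / s := by
      rw [hε]
      push_cast
      field_simp
      ring
    set a₀ : ℂ := (ε : ℂ) - I / (2 * a) with ha₀
    have hIa : I / (2 * a : ℂ) = ((1 / (2 * a) : ℝ) : ℂ) * I := by
      push_cast
      ring
    have ha₀re : a₀.re = ε := by
      rw [ha₀, hIa]
      simp
    have ha₀0 : a₀ ≠ 0 := by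
      intro h
      rw [h, zero_re] at ha₀re
      exact hε0.ne ha₀re
    set w : ℂ := (s : ℂ) + I / (2 * a) with hw
    have hwre : w.re = s := by
      rw [hw, hIa]
      simp
    have hw0 : w ≠ 0 := by
      intro h
      rw [h, zero_re] at hwre
      exact hs.ne hwre
    have hinv : 1 / a₀ = 2 * a * I + 1 / w := by
      have h2 : w - a₀ - 2 * a * I * (a₀ * w) = 0 := by
        have h3 : a₀ * (4 * a ^ 2 * s) = 1 - 2 * a * s * I := by
          rw [ha₀, hε]
          push_cast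
          field_simp
          ring
        have h4 : w * (2 * a) = 2 * a * s + I := by
          rw [hw]
          field_simp
        have h5 : (w - a₀ - 2 * a * I * (a₀ * w)) * (4 * a ^ 2 * s) * (2 * a) = 0 := by
          linear_combination (4 * a ^ 2 * s) * h4 - (2 * a) * h3 -
            2 * a * I * (w * (2 * a)) * h3 - 2 * a * I * (1 - 2 * a * s * I) * h4 +
              (-2 * a + 4 * a ^ 2 * s * I + 8 * a ^ 3 * s ^ 2) * I_mul_I
        have h6 : (4 * (a : ℂ) ^ 2 * s) ≠ 0 :=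
          mul_ne_zero (mul_ne_zero (by norm_num) (pow_ne_zero 2 hAc)) hsc
        have h7 : (2 * (a : ℂ)) ≠ 0 := mul_ne_zero two_ne_zero hAc
        rcases mul_eq_zero.1 h5 with h8 | h8
        · rcases mul_eq_zero.1 h8 with h9 | h9
          · exact h9
          · exact absurd h9 h6
        · exact absurd h8 h7
      field_simp
      linear_combination h2
    have hsum : Summable (fun n : ℤ => cexp (-Real.pi * a₀ * n ^ 2)) := by
      have h1 := (summable_jacobiTheta₂_term_iff 0 (I * a₀)).2 (by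
        rw [Complex.mul_im]
        simp [ha₀re, hε0])
      refine h1.congr fun n => ?_
      rw [jacobiTheta₂_term]
      congr 1
      linear_combination (Real.pi : ℂ) * a₀ * n ^ 2 * I_mul_I
    have hone : ∑' n : ℤ, cexp (-Real.pi * a₀ * n ^ 2) =
        (s : ℂ) ^ (1 / 2 : ℂ) * ∑ r ∈ Finset.range (2 * a), e r *
        (∑' n : ℤ, cexp (-Real.pi * s * n ^ 2) * cexp (2 * Real.pi * (-I * r / (2 * a)) * n)) := by
      rw [LS_tsum_class (2 * a) _ hsum, Finset.mul_sum]
      refine Finset.sum_congr rfl fun r _ => ?_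
      have h1 := Complex.tsum_exp_neg_quadratic (a := (s : ℂ)) (by simpa using hs)
        (-I * r / (2 * a))
      have hs2 : (s : ℂ) ^ (1 / 2 : ℂ) ≠ 0 := by
        rw [Complex.cpow_ne_zero_iff]
        exact Or.inl hsc
      have h2 : ∑' n : ℤ, cexp (-Real.pi / s * (n + I * (-I * r / (2 * a))) ^ 2) =
          (s : ℂ) ^ (1 / 2 : ℂ) * ∑' n : ℤ, cexp (-Real.pi * s * n ^ 2) *
            cexp (2 * Real.pi * (-I * r / (2 * a)) * n) := by
        simp_rw [← Complex.exp_add]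
        rw [h1, ← mul_assoc, mul_one_div_cancel hs2, one_mul]
      rw [mul_left_comm, ← h2, ← tsum_mul_left]
      refine tsum_congr fun k => ?_
      have h3 := hperiod k r
      rw [← h3]
      simp only [he]
      rw [← Complex.exp_add]
      congr 1
      have h4 : (I * (-I * r / (2 * a)) : ℂ) = r / (2 * a) := by
        linear_combination (-r / (2 * a) : ℂ) * I_mul_I
      rw [h4, ha₀]
      push_cast
      have h5 : -(Real.pi : ℂ) / s * (k + r / (2 * a)) ^ 2 =
          -Real.pi * ε * (k * (2 * a) + r) ^ 2 := by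
        have h6 : -(Real.pi : ℂ) / s = -Real.pi * (1 / s) := by ring
        rw [h6, ← hεc]
        field_simp
      rw [h5]
      ring
    have htwo : ∑' n : ℤ, cexp (-Real.pi * a₀ * n ^ 2) = 1 / a₀ ^ (1 / 2 : ℂ) *
        (w ^ (1 / 2 : ℂ) *
          ∑' n : ℤ, cexp (-Real.pi * s * n ^ 2) * cexp (-Real.pi * I * n ^ 2 / (2 * a))) := by
      rw [Complex.tsum_exp_neg_mul_int_sq (by rw [ha₀re]; exact hε0)]
      congr 1
      have hw2 : w ^ (1 / 2 : ℂ) ≠ 0 := by
        rw [Complex.cpow_ne_zero_iff]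
        exact Or.inl hw0
      have h1 := Complex.tsum_exp_neg_mul_int_sq (a := w) (by rw [hwre]; exact hs)
      have h2 : ∑' n : ℤ, cexp (-Real.pi / w * n ^ 2) = w ^ (1 / 2 : ℂ) *
          ∑' n : ℤ, cexp (-Real.pi * w * n ^ 2) := by
        rw [h1, ← mul_assoc, mul_one_div_cancel hw2, one_mul]
      have h3 : ∑' n : ℤ, cexp (-Real.pi / a₀ * n ^ 2) = ∑' n : ℤ, cexp (-Real.pi / w * n ^ 2) := by
        refine tsum_congr fun n => ?_
        have h4 : -(Real.pi : ℂ) / a₀ * n ^ 2 = -Real.pi / w * n ^ 2 +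
            ((-(a * n ^ 2) : ℤ) : ℂ) * (2 * Real.pi * I) := by
          have h5 : -(Real.pi : ℂ) / a₀ = -Real.pi * (1 / a₀) := by ring
          rw [h5, hinv]
          push_cast
          ring
        rw [h4, Complex.exp_add, Complex.exp_int_mul_two_pi_mul_I, mul_one]
      rw [h3, h2]
      congr 1
      refine tsum_congr fun n => ?_
      rw [← Complex.exp_add]
      congr 1
      rw [hw]
      ring
    rw [← hone, htwo]
  -- division by `s ^ (1 / 2)`
  have hdiv : ∀ s : ℝ, 0 < s → ∑ r ∈ Finset.range (2 * a), e r *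
        (∑' n : ℤ, cexp (-Real.pi * s * n ^ 2) * cexp (2 * Real.pi * (-I * r / (2 * a)) * n)) =
      1 / ((1 / (4 * a ^ 2 * s) : ℝ) - I / (2 * a)) ^ (1 / 2 : ℂ) *
        ((1 + ((1 / s : ℝ) : ℂ) * (I / (2 * a)) : ℂ) ^ (1 / 2 : ℂ) *
          ∑' n : ℤ, cexp (-Real.pi * s * n ^ 2) * cexp (-Real.pi * I * n ^ 2 / (2 * a))) := by
    intro s hs
    have hsc : (s : ℂ) ≠ 0 := by exact_mod_cast hs.ne'
    have hs2 : (s : ℂ) ^ (1 / 2 : ℂ) ≠ 0 := by
      rw [Complex.cpow_ne_zero_iff]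
      exact Or.inl hsc
    have hre : (1 + ((1 / s : ℝ) : ℂ) * (I / (2 * a)) : ℂ).re = 1 := by
      have h1 : ((1 / s : ℝ) : ℂ) * (I / (2 * a)) = ((1 / s * (1 / (2 * a)) : ℝ) : ℂ) * I := by
        push_cast
        ring
      rw [h1]
      simp
    have hz0 : (1 + ((1 / s : ℝ) : ℂ) * (I / (2 * a)) : ℂ) ≠ 0 := by
      intro h
      rw [h, zero_re] at hre
      exact zero_ne_one hre
    have hprod : (s + I / (2 * a) : ℂ) = (s : ℂ) * (1 + ((1 / s : ℝ) : ℂ) * (I / (2 * a))) := by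
      push_cast
      field_simp
    have hw0 : (s + I / (2 * a) : ℂ) ≠ 0 := by
      rw [hprod]
      exact mul_ne_zero hsc hz0
    have hcp : (s + I / (2 * a) : ℂ) ^ (1 / 2 : ℂ) = (s : ℂ) ^ (1 / 2 : ℂ) *
        (1 + ((1 / s : ℝ) : ℂ) * (I / (2 * a)) : ℂ) ^ (1 / 2 : ℂ) := by
      rw [Complex.cpow_def_of_ne_zero hw0, Complex.cpow_def_of_ne_zero hsc,
        Complex.cpow_def_of_ne_zero hz0, ← Complex.exp_add, hprod,
        Complex.log_ofReal_mul hs hz0, ← Complex.ofReal_log hs.le, add_mul]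
    have h1 := hid s hs
    rw [hcp] at h1
    refine mul_left_cancel₀ hs2 ?_
    rw [h1]
    ring
  -- passage to the limit
  have hL : Tendsto (fun s : ℝ => ∑ r ∈ Finset.range (2 * a), e r *
        (∑' n : ℤ, cexp (-Real.pi * s * n ^ 2) * cexp (2 * Real.pi * (-I * r / (2 * a)) * n)))
        atTop (𝓝 (∑ r ∈ Finset.range (2 * a), e r * 1)) :=
    tendsto_finsetSum _ fun r _ => (hRr r).const_mul _
  have hinv0 : Tendsto (fun s : ℝ => ((1 / s : ℝ) : ℂ)) atTop (𝓝 0) := by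
    have h1 : Tendsto (fun s : ℝ => (1 / s : ℝ)) atTop (𝓝 0) := by
      simpa using tendsto_inv_atTop_zero (𝕜 := ℝ)
    have h2 := (Complex.continuous_ofReal.tendsto 0).comp h1
    rw [Complex.ofReal_zero] at h2
    exact h2
  have hslit : (-(I / (2 * a)) : ℂ) ∈ slitPlane := by
    rw [Complex.mem_slitPlane_iff]
    right
    have h1 : (-(I / (2 * a)) : ℂ) = ((-(1 / (2 * a)) : ℝ) : ℂ) * I := by
      push_cast
      ring
    rw [h1]
    simp [ha.ne']
  have hR2 : Tendsto (fun s : ℝ => 1 / ((1 / (4 * a ^ 2 * s) : ℝ) - I / (2 * a)) ^ (1 / 2 : ℂ) *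
        ((1 + ((1 / s : ℝ) : ℂ) * (I / (2 * a)) : ℂ) ^ (1 / 2 : ℂ) *
          ∑' n : ℤ, cexp (-Real.pi * s * n ^ 2) * cexp (-Real.pi * I * n ^ 2 / (2 * a)))) atTop
        (𝓝 (1 / (-(I / (2 * a)) : ℂ) ^ (1 / 2 : ℂ) * (1 * 1))) := by
    refine Tendsto.mul ?_ (Tendsto.mul ?_ hR)
    · have h1 : Tendsto (fun s : ℝ => ((1 / (4 * a ^ 2 * s) : ℝ) - I / (2 * a) : ℂ)) atTop
          (𝓝 (-(I / (2 * a)))) := by
        have h2 := (hinv0.const_mul (1 / (4 * a ^ 2) : ℂ)).sub_const (I / (2 * a))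
        rw [mul_zero, zero_sub] at h2
        refine h2.congr fun s => ?_
        push_cast
        congr 1
        rw [one_div_mul_one_div]
      have h3 : ContinuousAt (fun z : ℂ => z ^ (1 / 2 : ℂ)) (-(I / (2 * a))) :=
        continuousAt_cpow_const hslit
      have h4 : ((-(I / (2 * a)) : ℂ) ^ (1 / 2 : ℂ)) ≠ 0 := by
        rw [Complex.cpow_ne_zero_iff]
        exact Or.inl (Complex.slitPlane_ne_zero hslit)
      exact (tendsto_const_nhds (x := (1 : ℂ))).div (h3.tendsto.comp h1) h4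
    · have h1 : Tendsto (fun s : ℝ => (1 + ((1 / s : ℝ) : ℂ) * (I / (2 * a)) : ℂ)) atTop (𝓝 1) := by
        have h2 := (hinv0.mul_const (I / (2 * a) : ℂ)).const_add (1 : ℂ)
        rwa [zero_mul, add_zero] at h2
      have h3 : ContinuousAt (fun z : ℂ => z ^ (1 / 2 : ℂ)) 1 :=
        continuousAt_cpow_const Complex.one_mem_slitPlane
      have h4 := h3.tendsto.comp h1
      rwa [Complex.one_cpow] at h4
  have hlim : ∑ r ∈ Finset.range (2 * a), e r * 1 =
      1 / (-(I / (2 * a)) : ℂ) ^ (1 / 2 : ℂ) * (1 * 1) := by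
    refine tendsto_nhds_unique hL (hR2.congr' ?_)
    filter_upwards [eventually_gt_atTop (0 : ℝ)] with s hs
    exact (hdiv s hs).symm
  have hval : 1 / (-(I / (2 * a)) : ℂ) ^ (1 / 2 : ℂ) = (Real.sqrt (2 * a) : ℂ) * z8 := by
    have h1 : (-(I / (2 * a)) : ℂ) = ((1 / (2 * a) : ℝ) : ℂ) * (-I) := by
      push_cast
      ring
    have h2 : (0 : ℝ) < 1 / (2 * a) := by positivity
    rw [Complex.cpow_def_of_ne_zero (Complex.slitPlane_ne_zero hslit), h1,
      Complex.log_ofReal_mul h2 (neg_ne_zero.2 I_ne_zero), Complex.log_neg_I, one_div,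
      ← Complex.exp_neg, Real.sqrt_eq_rpow, Real.rpow_def_of_pos (by positivity), z8,
      Complex.ofReal_exp, ← Complex.exp_add]
    congr 1
    rw [one_div, Real.log_inv]
    push_cast
    ring
  have hfin : ∑ n ∈ Finset.range (2 * a),
      cexp (2 * Real.pi * I * (((n : ℚ) ^ 2 / (4 * a) : ℚ) : ℂ)) =
      ∑ r ∈ Finset.range (2 * a), e r * 1 := by
    refine Finset.sum_congr rfl fun n _ => ?_
    rw [mul_one]
    simp only [he]
    congr 1
    push_cast
    field_simp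
    ring
  rw [hfin, hlim, hval, mul_one, mul_one]

end

end Pool.Agent.Lib.MP_1a91b9_ntT.S1
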