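import Pool.Agent.Lib.MP_1a91b9_ntT.S1.Defs

/-!
# OrthBasis: an orthogonal basis inside of a full additive subgroup

PROOF. The bilinear form `B(x,y) = Tr(δ x y)` on the `ℚ`-space `F` is symmetric and nondegenerate
(`traceForm_nondegenerate ℚ F` and `δ ≠ 0`: if `Tr(δ x y) = 0` for all `y` then `δ x = 0`).
`LinearMap.BilinForm.exists_orthogonal_basis` gives a basis `v` with `B(v_i, v_j) = 0` for
`i ≠ j` (`LinearMap.IsOrthoᵢ`), `B(v_i,v_i) ≠ 0` by nondegeneracy (if `B(v_i,v_i) = 0` then
`v_i` is orthogonal to everything: `LinearMap.IsOrthoᵢ.not_isOrtho_basis_self_of_separatingLeft`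
or by hand). Choose `n_i ≠ 0` with `n_i v_i ∈ L` (`hfull`); `b_i = n_i v_i` is a basis
(`Basis.unitsSMul` or `Basis.isUnitSMul`) with the required properties.
-/

set_option autoImplicit false

namespace Pool.Agent.Lib.MP_1a91b9_ntT.S1

open NumberField Module IsDedekindDomain

noncomputable section

/-- An orthogonal basis inside of a full additive subgroup. -/
theorem orth_basis {F : Type*} [Field F] [NumberField F] (δ : F) (hδ : δ ≠ 0) (L : AddSubgroup F)
    (hfull : ∀ x : F, ∃ n : ℕ, n ≠ 0 ∧ n • x ∈ L) :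
    ∃ b : Basis (Fin (finrank ℚ F)) ℚ F, (∀ i, b i ∈ L) ∧
      (∀ i j, i ≠ j → Algebra.trace ℚ F (δ * (b i * b j)) = 0) ∧
      ∀ i, Algebra.trace ℚ F (δ * b i ^ 2) ≠ 0 := by
  let B : LinearMap.BilinForm ℚ F := (Algebra.traceForm ℚ F).comp (LinearMap.mulLeft ℚ δ) LinearMap.id
  have hB : ∀ x y, B x y = Algebra.trace ℚ F (δ * (x * y)) := by
    intro x y
    show Algebra.traceForm ℚ F (δ * x) y = _
    rw [Algebra.traceForm_apply, mul_assoc]
  have hsymm : LinearMap.IsSymm B := by
    constructor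
    intro x y
    rw [RingHom.id_apply, hB, hB, mul_comm x y]
  obtain ⟨v, hv⟩ := LinearMap.BilinForm.exists_orthogonal_basis (B := B) hsymm
  have hv0 : ∀ i, B (v i) (v i) ≠ 0 := by
    intro i h0
    have h1 : B (v i) = 0 := by
      refine v.ext fun j => ?_
      by_cases hij : i = j
      · subst hij
        rw [h0]
        rfl
      · exact hv hij
    have h2 : δ * v i = 0 := by
      refine (traceForm_nondegenerate ℚ F).1 (δ * v i) fun y => ?_
      have h3 : B (v i) y = 0 := by rw [h1]; rfl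
      rw [hB] at h3
      rw [Algebra.traceForm_apply, mul_assoc]
      exact h3
    rcases mul_eq_zero.1 h2 with h3 | h3
    · exact hδ h3
    · exact v.ne_zero i h3
  choose n hn hnL using fun i => hfull (v i)
  have hw : ∀ i, IsUnit ((n i : ℚ)) := fun i => IsUnit.mk0 _ (Nat.cast_ne_zero.2 (hn i))
  have hb : ∀ i, v.isUnitSMul hw i = (n i : ℚ) • v i := fun i => Basis.isUnitSMul_apply hw i
  have hcalc : ∀ (i j) (a c : ℚ), B (a • v i) (c • v j) = a * (c * B (v i) (v j)) := by
    intro i j a c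
    simp only [map_smul, LinearMap.smul_apply, smul_eq_mul]
    ring
  refine ⟨v.isUnitSMul hw, ?_, ?_, ?_⟩
  · intro i
    rw [hb, Nat.cast_smul_eq_nsmul]
    exact hnL i
  · intro i j hij
    have h1 : B (v i) (v j) = 0 := hv hij
    rw [← hB, hb, hb, hcalc, h1, mul_zero, mul_zero]
  · intro i
    rw [sq, ← hB, hb, hcalc]
    have h1 : (n i : ℚ) ≠ 0 := Nat.cast_ne_zero.2 (hn i)
    exact mul_ne_zero h1 (mul_ne_zero h1 (hv0 i))

end

end Pool.Agent.Lib.MP_1a91b9_ntT.S1
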