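import Pool.Agent.Lib.MP_1a91b9_ntT.S1.Defs
import Pool.Agent.Lib.MP_1a91b9_ntT.S1.GsIso
import Pool.Agent.Lib.MP_1a91b9_ntT.S1.GsMul
import Pool.Agent.Lib.MP_1a91b9_ntT.S1.G1
import Pool.Agent.Lib.MP_1a91b9_ntT.S1.HalfBound
import Pool.Agent.Lib.MP_1a91b9_ntT.S1.OrthBasis
import Pool.Agent.Lib.MP_1a91b9_ntT.S1.LattFin
import Pool.Agent.Lib.MP_1a91b9_ntT.S1.DiagGauss
import Pool.Agent.Lib.MP_1a91b9_ntT.S1.FormInt

/-!
# Positivity of the Gauss sums of a totally complex field
-/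

set_option autoImplicit false

namespace Pool.Agent.Lib.MP_1a91b9_ntT.S1

open NumberField Module IsDedekindDomain

noncomputable section

variable {F : Type*} [Field F] [NumberField F]

theorem signature_zero [IsTotallyComplex F] (δ : F) (hδ : δ ≠ 0) {ι : Type*} [Fintype ι]
    (b : ι → F) (a : ι → ℚ) (horth : ∀ i j, i ≠ j → Algebra.trace ℚ F (δ * (b i * b j)) = 0)
    (ha : ∀ i, Algebra.trace ℚ F (δ * b i ^ 2) = a i) (ha0 : ∀ i, a i ≠ 0)
    (hcard : Fintype.card ι = finrank ℚ F) :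
    (Finset.univ.filter (fun i => 0 < a i)).card
      = (Finset.univ.filter (fun i => a i < 0)).card := by
  classical
  have h1 := half_bound δ hδ b a 1 horth ha
  have h2 := half_bound δ hδ b a (-1) horth ha
  have h3 : (Finset.univ.filter (fun i => 0 < a i)).card
      + (Finset.univ.filter (fun i => a i < 0)).card = Fintype.card ι := by
    rw [← Finset.card_union_of_disjoint, ← Finset.card_univ]
    · congr 1
      ext i
      simp only [Finset.mem_union, Finset.mem_filter, Finset.mem_univ, true_and, iff_true]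
      rcases lt_trichotomy (a i) 0 with h | h | h
      · exact Or.inr h
      · exact absurd h (ha0 i)
      · exact Or.inl h
    · rw [Finset.disjoint_left]
      intro i h4 h5
      simp only [Finset.mem_filter, Finset.mem_univ, true_and] at h4 h5
      exact absurd h4 (not_lt.2 h5.le)
  simp only [one_mul, neg_mul, neg_pos] at h1 h2
  omega

/-- The Gauss sum of the diagonal lattice is positive for a totally complex field. -/
theorem diag_pos [IsTotallyComplex F] (δ : F) (hδ : δ ≠ 0) (b : Basis (Fin (finrank ℚ F)) ℚ F)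
    (a : Fin (finrank ℚ F) → ℤ) (ha : ∀ i, a i ≠ 0)
    (horth : ∀ i j, i ≠ j → Algebra.trace ℚ F (δ * (b i * b j)) = 0)
    (hq : ∀ i, Algebra.trace ℚ F (δ * b i ^ 2) = a i) :
    ∃ r : ℝ, 0 < r ∧
      gs (latt b 1) (latt b (fun i => 2 * a i)) (fun x => ee (δ * x ^ 2)) = (r : ℂ) := by
  rw [diag_gauss δ b a ha horth hq]
  have hsig := signature_zero δ hδ b (fun i => (a i : ℚ)) horth hq
    (fun i => by exact_mod_cast ha i) (by simp)
  have hterm : ∀ i, g1 (a i) = (Real.sqrt (2 * (a i).natAbs) : ℂ) *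
      (if 0 < a i then z8 else 1) * (if a i < 0 then z8⁻¹ else 1) := by
    intro i
    rcases lt_trichotomy (a i) 0 with h | h | h
    · rw [g1_neg _ h, if_neg (not_lt.2 h.le), if_pos h, mul_one]
    · exact absurd h (ha i)
    · rw [g1_pos _ h, if_pos h, if_neg (not_lt.2 h.le), mul_one]
  refine ⟨∏ i, Real.sqrt (2 * (a i).natAbs), ?_, ?_⟩
  · apply Finset.prod_pos
    intro i _
    apply Real.sqrt_pos.2
    have : 0 < (a i).natAbs := Int.natAbs_pos.2 (ha i)
    have h2 : (0 : ℝ) < ((a i).natAbs : ℝ) := by exact_mod_cast this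
    positivity
  · rw [Finset.prod_congr rfl (fun i _ => hterm i), Finset.prod_mul_distrib,
      Finset.prod_mul_distrib, Finset.prod_ite, Finset.prod_ite]
    simp only [Finset.prod_const, one_pow, mul_one]
    have h1 : (Finset.univ.filter (fun i => 0 < a i)).card
        = (Finset.univ.filter (fun i => a i < 0)).card := by
      have e1 : (Finset.univ.filter (fun i => (0 : ℚ) < (a i : ℚ)))
          = Finset.univ.filter (fun i => 0 < a i) := by
        ext i; simp
      have e2 : (Finset.univ.filter (fun i => (a i : ℚ) < (0 : ℚ)))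
          = Finset.univ.filter (fun i => a i < 0) := by
        ext i; simp
      rw [← e1, ← e2]
      exact hsig
    have h8 : z8 * z8⁻¹ = 1 := mul_inv_cancel₀ (Complex.exp_ne_zero _)
    rw [h1, mul_assoc, ← mul_pow, h8, one_pow, mul_one]
    push_cast
    rfl

/-- Positivity of the Gauss sum of the form `Tr (δ x²)` on a lattice `L` with dual `M`. -/
theorem gauss_pos [IsTotallyComplex F] (δ : F) (hδ : δ ≠ 0) (L M : AddSubgroup F)
    (hfull : ∀ x : F, ∃ n : ℕ, n ≠ 0 ∧ n • x ∈ L)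
    (hint : ∀ x ∈ L, IsZ (Algebra.trace ℚ F (δ * x ^ 2)))
    (hdual : ∀ x, x ∈ M ↔ ∀ y ∈ L, IsZ (Algebra.trace ℚ F (2 * δ * (x * y)))) :
    ∃ r : ℝ, 0 < r ∧ gs L M (fun x => ee (δ * x ^ 2)) = (r : ℂ) := by
  obtain ⟨b, hbL, horth, hne⟩ := orth_basis δ hδ L hfull
  have hq0 : ∀ i, ∃ n : ℤ, (n : ℚ) = Algebra.trace ℚ F (δ * b i ^ 2) := fun i => hint _ (hbL i)
  choose a haq using hq0
  have hq : ∀ i, Algebra.trace ℚ F (δ * b i ^ 2) = a i := fun i => (haq i).symm
  have ha : ∀ i, a i ≠ 0 := by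
    intro i h
    apply hne i
    rw [hq i, h]
    simp
  obtain ⟨r, hr, hgr⟩ := diag_pos δ hδ b a ha horth hq
  -- the chain `L0 ≤ L ≤ M ≤ L0'`
  have h01 : latt b 1 ≤ L := latt_one_le b L hbL
  have hLM : L ≤ M := by
    intro x hx
    rw [hdual]
    intro y hy
    have e : 2 * δ * (x * y) = δ * (x + y) ^ 2 - δ * x ^ 2 - δ * y ^ 2 := by ring
    rw [e, map_sub, map_sub]
    exact ((hint _ (L.add_mem hx hy)).sub (hint _ hx)).sub (hint _ hy)
  have h23 : M ≤ latt b (fun i => 2 * a i) := by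
    intro x hx
    rw [latt_dual δ b a ha horth hq]
    intro y hy
    exact (hdual x).1 hx y (h01 hy)
  have hfin := latt_fin b a ha
  -- quadratic expansion
  have hexp : ∀ x l : F, ee (δ * (x + l) ^ 2)
      = ee (δ * x ^ 2) * (ee (2 * δ * (x * l)) * ee (δ * l ^ 2)) := by
    intro x l
    rw [← ee_add, ← ee_add]
    congr 1
    ring
  have hl1 : ∀ l ∈ L, ee (δ * l ^ 2) = 1 := fun l hl => (ee_eq_one_iff _).2 (hint l hl)
  have hiso : gs (latt b 1) (latt b (fun i => 2 * a i)) (fun x => ee (δ * x ^ 2))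
      = gs (latt b 1) M (fun x => ee (δ * x ^ 2)) := by
    apply gs_iso (latt b 1) L M (latt b (fun i => 2 * a i)) _ (fun x l => ee (2 * δ * (x * l)))
      h01 hLM h23 hfin
    · intro x _ l hl
      change ee (δ * (x + l) ^ 2) = _
      rw [hexp, hl1 l hl, mul_one]
    · intro x _ l _ l' _
      change ee (2 * δ * (x * (l + l'))) = ee (2 * δ * (x * l)) * ee (2 * δ * (x * l'))
      rw [← ee_add]
      congr 1
      ring
    · intro x hx l hl
      exact (ee_eq_one_iff _).2 ((latt_dual δ b a ha horth hq x).1 hx l hl)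
    · intro x _ hx
      rw [hdual] at hx
      push Not at hx
      obtain ⟨y, hy, hy2⟩ := hx
      exact ⟨y, hy, fun h => hy2 ((ee_eq_one_iff _).1 h)⟩
  have hfin2 : (latt b 1).relIndex M ≠ 0 := by
    intro h
    apply hfin
    have := AddSubgroup.relIndex_mul_relIndex (latt b 1) M (latt b (fun i => 2 * a i))
      (h01.trans hLM) h23
    rw [← this, h, zero_mul]
  have hmul : gs (latt b 1) M (fun x => ee (δ * x ^ 2))
      = ((latt b 1).relIndex L : ℂ) * gs L M (fun x => ee (δ * x ^ 2)) := by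
    apply gs_mul (latt b 1) L M _ h01 hLM hfin2
    intro x hx l hl
    change ee (δ * (x + l) ^ 2) = ee (δ * x ^ 2)
    rw [hexp, hl1 l hl, mul_one, (ee_eq_one_iff _).2 ((hdual x).1 hx l hl), mul_one]
  have hn : (latt b 1).relIndex L ≠ 0 := by
    intro h
    apply hfin2
    have := AddSubgroup.relIndex_mul_relIndex (latt b 1) L M h01 hLM
    rw [← this, h, zero_mul]
  have hnpos : (0 : ℝ) < ((latt b 1).relIndex L : ℝ) := by
    exact_mod_cast Nat.pos_of_ne_zero hn
  refine ⟨r / ((latt b 1).relIndex L : ℝ), by positivity, ?_⟩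
  have h5 : ((latt b 1).relIndex L : ℂ) * gs L M (fun x => ee (δ * x ^ 2)) = (r : ℂ) := by
    rw [← hmul, ← hiso, hgr]
  rw [Complex.ofReal_div, eq_div_iff (by exact_mod_cast hn), mul_comm]
  exact_mod_cast h5

theorem lat_le (M b : Ideal (𝓞 F)) : Ideal.span {2} * M * b ≤ M :=
  (Ideal.mul_le_left).trans Ideal.mul_le_right

theorem Mb_ne {m : 𝓞 F} {e : Ideal (𝓞 F)} (h : Cod F m e) (α : 𝓞 F)
    (hα : α ≠ 0) (M b : Ideal (𝓞 F)) (hMb : Ideal.span {α} * e = M ^ 2 * b) :
    Ideal.span {2} * M * b ≠ ⊥ := by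
  intro h4
  rw [mul_assoc] at h4
  rcases mul_eq_zero.1 h4 with h5 | h5
  · rw [Ideal.zero_eq_bot, Ideal.span_singleton_eq_bot] at h5
    exact two_ne_zero h5
  · have h6 : Ideal.span {α} * e = M * (M * b) := by rw [hMb]; ring
    rw [h5, mul_zero] at h6
    rcases mul_eq_zero.1 h6 with h7 | h7
    · rw [Ideal.zero_eq_bot, Ideal.span_singleton_eq_bot] at h7
      exact hα h7
    · exact h.e_ne h7

/-- Positivity of the Gauss sum on `M / 2 M b` for `α e = M² b`. -/
theorem gauss_ideal [IsTotallyComplex F] {m : 𝓞 F} {e : Ideal (𝓞 F)} (h : Cod F m e) (α : 𝓞 F)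
    (hα : α ≠ 0) (M b : Ideal (𝓞 F)) (hMb : Ideal.span {α} * e = M ^ 2 * b) :
    ∃ r : ℝ, 0 < r ∧
      gs (Ideal.span {2} * M * b).toAddSubgroup M.toAddSubgroup (qf m α) = (r : ℂ) := by
  have hm : (m : F) ≠ 0 := by
    simpa using h.ne
  have hα' : (α : F) ≠ 0 := by simpa using hα
  have hδ : (1 / (4 * (m : F) * α)) ≠ 0 := by
    apply one_div_ne_zero
    exact mul_ne_zero (mul_ne_zero (by norm_num) hm) hα'
  generalize hN : Ideal.span {2} * M * b = N
  have hNM : N ≤ M := hN ▸ lat_le M b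
  have hint : ∀ x ∈ imI N, IsZ (Algebra.trace ℚ F (1 / (4 * (m : F) * α) * x ^ 2)) := by
    intro x hx
    exact form_int h α hα M b hMb x (by rw [hN]; exact hx)
  have hdual : ∀ x, x ∈ imI M ↔ ∀ y ∈ imI N,
      IsZ (Algebra.trace ℚ F (2 * (1 / (4 * (m : F) * α)) * (x * y))) := by
    intro x
    rw [← hN]
    exact form_dual h α hα M b hMb x
  have hfull : ∀ x : F, ∃ n : ℕ, n ≠ 0 ∧ n • x ∈ imI N :=
    imI_full (by rw [← hN]; exact Mb_ne h α hα M b hMb)
  obtain ⟨r, hr, hgr⟩ := gauss_pos (1 / (4 * (m : F) * α)) hδ (imI N) (imI M) hfull hint hdual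
  refine ⟨r, hr, ?_⟩
  rw [← hgr]
  symm
  have hle : imI N ≤ imI M := by
    rintro x ⟨y, hy, rfl⟩
    exact ⟨y, hNM hy, rfl⟩
  have key := gs_param (imI N) (imI M) (N.toAddSubgroup.addSubgroupOf M.toAddSubgroup)
    (((algebraMap (𝓞 F) F).toAddMonoidHom).comp M.toAddSubgroup.subtype)
    (fun x => ee (1 / (4 * (m : F) * α) * x ^ 2)) hle ?_ ?_ ?_ ?_
  · rw [key]
    unfold gs
    congr 1
    funext x
    unfold qf
    congr 1
    rw [div_mul_eq_mul_div, one_mul]
    rfl
  · intro a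
    exact ⟨a, a.2, rfl⟩
  · intro a
    rw [AddSubgroup.mem_addSubgroupOf]
    constructor
    · rintro ⟨y, hy, hya⟩
      have h9 : y = (a : 𝓞 F) := RingOfIntegers.coe_injective hya
      rwa [h9] at hy
    · intro ha
      exact ⟨a, ha, rfl⟩
  · rintro x ⟨y, hy, rfl⟩
    refine ⟨⟨y, hy⟩, ?_⟩
    have : (algebraMap (𝓞 F) F).toAddMonoidHom y
        - (((algebraMap (𝓞 F) F).toAddMonoidHom).comp M.toAddSubgroup.subtype) ⟨y, hy⟩ = 0 :=
      sub_self _
    rw [this]
    exact zero_mem _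
  · intro x hx l hl
    change ee (1 / (4 * (m : F) * α) * (x + l) ^ 2) = ee (1 / (4 * (m : F) * α) * x ^ 2)
    apply ee_congr
    have e1 : 1 / (4 * (m : F) * α) * (x + l) ^ 2 - 1 / (4 * (m : F) * α) * x ^ 2
        = 2 * (1 / (4 * (m : F) * α)) * (x * l) + 1 / (4 * (m : F) * α) * l ^ 2 := by ring
    rw [e1, map_add]
    exact ((hdual x).1 hx l hl).add (hint l hl)

end

end Pool.Agent.Lib.MP_1a91b9_ntT.S1
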